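import Mathlib

/-!
# Perfect matchings in polynomial time: definitions

A graph is given by a list `V` of vertices (natural numbers) and a list `E` of ordered pairs, which
contains with `(u, v)` also `(v, u)`. Matchings are lists of ordered pairs of the same kind.
The algorithm: `forest` grows an alternating tree from the exposed vertex `a` (the tree is stored as
the list of the paths from its outer vertices to `a`). If an outer vertex is adjacent to the second
exposed vertex `b`, the matching is augmented (`base`). Otherwise, if two outer vertices are adjacent,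
the odd cycle `cyc` is contracted to its base `ctr` (`next`); a perfect matching of the contracted
graph is lifted by `lift`.
-/

set_option autoImplicit false

namespace Pool.Agent.EDM

/-- ordered pairs -/
abbrev Ed := ℕ × ℕ

/-- `(V, E)` is a graph -/
structure Gr (V : List ℕ) (E : List Ed) : Prop where
  symm : ∀ u v, (u, v) ∈ E → (v, u) ∈ E
  irr : ∀ u, (u, u) ∉ E
  mem : ∀ u v, (u, v) ∈ E → u ∈ V

/-- `M` is a matching of the graph -/
structure Mt (E M : List Ed) : Prop where
  sub : ∀ u v, (u, v) ∈ M → (u, v) ∈ E
  symm : ∀ u v, (u, v) ∈ M → (v, u) ∈ M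
  func : ∀ u v w, (u, v) ∈ M → (u, w) ∈ M → v = w

/-- `M` is a perfect matching of the graph -/
structure PM (V : List ℕ) (E M : List Ed) : Prop where
  mt : Mt E M
  cov : ∀ v ∈ V, ∃ w, (v, w) ∈ M

/-- `M` is a matching which exposes exactly the vertices `a ≠ b` -/
structure Near (V : List ℕ) (E M : List Ed) (a b : ℕ) : Prop where
  mt : Mt E M
  av : a ∈ V
  bv : b ∈ V
  ne : a ≠ b
  ea : ∀ w, (a, w) ∉ M
  eb : ∀ w, (b, w) ∉ M
  cov : ∀ v ∈ V, v ≠ a → v ≠ b → ∃ w, (v, w) ∈ M

/-- membership in a list of numbers -/
def memN (l : List ℕ) (v : ℕ) : Bool := l.any fun x => decide (x = v)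

/-- membership in a list of pairs -/
def memE (l : List Ed) (e : Ed) : Bool := l.any fun x => decide (x.1 = e.1) && decide (x.2 = e.2)

@[simp] theorem memN_iff (l : List ℕ) (v : ℕ) : memN l v = true ↔ v ∈ l := by
  simp [memN]

@[simp] theorem memE_iff (l : List Ed) (e : Ed) : memE l e = true ↔ e ∈ l := by
  simp only [memE, List.any_eq_true, Bool.and_eq_true, decide_eq_true_eq]
  constructor
  · rintro ⟨x, hx, h1, h2⟩
    have : x = e := Prod.ext h1 h2
    rwa [← this]
  · intro h
    exact ⟨e, h, rfl, rfl⟩

theorem memN_false (l : List ℕ) (v : ℕ) : memN l v = false ↔ v ∉ l := by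
  rw [← memN_iff, Bool.not_eq_true]

theorem memE_false (l : List Ed) (e : Ed) : memE l e = false ↔ e ∉ l := by
  rw [← memE_iff, Bool.not_eq_true]

/-- the partner of `v` -/
def mate (M : List Ed) (v : ℕ) : ℕ := ((M.filter fun e => decide (e.1 = v)).map Prod.snd).headD 0

/-- consecutive pairs of `x :: l`, in both directions -/
def chainE : ℕ → List ℕ → List Ed
  | _, [] => []
  | x, y :: l => (x, y) :: (y, x) :: chainE y l

/-- consecutive pairs of a list, in both directions, computed by a fold -/
def steps (p : List ℕ) : List Ed :=
  (p.tail.foldl (fun s y => (y, (s.1, y) :: (y, s.1) :: s.2)) (p.headD 0, ([] : List Ed))).2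

/-- symmetric difference of the matching and the edges of a path -/
def sw (E M : List Ed) (p : List ℕ) : List Ed := E.filter fun e => xor (memE M e) (memE (steps p) e)

/-- the pairs (first, second), (third, fourth), ..., in both directions -/
def pairsR : List ℕ → List Ed
  | [] => []
  | [_] => []
  | x :: y :: l => (x, y) :: (y, x) :: pairsR l

/-- the same computed by a fold; the state is (pending?, pending element, pairs) -/
def pairs (l : List ℕ) : List Ed :=
  (l.foldl (fun s y => bif s.1 then (false, 0, (s.2.1, y) :: (y, s.2.1) :: s.2.2)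
    else (true, y, s.2.2)) (false, 0, ([] : List Ed))).2.2

/-- rotate `l` until its first element is `v` -/
def rotTo (v : ℕ) (l : List ℕ) : List ℕ :=
  (fun l : List ℕ => bif decide (l.headD 0 = v) then l else l.tail ++ [l.headD 0])^[l.length] l

/-- the possible extensions of the alternating tree -/
def grows (E M : List Ed) (b : ℕ) (F : List (List ℕ)) : List (List ℕ) :=
  F.flatMap fun p => (E.filter fun e => decide (e.1 = p.headD 0) &&
    (!(memN F.flatten e.2) && !decide (e.2 = b))).map fun e => mate M e.2 :: e.2 :: p

/-- one extension of the alternating tree -/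
def fstep (E M : List Ed) (b : ℕ) (F : List (List ℕ)) : List (List ℕ) :=
  match grows E M b F with
  | [] => F
  | r :: _ => r :: F

/-- the alternating tree with root `a` -/
def forest (V : List ℕ) (E M : List Ed) (a b : ℕ) : List (List ℕ) :=
  (fstep E M b)^[V.length] [[a]]

/-- the outer paths whose first vertex is adjacent to `b` -/
def good (E : List Ed) (b : ℕ) (F : List (List ℕ)) : List (List ℕ) :=
  F.filter fun p => memE E (p.headD 0, b)

/-- the pairs of outer paths with adjacent first vertices -/
def hits (E : List Ed) (F : List (List ℕ)) : List (List ℕ × List ℕ) :=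
  F.flatMap fun p => (F.filter fun q => memE E (p.headD 0, q.headD 0)).map fun q => (p, q)

/-- the common part of two paths -/
def stem (p q : List ℕ) : List ℕ := p.filter fun v => memN q v

/-- the part of the first path which is not in the second -/
def dif (p q : List ℕ) : List ℕ := p.filter fun v => !memN q v

/-- the odd cycle (starting at its base) closed by the edge between the first vertices of `p`, `q` -/
def cyc (p q : List ℕ) : List ℕ := (stem p q).headD 0 :: ((dif p q).reverse ++ dif q p)

/-- contraction of the vertices of `C` to `c` -/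
def rel (C : List ℕ) (c v : ℕ) : ℕ := bif memN C v then c else v

/-- vertices of the contracted graph -/
def ctrV (C : List ℕ) (V : List ℕ) : List ℕ := V.filter fun v => !memN C.tail v

/-- edges of the contracted graph -/
def ctrE (C : List ℕ) (E : List Ed) : List Ed :=
  (E.map fun e => (rel C (C.headD 0) e.1, rel C (C.headD 0) e.2)).filter fun e => !decide (e.1 = e.2)

/-- matching of the contracted graph -/
def ctrM (C : List ℕ) (M : List Ed) : List Ed := M.filter fun e => !memN C e.1

/-- lifting of a perfect matching `N` of the contracted graph -/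
def liftN (C : List ℕ) (E N : List Ed) : List Ed :=
  let w := mate N (C.headD 0)
  let v := (C.filter fun v => memE E (v, w)).headD 0
  E.filter fun e => memE ((v, w) :: (w, v) :: ((N.filter fun e => !decide (e.1 = C.headD 0) &&
    !decide (e.2 = C.headD 0)) ++ pairs (rotTo v C).tail)) e

/-- the data of the search: vertices, edges, matching, the two exposed vertices -/
abbrev St := List ℕ × List Ed × List Ed × ℕ × ℕ

/-- the alternating tree of a state -/
def fst' (x : St) : List (List ℕ) := forest x.1 x.2.1 x.2.2.1 x.2.2.2.1 x.2.2.2.2

/-- is a contraction necessary? -/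
def isRec (x : St) : Bool :=
  (good x.2.1 x.2.2.2.2 (fst' x)).isEmpty && !(hits x.2.1 (fst' x)).isEmpty

/-- the odd cycle of a state -/
def cycS (x : St) : List ℕ :=
  cyc ((hits x.2.1 (fst' x)).headD ([], [])).1 ((hits x.2.1 (fst' x)).headD ([], [])).2

/-- the stem of a state -/
def stemS (x : St) : List ℕ :=
  stem ((hits x.2.1 (fst' x)).headD ([], [])).1 ((hits x.2.1 (fst' x)).headD ([], [])).2

/-- the contracted state -/
def next (x : St) : St :=
  (ctrV (cycS x) x.1, ctrE (cycS x) x.2.1, ctrM (cycS x) (sw x.2.1 x.2.2.1 (stemS x)),
    (cycS x).headD 0, x.2.2.2.2)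

/-- the result if there is no contraction -/
def base (x : St) : Bool × List Ed :=
  match good x.2.1 x.2.2.2.2 (fst' x) with
  | [] => (false, [])
  | p :: _ => (true, (p.headD 0, x.2.2.2.2) :: (x.2.2.2.2, p.headD 0) :: sw x.2.1 x.2.2.1 p)

/-- lifting of the result of the contracted state -/
def liftS (x : St) (r : Bool × List Ed) : Bool × List Ed :=
  bif r.1 then (true, liftN (cycS x) x.2.1 r.2) else (false, [])

/-- linear recursion -/
def lrec {X R : Type} (c : X → Bool) (nx : X → X) (bs : X → R) (lf : X → R → R) : ℕ → X → R
  | 0, x => bs x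
  | k + 1, x => bif c x then lf x (lrec c nx bs lf k (nx x)) else bs x

/-- the search for a perfect matching, given a matching which exposes two vertices -/
def aug (x : St) : Bool × List Ed := lrec isRec next base liftS x.1.length x

/-- all edges of the graph with `n` universal vertices `n, ..., 2n - 1` -/
def full (n : ℕ) (E : List Ed) : List Ed :=
  (List.range (2 * n)).flatMap fun u => ((List.range (2 * n)).filter fun v =>
    !decide (u = v) && ((decide (n ≤ u) || decide (n ≤ v)) || (memE E (u, v) || memE E (v, u)))).map
      fun v => (u, v)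

/-- vertices of `H_m` -/
def hV (m : ℕ) : List ℕ := List.range m

/-- edges of `H_m`: the pairs below `m` -/
def hE (m : ℕ) (E : List Ed) : List Ed := E.filter fun e => decide (e.1 < m) && decide (e.2 < m)

/-- the trivial perfect matching of the graph with `n` universal vertices -/
def triv (n : ℕ) : List Ed := (List.range n).flatMap fun i => [(i, n + i), (n + i, i)]

/-- one step: from a perfect matching `M` of `H_(m + 2)` to one of `H_m`; `EE` is the list of all edges -/
def hstep (EE : List Ed) (s : Bool × ℕ × List Ed) : Bool × ℕ × List Ed :=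
  bif s.1 then
    bif memE s.2.2 (s.2.1 + 1, s.2.1) then (true, s.2.1 - 2, hE s.2.1 s.2.2)
    else
      let r := aug (hV s.2.1, hE s.2.1 EE, hE s.2.1 s.2.2, mate s.2.2 (s.2.1 + 1), mate s.2.2 s.2.1)
      (r.1, s.2.1 - 2, r.2)
  else s

/-- a perfect matching of the graph with the vertices `0, ..., n - 1` and the edges `u v`, `u ≠ v`,
`(u, v) ∈ E` or `(v, u) ∈ E` (or the answer `false`) -/
def pm (n : ℕ) (E : List Ed) : Bool × List Ed :=
  bif decide (n % 2 = 0) then
    let s := (hstep (full n E))^[n / 2] (true, 2 * n - 2, triv n)
    (s.1, s.2.2)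
  else (false, [])

end Pool.Agent.EDM
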