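import Pool.Agent.EDM.S1

/-! **[EDM-F1]** The alternating tree. -/

namespace Pool.Agent.EDM

/-- alternating tree with root `a`, as the list of the paths from its outer vertices to `a` -/
structure Fo (V : List ℕ) (E M : List Ed) (a b : ℕ) (F : List (List ℕ)) : Prop where
  ap : ∀ p ∈ F, AP E M a p
  suf : ∀ u t p, (u :: t :: p) ∈ F → p ∈ F
  inj : ∀ p ∈ F, ∀ q ∈ F, p.headD 0 = q.headD 0 → p = q
  nd : F.Nodup
  root : [a] ∈ F
  sep : ∀ u t p, (u :: t :: p) ∈ F → ∀ q ∈ F, q.headD 0 ≠ t
  nb : ∀ p ∈ F, b ∉ p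

private theorem F1_ne {E M : List Ed} {a : ℕ} {l : List ℕ} (h : AP E M a l) :
    ∃ s p, l = s :: p ∧ l.headD 0 = s := by
  cases h with
  | root => exact ⟨a, [], rfl, rfl⟩
  | @step u t s p _ _ _ _ _ => exact ⟨u, _, rfl, rfl⟩

private theorem F1_head {E M : List Ed} {a : ℕ} {l : List ℕ} (h : AP E M a l) : l.headD 0 ∈ l := by
  obtain ⟨s, p, rfl, h2⟩ := F1_ne h
  exact List.mem_cons_self

private theorem F1_closed {E M : List Ed} {a : ℕ} (hM : Mt E M) {l : List ℕ} (h : AP E M a l) :
    ∀ v ∈ l, v = a ∨ ∃ w ∈ l, (v, w) ∈ M := by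
  induction h with
  | root =>
    intro v hv
    exact Or.inl (List.mem_singleton.1 hv)
  | @step u t s p _ _ htu _ _ ih =>
    intro v hv
    rcases List.mem_cons.1 hv with h1 | h1
    · exact Or.inr ⟨t, List.mem_cons_of_mem _ List.mem_cons_self, h1 ▸ hM.symm _ _ htu⟩
    rcases List.mem_cons.1 h1 with h2 | h2
    · exact Or.inr ⟨u, List.mem_cons_self, h2 ▸ htu⟩
    rcases ih v h2 with h3 | ⟨w, hw, h3⟩
    · exact Or.inl h3
    · exact Or.inr ⟨w, List.mem_cons_of_mem _ (List.mem_cons_of_mem _ hw), h3⟩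

private theorem F1_headV {V : List ℕ} {E M : List Ed} {a b : ℕ} (hG : Gr V E) (hN : Near V E M a b)
    {l : List ℕ} (h : AP E M a l) : l.headD 0 ∈ V := by
  cases h with
  | root => exact hN.av
  | step _ _ htu _ _ => exact hG.mem _ _ (hG.symm _ _ (hN.mt.sub _ _ htu))

private theorem F1_grows (E M : List Ed) (b : ℕ) (F : List (List ℕ)) (r : List ℕ) :
    r ∈ grows E M b F ↔ ∃ p ∈ F, ∃ t, (p.headD 0, t) ∈ E ∧ t ∉ F.flatten ∧ t ≠ b ∧ r = mate M t :: t :: p := by
  unfold grows
  rw [List.mem_flatMap]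
  constructor
  · rintro ⟨p, hp, h⟩
    obtain ⟨e, he, rfl⟩ := List.mem_map.1 h
    rw [List.mem_filter] at he
    obtain ⟨h1, h2⟩ := he
    simp only [Bool.and_eq_true, Bool.not_eq_true', decide_eq_true_eq, decide_eq_false_iff_not] at h2
    obtain ⟨h3, h4, h5⟩ := h2
    refine ⟨p, hp, e.2, ?_, (memN_false _ _).1 h4, h5, rfl⟩
    rw [← h3]
    exact h1
  · rintro ⟨p, hp, t, h1, h2, h3, rfl⟩
    refine ⟨p, hp, List.mem_map.2 ⟨(p.headD 0, t), List.mem_filter.2 ⟨h1, ?_⟩, rfl⟩⟩
    simp only [Bool.and_eq_true, Bool.not_eq_true', decide_eq_true_eq, decide_eq_false_iff_not]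
    exact ⟨trivial, (memN_false _ _).2 h2, h3⟩

private theorem F1_cons {V : List ℕ} {E M : List Ed} {a b : ℕ} (hG : Gr V E) (hN : Near V E M a b)
    {F : List (List ℕ)} (hF : Fo V E M a b F) {r : List ℕ} (hr : r ∈ grows E M b F) :
    Fo V E M a b (r :: F) := by
  obtain ⟨p, hp, t, h1, h2, h3, rfl⟩ := (F1_grows E M b F r).1 hr
  have hfl : ∀ q ∈ F, ∀ x ∈ q, x ∈ F.flatten := fun q hq x hx => List.mem_flatten.2 ⟨q, hq, hx⟩
  have hta : t ≠ a := by
    rintro rfl
    exact h2 (hfl _ hF.root _ List.mem_cons_self)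
  have htV : t ∈ V := hG.mem _ _ (hG.symm _ _ h1)
  obtain ⟨u, hu⟩ := hN.cov t htV hta h3
  have hmate : mate M t = u := mate_eq hN.mt hu
  rw [hmate]
  have hut : (u, t) ∈ M := hN.mt.symm _ _ hu
  have hufl : u ∉ F.flatten := by
    intro h
    obtain ⟨q, hq, huq⟩ := List.mem_flatten.1 h
    rcases F1_closed hN.mt (hF.ap q hq) u huq with h4 | ⟨w, hw, h4⟩
    · rw [h4] at hut
      exact hN.ea _ hut
    · have h5 := hN.mt.func _ _ _ h4 hut
      exact h2 (hfl q hq t (h5 ▸ hw))
  have hub : u ≠ b := by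
    rintro rfl
    exact hN.eb _ hut
  have hne : u ≠ t := by
    rintro rfl
    exact hG.irr _ (hN.mt.sub _ _ hu)
  have hhd : ∀ q ∈ F, q.headD 0 ∈ F.flatten := fun q hq => hfl q hq _ (F1_head (hF.ap q hq))
  have hap : AP E M a (u :: t :: p) := by
    obtain ⟨s, p', hsp, hs⟩ := F1_ne (hF.ap p hp)
    have h5 := hF.ap p hp
    have h6 : t ∉ p := fun h => h2 (hfl p hp t h)
    have h7 : u ∉ p := fun h => hufl (hfl p hp u h)
    rw [hs] at h1
    rw [hsp] at h5 h6 h7 ⊢
    exact AP.step h5 h1 hu h6 h7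
  refine ⟨?_, ?_, ?_, ?_, ?_, ?_, ?_⟩
  · intro q hq
    rcases List.mem_cons.1 hq with rfl | hq
    · exact hap
    · exact hF.ap q hq
  · intro u' t' p' h
    rcases List.mem_cons.1 h with h | h
    · simp only [List.cons.injEq] at h
      rw [h.2.2]
      exact List.mem_cons_of_mem _ hp
    · exact List.mem_cons_of_mem _ (hF.suf _ _ _ h)
  · intro q hq q' hq' h
    rcases List.mem_cons.1 hq with h4 | h4
    · rcases List.mem_cons.1 hq' with h5 | h5
      · rw [h4, h5]
      · exfalso
        rw [h4] at h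
        have h6 : u = q'.headD 0 := h
        exact hufl (h6 ▸ hhd q' h5)
    · rcases List.mem_cons.1 hq' with h5 | h5
      · exfalso
        rw [h5] at h
        have h6 : q.headD 0 = u := h
        exact hufl (h6 ▸ hhd q h4)
      · exact hF.inj q h4 q' h5 h
  · refine List.nodup_cons.2 ⟨fun h => hufl (hfl _ h u List.mem_cons_self), hF.nd⟩
  · exact List.mem_cons_of_mem _ hF.root
  · intro u' t' p' h q hq
    rcases List.mem_cons.1 h with h | h
    · simp only [List.cons.injEq] at h
      rw [h.2.1]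
      rcases List.mem_cons.1 hq with h5 | h5
      · rw [h5]
        exact hne
      · intro h6
        exact h2 (h6 ▸ hhd q h5)
    · rcases List.mem_cons.1 hq with h5 | h5
      · rw [h5]
        intro h6
        have h7 : u = t' := h6
        exact hufl (h7 ▸ hfl _ h t' (List.mem_cons_of_mem _ List.mem_cons_self))
      · exact hF.sep _ _ _ h q h5
  · intro q hq hbq
    rcases List.mem_cons.1 hq with h5 | h5
    · rw [h5] at hbq
      rcases List.mem_cons.1 hbq with h6 | h6
      · exact hub h6.symm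
      rcases List.mem_cons.1 h6 with h7 | h7
      · exact h3 h7.symm
      · exact hF.nb p hp h7
    · exact hF.nb q h5 hbq

private theorem F1_len {V : List ℕ} {E M : List Ed} {a b : ℕ} (hG : Gr V E) (hN : Near V E M a b)
    {F : List (List ℕ)} (hF : Fo V E M a b F) : F.length ≤ V.length := by
  have h1 : (F.map fun p => p.headD 0).Nodup := List.Nodup.map_on hF.inj hF.nd
  have h2 : (F.map fun p => p.headD 0) ⊆ V := by
    intro x hx
    obtain ⟨p, hp, rfl⟩ := List.mem_map.1 hx
    exact F1_headV hG hN (hF.ap p hp)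
  have h3 := (h1.subperm h2).length_le
  rwa [List.length_map] at h3

private theorem F1_base {V : List ℕ} {E M : List Ed} {a b : ℕ} (hN : Near V E M a b) :
    Fo V E M a b [[a]] := by
  refine ⟨?_, ?_, ?_, List.nodup_singleton _, List.mem_singleton.2 rfl, ?_, ?_⟩
  · intro p hp
    rw [List.mem_singleton.1 hp]
    exact AP.root
  · intro u t p h
    simp at h
  · intro p hp q hq _
    rw [List.mem_singleton.1 hp, List.mem_singleton.1 hq]
  · intro u t p h
    simp at h
  · intro p hp hb
    rw [List.mem_singleton.1 hp] at hb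
    exact hN.ne (List.mem_singleton.1 hb).symm

/-
PROOF. `[[a]]` is an `Fo`. `fstep` preserves `Fo`: a new path is `u :: t :: p`, `p ∈ F`, `s = p.headD 0` (`p` is not
empty, `ap`), `(s, t) ∈ E`, `t ∉ F.flatten`, `t ≠ b`, `u = mate M t`; `t ≠ a` since `[a] ∈ F`, so `t` is covered
(`t ∈ V` by `Gr`) and `(t, u) ∈ M` (`mate_eq`), `(u, t) ∈ M`. Every path of `F` is closed in the following sense:
if `v ∈ q`, `q ∈ F` (an `AP`), then `v = a` or the `M`-partner of `v` is in `q` (induction on `AP`). So `u ∉ F.flatten`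
(`u ≠ a`: `u` is covered). `u ≠ b`. The members of an `AP` are in `V` (for `hd`: the first elements of the paths are
different members of `V`: `inj` and `nd`), so `F.length ≤ V.length` (`List.Nodup.subperm`, `List.Subperm.length_le`).
If `grows E M b F = []` then `fstep` fixes `F`, otherwise it increases the length by one. If `grows` of the `V.length`-th
iterate were not empty, the `(V.length + 1)`-st iterate would have length `V.length + 2`, but it is an `Fo`.
-/
theorem forest_ok {V : List ℕ} {E M : List Ed} {a b : ℕ} (hG : Gr V E) (hN : Near V E M a b) :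
    Fo V E M a b (forest V E M a b) ∧ grows E M b (forest V E M a b) = [] := by
  have key : ∀ k : ℕ, Fo V E M a b ((fstep E M b)^[k] [[a]]) ∧
      (grows E M b ((fstep E M b)^[k] [[a]]) = [] ∨ ((fstep E M b)^[k] [[a]]).length = k + 1) := by
    intro k
    induction k with
    | zero => exact ⟨F1_base hN, Or.inr rfl⟩
    | succ k ih =>
      obtain ⟨h1, h2⟩ := ih
      rw [Function.iterate_succ_apply']
      set F := (fstep E M b)^[k] [[a]] with hF
      cases hg : grows E M b F with
      | nil =>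
        have h3 : fstep E M b F = F := by
          unfold fstep
          rw [hg]
        rw [h3]
        exact ⟨h1, Or.inl hg⟩
      | cons r L =>
        have h3 : fstep E M b F = r :: F := by
          unfold fstep
          rw [hg]
        rw [h3]
        refine ⟨F1_cons hG hN h1 (by rw [hg]; exact List.mem_cons_self), Or.inr ?_⟩
        rcases h2 with h2 | h2
        · rw [hg] at h2
          exact absurd h2 (List.cons_ne_nil _ _)
        · rw [List.length_cons, h2]
  obtain ⟨h1, h2⟩ := key V.length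
  refine ⟨h1, ?_⟩
  rcases h2 with h2 | h2
  · exact h2
  · have h3 := F1_len hG hN h1
    omega

end Pool.Agent.EDM
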