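import Pool.Agent.EDM.F1

/-! **[EDM-F2]** A complete alternating tree without adjacent outer vertices: no perfect matching. -/

namespace Pool.Agent.EDM

/-
PROOF. Let `N` be a perfect matching (`PM V E N`), `O` the finset of the first elements of the paths in `F`.
For `v ∈ O`, `v = p.headD 0`, let `w` be the `N`-partner of `v` (`mate N v`): `(v, w) ∈ E`. `w ≠ b` since `good = []`,
`w` is not in `O` since `hits = []`, and `w ∈ F.flatten` since `grows = []`. Induction on `AP` (with `suf`): every member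
of `q ∈ F` is in `O` or is the second element `t` of a path `u :: t :: p' ∈ F`. So `(w, u) ∈ M` for some `u ∈ O`;
`u ≠ a` because `a` is exposed. So `v ↦ mate M (mate N v)` maps `O` into `O.erase a`; it is injective (`mate_eq`, symmetry);
`a ∈ O` (`root`). Contradiction by cardinalities (`Finset.card_le_card_of_injOn`, `Finset.card_erase_of_mem`).
-/
private theorem F2_class {V : List ℕ} {E M : List Ed} {a b : ℕ} {F : List (List ℕ)}
    (hF : Fo V E M a b F) (q : List ℕ) (hq : AP E M a q) :
    q ∈ F → ∀ x ∈ q, (∃ p ∈ F, x = p.headD 0) ∨ ∃ u p', (u :: x :: p') ∈ F := by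
  induction hq with
  | root =>
    intro hqF x hx
    rw [List.mem_singleton] at hx
    exact Or.inl ⟨[a], hqF, hx⟩
  | @step u t s p hp h1 h2 h3 h4 ih =>
    intro hqF x hx
    rcases List.mem_cons.1 hx with hx | hx
    · exact Or.inl ⟨_, hqF, hx⟩
    rcases List.mem_cons.1 hx with hx | hx
    · right
      rw [hx]
      exact ⟨u, s :: p, hqF⟩
    · exact ih (hF.suf u t _ hqF) x hx

private theorem F2_headV {V : List ℕ} {E M : List Ed} {a b : ℕ} (hG : Gr V E)
    (hN : Near V E M a b) (q : List ℕ) (hq : AP E M a q) : q.headD 0 ∈ V := by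
  cases hq with
  | root => exact hN.av
  | @step u t s p hp h1 h2 h3 h4 =>
    exact hG.mem u t (hN.mt.sub u t (hN.mt.symm t u h2))

theorem no_pm {V : List ℕ} {E M : List Ed} {a b : ℕ} {F : List (List ℕ)} (hG : Gr V E)
    (hN : Near V E M a b) (hF : Fo V E M a b F) (hg : grows E M b F = []) (h1 : good E b F = [])
    (h2 : hits E F = []) : ¬ ∃ N, PM V E N := by
  classical
  rintro ⟨N, hPM⟩
  set O : Finset ℕ := (F.map fun p => p.headD 0).toFinset with hO
  have hOmem : ∀ v, v ∈ O ↔ ∃ p ∈ F, v = p.headD 0 := by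
    intro v
    rw [hO, List.mem_toFinset, List.mem_map]
    constructor
    · rintro ⟨p, hp, h⟩
      exact ⟨p, hp, h.symm⟩
    · rintro ⟨p, hp, h⟩
      exact ⟨p, hp, h.symm⟩
  have key : ∀ v ∈ O, ∃ w u, (v, w) ∈ N ∧ (w, u) ∈ M ∧ u ∈ O ∧ u ≠ a := by
    intro v hv
    obtain ⟨p, hp, rfl⟩ := (hOmem v).1 hv
    obtain ⟨w, hw⟩ := hPM.cov _ (F2_headV hG hN p (hF.ap p hp))
    have hwE := hPM.mt.sub _ _ hw
    have hwb : w ≠ b := by
      rintro rfl
      have h3 : p ∈ good E w F := by
        unfold good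
        rw [List.mem_filter]
        exact ⟨hp, (memE_iff _ _).2 hwE⟩
      rw [h1] at h3
      exact absurd h3 List.not_mem_nil
    have hwO : ¬ ∃ q ∈ F, w = q.headD 0 := by
      rintro ⟨q, hq, hwq⟩
      have h3 : (p, q) ∈ hits E F := by
        unfold hits
        rw [List.mem_flatMap]
        refine ⟨p, hp, ?_⟩
        rw [List.mem_map]
        refine ⟨q, ?_, rfl⟩
        rw [List.mem_filter]
        refine ⟨hq, (memE_iff _ _).2 ?_⟩
        rw [← hwq]
        exact hwE
      rw [h2] at h3
      exact absurd h3 List.not_mem_nil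
    have hwF : w ∈ F.flatten := by
      by_contra hcon
      have h3 : (mate M w :: w :: p) ∈ grows E M b F := by
        unfold grows
        rw [List.mem_flatMap]
        refine ⟨p, hp, ?_⟩
        rw [List.mem_map]
        refine ⟨(p.headD 0, w), ?_, rfl⟩
        rw [List.mem_filter]
        refine ⟨hwE, ?_⟩
        simp only [Bool.and_eq_true, decide_eq_true_eq, Bool.not_eq_true', decide_eq_false_iff_not,
          true_and]
        exact ⟨(memN_false _ _).2 hcon, hwb⟩
      rw [hg] at h3
      exact absurd h3 List.not_mem_nil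
    obtain ⟨q, hq, hwq⟩ := List.mem_flatten.1 hwF
    rcases F2_class hF q (hF.ap q hq) hq w hwq with h3 | ⟨u, p', h3⟩
    · exact absurd h3 hwO
    · have h4 : (w, u) ∈ M := by
        have h5 := hF.ap _ h3
        cases h5 with
        | step _ _ h6 _ _ => exact h6
      refine ⟨w, u, hw, h4, (hOmem u).2 ⟨_, h3, rfl⟩, ?_⟩
      rintro rfl
      exact hN.ea w (hN.mt.symm _ _ h4)
  have haO : a ∈ O := (hOmem a).2 ⟨[a], hF.root, rfl⟩
  have hmaps : ∀ v ∈ O, mate M (mate N v) ∈ O.erase a := by
    intro v hv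
    obtain ⟨w, u, h3, h4, h5, h6⟩ := key v hv
    rw [mate_eq hPM.mt h3, mate_eq hN.mt h4, Finset.mem_erase]
    exact ⟨h6, h5⟩
  have hinj : Set.InjOn (fun v => mate M (mate N v)) (O : Set ℕ) := by
    intro v hv v' hv' h
    obtain ⟨w, u, h3, h4, -, -⟩ := key v hv
    obtain ⟨w', u', h3', h4', -, -⟩ := key v' hv'
    simp only at h
    rw [mate_eq hPM.mt h3, mate_eq hN.mt h4, mate_eq hPM.mt h3', mate_eq hN.mt h4'] at h
    subst h
    have h7 := hN.mt.func u w w' (hN.mt.symm _ _ h4) (hN.mt.symm _ _ h4')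
    subst h7
    exact hPM.mt.func w v v' (hPM.mt.symm _ _ h3) (hPM.mt.symm _ _ h3')
  have hcard := Finset.card_le_card_of_injOn (fun v => mate M (mate N v)) hmaps hinj
  rw [Finset.card_erase_of_mem haO] at hcard
  have hpos : 0 < O.card := Finset.card_pos.2 ⟨a, haO⟩
  omega

end Pool.Agent.EDM
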