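import Pool.Agent.EDM.S1

/-! Odd cycles (definition). -/

namespace Pool.Agent.EDM

/-- an odd cycle through all members of `C`, starting at its first element -/
structure Cy (V : List ℕ) (E : List Ed) (C : List ℕ) : Prop where
  nd : C.Nodup
  sub : ∀ v ∈ C, v ∈ V
  three : 3 ≤ C.length
  odd : C.length % 2 = 1
  chain : List.IsChain (fun u v => (u, v) ∈ E) (C ++ [C.headD 0])

/-- an odd cycle whose base (first element) is exposed and whose other vertices are matched inside -/
structure Bl (V : List ℕ) (E M : List Ed) (b : ℕ) (C : List ℕ) : Prop where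
  cy : Cy V E C
  near : Near V E M (C.headD 0) b
  int : ∀ u v, (u, v) ∈ M → u ∈ C → v ∈ C
  nb : b ∉ C

end Pool.Agent.EDM
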