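import Pool.Agent.EDM.F1
import Pool.Agent.EDM.G0

/-! **[EDM-G1]** Two adjacent outer vertices give an odd cycle with exposed base. -/

namespace Pool.Agent.EDM

/-
PROOF. (a) For `p, q ∈ F`: if `v = p.headD 0 ∈ q` then `p <:+ q` (`p` is a suffix of `q`): by induction on `AP` of `q`
(with `suf`): if `v` is the first element of `q` use `inj`; it is not the second one (`sep`). If `p = u :: t :: p₁` and
`t ∈ q` then also `p <:+ q`: `t` is not a first element (`sep`), and if `q = u' :: t :: q₁` then `u' = u` (`M` functional).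
(b) DECOMPOSITION: for `p, q ∈ F` there are `p', q', c` with `p = p' ++ c`, `q = q' ++ c`, `c ∈ F` (so `c ≠ []`), `p'.length`,
`q'.length` even, no member of `p'` in `q`, no member of `q'` in `p`. Strong induction on `p.length + q.length`: `p <:+ q`:
`c = p` (members of `q'` are not in `p`: `q` is `Nodup`, by induction on `AP`; lengths of the members of `F` are odd).
`q <:+ p` the same. Otherwise `p` is not `[a]` (every path ends in `a`), `p = u :: t :: p₁`, `u, t ∉ q` by (a), apply the
induction hypothesis to `p₁, q`.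
(c) Hence `stem p q = c`, `dif p q = p'`, `dif q p = q'`, `cyc p q = β :: (p'.reverse ++ q')` with `β = c.headD 0`. Not both
`p'` and `q'` are empty: `(p.headD 0, q.headD 0) ∈ E` and `Gr.irr`. So `cyc` has odd length `≥ 3`; `Nodup`; contained in `V`.
(d) chain: consecutive elements of an `AP` are adjacent (both directions, `Gr.symm`): `p' ++ [β]` reversed is a chain from `β`
to the first element of `p` (if `p' = []` this is `β` itself), which is adjacent to the first element of `q`, and `q' ++ [β]`
is a chain (`List.isChain_append`, `List.isChain_reverse`). Treat the cases `p' = []`, `q' = []` separately.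
(e) near: `sw_near` for `c` (`AP E M a c`); `β` exposed. int: for `u ∈ C`, `u ≠ β`, `u ∉ c`, so `(u, v) ∈ sw .. ↔ (u, v) ∈ M`
(`sw_off`), and the `M`-partner of a member of `p'` is in `p'` (induction in (b): add this to the decomposition: `p'` and
`q'` are closed under `M`-partners). `b ∉ cyc` by `nb`.
-/
private theorem G1_nodup {V : List ℕ} {E M : List Ed} {a b : ℕ} (hG : Gr V E)
    (hN : Near V E M a b) {p : List ℕ} (hp : AP E M a p) : p.Nodup := by
  induction hp with
  | root => exact List.nodup_singleton a
  | @step u t s p hp h1 h2 h3 h4 ih =>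
    have h5 : u ≠ t := by
      rintro rfl
      exact hG.irr u (hN.mt.sub u u h2)
    refine List.nodup_cons.2 ⟨?_, List.nodup_cons.2 ⟨h3, ih⟩⟩
    intro h6
    rcases List.mem_cons.1 h6 with h7 | h7
    · exact h5 h7
    · exact h4 h7

private theorem G1_sub {V : List ℕ} {E M : List Ed} {a b : ℕ} (hG : Gr V E)
    (hN : Near V E M a b) {p : List ℕ} (hp : AP E M a p) : ∀ x ∈ p, x ∈ V := by
  induction hp with
  | root =>
    intro x hx
    rw [List.mem_singleton] at hx
    rw [hx]
    exact hN.av
  | @step u t s p hp h1 h2 h3 h4 ih =>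
    intro x hx
    rcases List.mem_cons.1 hx with hx | hx
    · rw [hx]
      exact hG.mem u t (hN.mt.sub u t (hN.mt.symm t u h2))
    rcases List.mem_cons.1 hx with hx | hx
    · rw [hx]
      exact hG.mem t s (hG.symm s t h1)
    · exact ih x hx

private theorem G1_chain {V : List ℕ} {E M : List Ed} {a b : ℕ} (hG : Gr V E)
    (hN : Near V E M a b) {p : List ℕ} (hp : AP E M a p) :
    List.IsChain (fun u v => (u, v) ∈ E) p := by
  induction hp with
  | root => exact List.isChain_singleton a
  | @step u t s p hp h1 h2 h3 h4 ih =>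
    refine List.isChain_cons_cons.2 ⟨hN.mt.sub u t (hN.mt.symm t u h2), ?_⟩
    exact List.isChain_cons_cons.2 ⟨hG.symm s t h1, ih⟩

private theorem G1_last {E M : List Ed} {a : ℕ} {p : List ℕ} (hp : AP E M a p) : a ∈ p := by
  induction hp with
  | root => exact List.mem_singleton.2 rfl
  | @step u t s p hp h1 h2 h3 h4 ih => exact List.mem_cons_of_mem _ (List.mem_cons_of_mem _ ih)

private theorem G1_cons {E M : List Ed} {a : ℕ} {p : List ℕ} (hp : AP E M a p) :
    ∃ l, p = p.headD 0 :: l := by
  cases hp with
  | root => exact ⟨[], rfl⟩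
  | step => exact ⟨_, rfl⟩

private theorem G1_a {V : List ℕ} {E M : List Ed} {a b : ℕ} {F : List (List ℕ)}
    (hF : Fo V E M a b F) {p : List ℕ} (hp : p ∈ F) {q : List ℕ} (hq : AP E M a q) :
    q ∈ F → p.headD 0 ∈ q → ∃ q', q = q' ++ p := by
  induction hq with
  | root =>
    intro hqF hx
    rw [List.mem_singleton] at hx
    have h1 : p = [a] := hF.inj p hp [a] hqF hx
    exact ⟨[], h1.symm⟩
  | @step u t s l hp' h1 h2 h3 h4 ih =>
    intro hqF hx
    rcases List.mem_cons.1 hx with hx | hx
    · have h5 : p = u :: t :: s :: l := hF.inj p hp _ hqF hx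
      exact ⟨[], h5.symm⟩
    rcases List.mem_cons.1 hx with hx | hx
    · exact absurd hx (hF.sep u t _ hqF p hp)
    · obtain ⟨q', hq'⟩ := ih (hF.suf u t _ hqF) hx
      exact ⟨u :: t :: q', by rw [hq']; rfl⟩

private theorem G1_a2 {V : List ℕ} {E M : List Ed} {a b : ℕ} {F : List (List ℕ)}
    (hN : Near V E M a b) (hF : Fo V E M a b F) {u t : ℕ} {l : List ℕ} (hp : (u :: t :: l) ∈ F)
    (ht : (t, u) ∈ M) {q : List ℕ} (hq : AP E M a q) :
    q ∈ F → t ∈ q → ∃ q', q = q' ++ (u :: t :: l) := by
  induction hq with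
  | root =>
    intro hqF hx
    rw [List.mem_singleton] at hx
    exact absurd hx.symm (hF.sep u t l hp [a] hqF)
  | @step u' t' s' l' hp' h1 h2 h3 h4 ih =>
    intro hqF hx
    rcases List.mem_cons.1 hx with hx | hx
    · exact absurd hx.symm (hF.sep u t l hp _ hqF)
    rcases List.mem_cons.1 hx with hx | hx
    · subst hx
      have h5 : u = u' := hN.mt.func t u u' ht h2
      have h6 : (u :: t :: l) = u' :: t :: s' :: l' := hF.inj _ hp _ hqF h5
      exact ⟨[], by rw [h6]; rfl⟩
    · obtain ⟨q', hq'⟩ := ih (hF.suf _ _ _ hqF) hx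
      exact ⟨u' :: t' :: q', by rw [hq']; rfl⟩

private theorem G1_D {V : List ℕ} {E M : List Ed} {a b : ℕ} {F : List (List ℕ)}
    (hN : Near V E M a b) (hF : Fo V E M a b F) {q : List ℕ} (hq : q ∈ F) {p : List ℕ}
    (hp : AP E M a p) :
    p ∈ F → ∃ p' c, p = p' ++ c ∧ c ∈ F ∧ (∃ q', q = q' ++ c) ∧ p'.length % 2 = 0 ∧
      (∀ x ∈ p', x ∉ q) ∧ ∀ x ∈ p', ∀ y, (x, y) ∈ M → y ∈ p' := by
  induction hp with
  | root =>
    intro hpF
    obtain ⟨q', hq'⟩ := G1_a hF hpF (hF.ap q hq) hq (G1_last (hF.ap q hq))
    exact ⟨[], [a], rfl, hpF, ⟨q', hq'⟩, rfl, fun x hx => absurd hx List.not_mem_nil,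
      fun x hx => absurd hx List.not_mem_nil⟩
  | @step u t s l hp h1 h2 h3 h4 ih =>
    intro hpF
    by_cases hu : u ∈ q
    · obtain ⟨q', hq'⟩ := G1_a hF hpF (hF.ap q hq) hq hu
      exact ⟨[], _, rfl, hpF, ⟨q', hq'⟩, rfl, fun x hx => absurd hx List.not_mem_nil,
        fun x hx => absurd hx List.not_mem_nil⟩
    · have ht : t ∉ q := by
        intro ht
        obtain ⟨q', hq'⟩ := G1_a2 hN hF hpF h2 (hF.ap q hq) hq ht
        apply hu
        rw [hq']
        simp
      obtain ⟨p', c, e1, e2, e3, e4, e5, e6⟩ := ih (hF.suf _ _ _ hpF)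
      refine ⟨u :: t :: p', c, by rw [e1]; rfl, e2, e3, ?_, ?_, ?_⟩
      · simp only [List.length_cons]
        omega
      · intro x hx
        rcases List.mem_cons.1 hx with hx | hx
        · rw [hx]; exact hu
        rcases List.mem_cons.1 hx with hx | hx
        · rw [hx]; exact ht
        · exact e5 x hx
      · intro x hx y hy
        rcases List.mem_cons.1 hx with hx | hx
        · subst hx
          have h7 : t = y := hN.mt.func _ _ _ (hN.mt.symm _ _ h2) hy
          rw [← h7]
          simp
        rcases List.mem_cons.1 hx with hx | hx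
        · subst hx
          have h7 : u = y := hN.mt.func _ _ _ h2 hy
          rw [← h7]
          simp
        · exact List.mem_cons_of_mem _ (List.mem_cons_of_mem _ (e6 x hx y hy))

private theorem G1_suf {p q p' c c2 : List ℕ} (h1 : p = p' ++ c) (h2 : c2 <:+ p) (h3 : c2 <:+ q)
    (h4 : ∀ x ∈ p', x ∉ q) : c2 <:+ c := by
  have h5 : c <:+ p := ⟨p', h1.symm⟩
  rcases List.suffix_or_suffix_of_suffix h2 h5 with h6 | h6
  · exact h6
  · obtain ⟨r, hr⟩ := h6
    obtain ⟨s, hs⟩ := h2
    have h7 : p' = s ++ r := by
      have h8 : p' ++ c = (s ++ r) ++ c := by rw [← h1, ← hs, ← hr, List.append_assoc]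
      exact List.append_cancel_right h8
    have h9 : r = [] := by
      rw [List.eq_nil_iff_forall_not_mem]
      intro x hx
      apply h4 x
      · rw [h7]
        exact List.mem_append_right _ hx
      · apply h3.subset
        rw [← hr]
        exact List.mem_append_left _ hx
    rw [h9, List.nil_append] at hr
    rw [hr]

private theorem G1_stem {p q p' c : List ℕ} (h1 : p = p' ++ c) (h2 : ∀ x ∈ c, x ∈ q)
    (h4 : ∀ x ∈ p', x ∉ q) : stem p q = c ∧ dif p q = p' := by
  unfold stem dif
  rw [h1, List.filter_append, List.filter_append]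
  have e1 : (p'.filter fun v => memN q v) = [] := by
    rw [List.filter_eq_nil_iff]
    intro x hx h
    exact h4 x hx ((memN_iff q x).1 h)
  have e2 : (c.filter fun v => memN q v) = c := by
    rw [List.filter_eq_self]
    intro x hx
    exact (memN_iff q x).2 (h2 x hx)
  have e3 : (p'.filter fun v => !memN q v) = p' := by
    rw [List.filter_eq_self]
    intro x hx
    rw [(memN_false q x).2 (h4 x hx)]
    rfl
  have e4 : (c.filter fun v => !memN q v) = [] := by
    rw [List.filter_eq_nil_iff]
    intro x hx h
    rw [(memN_iff q x).2 (h2 x hx)] at h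
    exact absurd h (by decide)
  rw [e1, e2, e3, e4]
  simp

theorem blossom {V : List ℕ} {E M : List Ed} {a b : ℕ} {F : List (List ℕ)} (hG : Gr V E)
    (hN : Near V E M a b) (hF : Fo V E M a b F) {p q : List ℕ} (hp : p ∈ F) (hq : q ∈ F)
    (he : (p.headD 0, q.headD 0) ∈ E) :
    Bl V E (sw E M (stem p q)) b (cyc p q) := by
  obtain ⟨p', c, a1, a2, ⟨q0, a3⟩, a4, a5, a6⟩ := G1_D hN hF hq (hF.ap p hp) hp
  obtain ⟨q', c2, b1, b2, ⟨p0, b3⟩, b4, b5, b6⟩ := G1_D hN hF hp (hF.ap q hq) hq
  have hc : c2 = c := by
    have h1 : c2 <:+ c := G1_suf a1 ⟨p0, b3.symm⟩ ⟨q', b1.symm⟩ a5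
    have h2 : c <:+ c2 := G1_suf b1 ⟨q0, a3.symm⟩ ⟨p', a1.symm⟩ b5
    exact h1.eq_of_length (le_antisymm h1.length_le h2.length_le)
  subst hc
  obtain ⟨l, hl⟩ := G1_cons (hF.ap _ a2)
  set β := c2.headD 0 with hβ
  have hcp : ∀ x ∈ c2, x ∈ p := fun x hx => by rw [a1]; exact List.mem_append_right _ hx
  have hcq : ∀ x ∈ c2, x ∈ q := fun x hx => by rw [b1]; exact List.mem_append_right _ hx
  have hp'p : ∀ x ∈ p', x ∈ p := fun x hx => by rw [a1]; exact List.mem_append_left _ hx
  have hq'q : ∀ x ∈ q', x ∈ q := fun x hx => by rw [b1]; exact List.mem_append_left _ hx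
  have hβc : β ∈ c2 := by rw [hl]; exact List.mem_cons_self
  obtain ⟨e1, e2⟩ := G1_stem a1 hcq a5
  obtain ⟨-, e4⟩ := G1_stem b1 hcp b5
  have hcyc : cyc p q = β :: (p'.reverse ++ q') := by
    unfold cyc
    rw [e1, e2, e4]
  have hβp' : β ∉ p' := fun h => a5 β h (hcq β hβc)
  have hβq' : β ∉ q' := fun h => b5 β h (hcp β hβc)
  have hne : ¬ (p' = [] ∧ q' = []) := by
    rintro ⟨h1, h2⟩
    rw [h1, List.nil_append] at a1
    rw [h2, List.nil_append] at b1
    rw [a1, b1] at he
    exact hG.irr _ he
  have hpn := G1_nodup hG hN (hF.ap p hp)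
  have hqn := G1_nodup hG hN (hF.ap q hq)
  have hp'n : p'.Nodup := by rw [a1] at hpn; exact (List.nodup_append.1 hpn).1
  have hq'n : q'.Nodup := by rw [b1] at hqn; exact (List.nodup_append.1 hqn).1
  rw [e1]
  have hC : Cy V E (cyc p q) := by
    rw [hcyc]
    refine ⟨?_, ?_, ?_, ?_, ?_⟩
    · refine List.nodup_cons.2 ⟨?_, ?_⟩
      · intro h
        rcases List.mem_append.1 h with h | h
        · exact hβp' (List.mem_reverse.1 h)
        · exact hβq' h
      · refine List.nodup_append.2 ⟨List.nodup_reverse.2 hp'n, hq'n, ?_⟩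
        rintro x hx y hy rfl
        exact a5 x (List.mem_reverse.1 hx) (hq'q x hy)
    · intro x hx
      rcases List.mem_cons.1 hx with hx | hx
      · rw [hx]
        exact G1_sub hG hN (hF.ap _ a2) β hβc
      rcases List.mem_append.1 hx with hx | hx
      · exact G1_sub hG hN (hF.ap p hp) x (hp'p x (List.mem_reverse.1 hx))
      · exact G1_sub hG hN (hF.ap q hq) x (hq'q x hx)
    · simp only [List.length_cons, List.length_append, List.length_reverse]
      by_contra hcon
      apply hne
      constructor
      · apply List.length_eq_zero_iff.1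
        omega
      · apply List.length_eq_zero_iff.1
        omega
    · simp only [List.length_cons, List.length_append, List.length_reverse]
      omega
    · have h1 : (β :: (p'.reverse ++ q')) ++ [(β :: (p'.reverse ++ q')).headD 0]
          = (p' ++ [β]).reverse ++ (q' ++ [β]) := by
        simp
      rw [h1]
      have hpc := G1_chain hG hN (hF.ap p hp)
      have hqc := G1_chain hG hN (hF.ap q hq)
      have e5 : p = (p' ++ [β]) ++ l := by
        rw [List.append_assoc]
        change p = p' ++ (β :: l)
        rw [← hl]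
        exact a1
      have e6 : q = (q' ++ [β]) ++ l := by
        rw [List.append_assoc]
        change q = q' ++ (β :: l)
        rw [← hl]
        exact b1
      have h2 : List.IsChain (fun u v => (u, v) ∈ E) (p' ++ [β]) := by
        rw [e5] at hpc
        exact (List.isChain_append.1 hpc).1
      have h3 : List.IsChain (fun u v => (u, v) ∈ E) (q' ++ [β]) := by
        rw [e6] at hqc
        exact (List.isChain_append.1 hqc).1
      refine List.isChain_append.2 ⟨?_, h3, ?_⟩
      · rw [List.isChain_reverse]
        exact h2.imp fun u v h => hG.symm u v h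
      · intro x hx y hy
        rw [List.getLast?_reverse] at hx
        have h4 : p.headD 0 = x := by
          rw [e5]
          cases hp0 : (p' ++ [β]) with
          | nil => simp at hp0
          | cons z w =>
            rw [hp0] at hx
            simpa using hx
        have h5 : q.headD 0 = y := by
          rw [e6]
          cases hq0 : (q' ++ [β]) with
          | nil => simp at hq0
          | cons z w =>
            rw [hq0] at hy
            simpa using hy
        rw [← h4, ← h5]
        exact he
  have hcap : AP E M a (β :: l) := by rw [← hl]; exact hF.ap _ a2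
  have hbc : b ∉ (β :: l) := by rw [← hl]; exact hF.nb _ a2
  have hnear : Near V E (sw E M c2) β b := by
    rw [hl]
    exact sw_near hG hN hcap hbc
  refine ⟨hC, ?_, ?_, ?_⟩
  · rw [hcyc]
    exact hnear
  · intro u v huv hu
    rw [hcyc] at hu ⊢
    rcases List.mem_cons.1 hu with hu | hu
    · rw [hu] at huv
      exact absurd huv (hnear.ea v)
    rcases List.mem_append.1 hu with hu | hu
    · have hu' := List.mem_reverse.1 hu
      have h1 : u ∉ (β :: l) := by
        rw [← hl]
        exact fun h => a5 u hu' (hcq u h)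
      rw [hl, sw_off hG hN hcap h1] at huv
      exact List.mem_cons_of_mem _ (List.mem_append_left _ (List.mem_reverse.2 (a6 u hu' v huv)))
    · have h1 : u ∉ (β :: l) := by
        rw [← hl]
        exact fun h => b5 u hu (hcp u h)
      rw [hl, sw_off hG hN hcap h1] at huv
      exact List.mem_cons_of_mem _ (List.mem_append_right _ (b6 u hu v huv))
  · rw [hcyc]
    intro h
    rcases List.mem_cons.1 h with h | h
    · rw [h] at hbc
      exact hbc List.mem_cons_self
    rcases List.mem_append.1 h with h | h
    · exact hF.nb p hp (hp'p b (List.mem_reverse.1 h))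
    · exact hF.nb q hq (hq'q b h)

end Pool.Agent.EDM
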