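import Pool.Agent.EDM.G0

/-! **[EDM-G2]** The contracted graph. -/

namespace Pool.Agent.EDM

/-
PROOF. Write `β = C.headD 0`, `C = β :: C.tail` (`C` is not empty). `rel C β v = β` for `v ∈ C`, `= v` otherwise.
`v ∈ ctrV C V ↔ v ∈ V ∧ v ∉ C.tail`; `rel C β v ∈ ctrV C V` for `v ∈ V`. `(u, v) ∈ ctrE C E ↔ u ≠ v ∧ ∃ (x, y) ∈ E`,
`rel C β x = u`, `rel C β y = v`. Near: pairs of `ctrM` are pairs `(u, v)` of `M` with `u ∉ C`, hence `v ∉ C` (otherwise
`(v, u) ∈ M` and `int`), `rel` fixes both, `u ≠ v` (`Gr.irr`). `β` and `b` are exposed in `ctrM`. A vertex `v ∈ ctrV C V`,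
`v ≠ β`, is not in `C`, so its `M`-pair is in `ctrM`. Length: `C.tail` has a member, it is in `V` and is removed
(`List.length_filter_lt_length_iff_exists` or similar).
-/
private theorem G2_mem_ctrV (C V : List ℕ) (v : ℕ) : v ∈ ctrV C V ↔ v ∈ V ∧ v ∉ C.tail := by
  unfold ctrV
  rw [List.mem_filter, Bool.not_eq_true', memN_false]

private theorem G2_rel_in (C : List ℕ) (c v : ℕ) (h : v ∈ C) : rel C c v = c := by
  unfold rel
  rw [(memN_iff C v).2 h]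
  rfl

private theorem G2_rel_out (C : List ℕ) (c v : ℕ) (h : v ∉ C) : rel C c v = v := by
  unfold rel
  rw [(memN_false C v).2 h]
  rfl

private theorem G2_mem_ctrE (C : List ℕ) (E : List Ed) (u v : ℕ) :
    (u, v) ∈ ctrE C E ↔ u ≠ v ∧ ∃ x y, (x, y) ∈ E ∧ rel C (C.headD 0) x = u ∧
      rel C (C.headD 0) y = v := by
  unfold ctrE
  rw [List.mem_filter, List.mem_map]
  simp only [Bool.not_eq_true', decide_eq_false_iff_not]
  constructor
  · rintro ⟨⟨⟨x, y⟩, h1, h2⟩, h3⟩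
    exact ⟨h3, x, y, h1, congrArg Prod.fst h2, congrArg Prod.snd h2⟩
  · rintro ⟨h3, x, y, h1, h2, h4⟩
    exact ⟨⟨(x, y), h1, by rw [h2, h4]⟩, h3⟩

private theorem G2_cons {V : List ℕ} {E : List Ed} {C : List ℕ} (hC : Cy V E C) :
    ∃ l, C = C.headD 0 :: l := by
  cases C with
  | nil => exact absurd hC.three (by simp)
  | cons x l => exact ⟨l, rfl⟩

private theorem G2_head_mem {V : List ℕ} {E : List Ed} {C : List ℕ} (hC : Cy V E C) :
    C.headD 0 ∈ C := by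
  obtain ⟨l, hl⟩ := G2_cons hC
  rw [hl]
  exact List.mem_cons_self

private theorem G2_head_not {V : List ℕ} {E : List Ed} {C : List ℕ} (hC : Cy V E C) :
    C.headD 0 ∉ C.tail := by
  obtain ⟨l, hl⟩ := G2_cons hC
  have h1 := hC.nd
  rw [hl] at h1 ⊢
  exact (List.nodup_cons.1 h1).1

private theorem G2_mem_of {V : List ℕ} {E : List Ed} {C : List ℕ} (hC : Cy V E C) {v : ℕ}
    (h1 : v ≠ C.headD 0) (h2 : v ∉ C.tail) : v ∉ C := by
  obtain ⟨l, hl⟩ := G2_cons hC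
  rw [hl] at h2 ⊢
  intro h3
  rcases List.mem_cons.1 h3 with h4 | h4
  · exact h1 h4
  · exact h2 h4

private theorem G2_head_ctrV {V : List ℕ} {E : List Ed} {C : List ℕ} (hC : Cy V E C) :
    C.headD 0 ∈ ctrV C V :=
  (G2_mem_ctrV C V _).2 ⟨hC.sub _ (G2_head_mem hC), G2_head_not hC⟩

theorem ctr_gr {V : List ℕ} {E : List Ed} {C : List ℕ} (hG : Gr V E) (hC : Cy V E C) :
    Gr (ctrV C V) (ctrE C E) := by
  refine ⟨?_, ?_, ?_⟩
  · intro u v h
    obtain ⟨h1, x, y, h2, h3, h4⟩ := (G2_mem_ctrE C E u v).1 h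
    exact (G2_mem_ctrE C E v u).2 ⟨fun h5 => h1 h5.symm, y, x, hG.symm x y h2, h4, h3⟩
  · intro u h
    exact ((G2_mem_ctrE C E u u).1 h).1 rfl
  · intro u v h
    obtain ⟨-, x, y, h2, h3, -⟩ := (G2_mem_ctrE C E u v).1 h
    by_cases hx : x ∈ C
    · rw [← h3, G2_rel_in C _ x hx]
      exact G2_head_ctrV hC
    · rw [← h3, G2_rel_out C _ x hx]
      exact (G2_mem_ctrV C V x).2 ⟨hG.mem x y h2, fun h4 => hx (List.mem_of_mem_tail h4)⟩

theorem ctr_near {V : List ℕ} {E M : List Ed} {b : ℕ} {C : List ℕ} (hG : Gr V E)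
    (hB : Bl V E M b C) :
    Near (ctrV C V) (ctrE C E) (ctrM C M) (C.headD 0) b := by
  have hC := hB.cy
  have hmem : ∀ u v, (u, v) ∈ ctrM C M ↔ (u, v) ∈ M ∧ u ∉ C := by
    intro u v
    unfold ctrM
    rw [List.mem_filter, Bool.not_eq_true', memN_false]
  have hv : ∀ u v, (u, v) ∈ ctrM C M → v ∉ C := by
    intro u v h hvC
    obtain ⟨h1, h2⟩ := (hmem u v).1 h
    exact h2 (hB.int v u (hB.near.mt.symm u v h1) hvC)
  refine ⟨⟨?_, ?_, ?_⟩, G2_head_ctrV hC, ?_, hB.near.ne, ?_, ?_, ?_⟩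
  · intro u v h
    obtain ⟨h1, h2⟩ := (hmem u v).1 h
    have h3 := hB.near.mt.sub u v h1
    refine (G2_mem_ctrE C E u v).2 ⟨?_, u, v, h3, G2_rel_out C _ u h2,
      G2_rel_out C _ v (hv u v h)⟩
    rintro rfl
    exact hG.irr u h3
  · intro u v h
    exact (hmem v u).2 ⟨hB.near.mt.symm u v ((hmem u v).1 h).1, hv u v h⟩
  · intro u v w h h'
    exact hB.near.mt.func u v w ((hmem u v).1 h).1 ((hmem u w).1 h').1
  · exact (G2_mem_ctrV C V b).2 ⟨hB.near.bv, fun h => hB.nb (List.mem_of_mem_tail h)⟩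
  · intro w h
    exact ((hmem _ w).1 h).2 (G2_head_mem hC)
  · intro w h
    exact hB.near.eb w ((hmem b w).1 h).1
  · intro v hv1 hv2 hv3
    obtain ⟨h1, h2⟩ := (G2_mem_ctrV C V v).1 hv1
    obtain ⟨w, hw⟩ := hB.near.cov v h1 hv2 hv3
    exact ⟨w, (hmem v w).2 ⟨hw, G2_mem_of hC hv2 h2⟩⟩

theorem ctr_len {V : List ℕ} {E : List Ed} {C : List ℕ} (hC : Cy V E C) :
    (ctrV C V).length < V.length := by
  unfold ctrV
  rw [List.length_filter_lt_length_iff_exists]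
  have h3 := hC.three
  rcases C with _ | ⟨x, _ | ⟨y, l⟩⟩
  · simp at h3
  · simp at h3
  · refine ⟨y, hC.sub y (by simp), ?_⟩
    simp

end Pool.Agent.EDM
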