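import Pool.Agent.EDM.G0

/-! **[EDM-G3]** Lifting a perfect matching of the contracted graph. -/

namespace Pool.Agent.EDM

private theorem G3_rel_mem {C : List ℕ} {c v : ℕ} (h : v ∈ C) : rel C c v = c := by
  unfold rel
  rw [(memN_iff C v).2 h]
  rfl

private theorem G3_rel_not {C : List ℕ} {c v : ℕ} (h : v ∉ C) : rel C c v = v := by
  unfold rel
  rw [(memN_false C v).2 h]
  rfl

private theorem G3_ctrE {C : List ℕ} {E : List Ed} {x y : ℕ} (h : (x, y) ∈ ctrE C E) :
    x ≠ y ∧ ∃ x' y', (x', y') ∈ E ∧ rel C (C.headD 0) x' = x ∧ rel C (C.headD 0) y' = y := by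
  unfold ctrE at h
  rw [List.mem_filter] at h
  obtain ⟨h1, h2⟩ := h
  obtain ⟨e, he, h3⟩ := List.mem_map.1 h1
  simp only [Bool.not_eq_true', decide_eq_false_iff_not] at h2
  simp only [Prod.mk.injEq] at h3
  exact ⟨h2, e.1, e.2, he, h3.1, h3.2⟩

private theorem G3_ctrV (C V : List ℕ) (v : ℕ) : v ∈ ctrV C V ↔ v ∈ V ∧ v ∉ C.tail := by
  unfold ctrV
  rw [List.mem_filter, Bool.not_eq_true', memN_false]

/-- an end of an edge of the contracted graph which is not the base -/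
private theorem G3_off {C : List ℕ} {x x' : ℕ} (_ : C.headD 0 ∈ C) (h : rel C (C.headD 0) x' = x)
    (hx : x ≠ C.headD 0) : x' = x ∧ x ∉ C := by
  by_cases h1 : x' ∈ C
  · rw [G3_rel_mem h1] at h
    exact absurd h.symm hx
  · rw [G3_rel_not h1] at h
    exact ⟨h, h ▸ h1⟩

private theorem G3_on {C : List ℕ} {x' : ℕ} (hb : C.headD 0 ∈ C) (h : rel C (C.headD 0) x' = C.headD 0) :
    x' ∈ C := by
  by_cases h1 : x' ∈ C
  · exact h1
  · rw [G3_rel_not h1] at h
    rw [h]
    exact hb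

/-
PROOF. Write `β = C.headD 0`. `β ∈ ctrV C V`, so `(β, w) ∈ N` for some `w`, `mate N β = w`; `w ≠ β`, `(β, w) ∈ ctrE C E`, so there is
`(x, y) ∈ E` with `rel x = β`, `rel y = w`: `x ∈ C` (or `x = β`), `y ∉ C`, `y = w`. So the filtered list in `liftN` is not empty
and `v` (its first element) is in `C` with `(v, w) ∈ E`; `w ∉ C`. Write `C = l₁ ++ v :: l₂` with `v ∉ l₁` (`List.append_of_mem`,
`Nodup`): `rotTo v C = v :: l₂ ++ l₁` (`rotTo_eq`), its tail `r = l₂ ++ l₁` has even length, is `Nodup`, has the members of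
`C` except `v`, and is a chain: from `Cy.chain` (`l₁ ++ v :: l₂ ++ [β]`): if `l₁ = []` then `r = l₂`; if `l₁ = β :: l₁'`, then
`l₂ ++ [β]` and `β :: l₁'` are chains, so `l₂ ++ β :: l₁'` is (`List.isChain_split`). The pairs of `N` with both ends `≠ β` are
pairs of `E` with both ends outside `C` (ends of pairs of `ctrE` which are `≠ β` are not in `C`: they are `rel x` of some `x`).
Use `mem_pairs`, `pairsR_*`. The union of `(v, w), (w, v)`, the pairs of `N` off `β`, and `pairs r` is contained in `E`,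
symmetric, functional (the three parts have disjoint supports: `{v, w}`; the vertices outside `C` except `w`; the members of
`r`), and covers `V`.
-/
theorem lift_ok {V : List ℕ} {E : List Ed} {C : List ℕ} {N : List Ed} (hG : Gr V E)
    (hC : Cy V E C) (hN : PM (ctrV C V) (ctrE C E) N) : PM V E (liftN C E N) := by
  obtain ⟨β, C', hCC⟩ : ∃ β C', C = β :: C' := by
    cases C with
    | nil =>
      have := hC.three
      simp at this
    | cons β C' => exact ⟨β, C', rfl⟩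
  have hβ : C.headD 0 = β := by rw [hCC]; rfl
  have hβC : C.headD 0 ∈ C := by rw [hβ, hCC]; exact List.mem_cons_self
  have hβC' : β ∈ C := by rw [hCC]; exact List.mem_cons_self
  have hβV : β ∈ ctrV C V := by
    rw [G3_ctrV]
    refine ⟨hC.sub _ hβC', ?_⟩
    have h1 := hC.nd
    rw [hCC] at h1 ⊢
    exact (List.nodup_cons.1 h1).1
  obtain ⟨w, hw⟩ := hN.cov β hβV
  have hmate : mate N (C.headD 0) = w := by
    rw [hβ]
    exact mate_eq hN.mt hw
  obtain ⟨hne, x₀, y₀, hxy, hx₀, hy₀⟩ := G3_ctrE (hN.mt.sub _ _ hw)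
  have hwβ : w ≠ C.headD 0 := by rw [hβ]; exact hne.symm
  obtain ⟨hyw, hwC⟩ := G3_off hβC hy₀ hwβ
  have hx₀C : x₀ ∈ C := G3_on hβC (by rw [hx₀, hβ])
  rw [hyw] at hxy
  -- the vertex `v`
  obtain ⟨v, L, hvL⟩ : ∃ v L, (C.filter fun v => memE E (v, w)) = v :: L := by
    cases h : C.filter fun v => memE E (v, w) with
    | nil =>
      have h1 : x₀ ∈ C.filter fun v => memE E (v, w) := List.mem_filter.2 ⟨hx₀C, (memE_iff _ _).2 hxy⟩
      rw [h] at h1
      exact absurd h1 List.not_mem_nil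
    | cons v L => exact ⟨v, L, rfl⟩
  have hv : v ∈ C.filter fun v => memE E (v, w) := by
    rw [hvL]
    exact List.mem_cons_self
  rw [List.mem_filter, memE_iff] at hv
  obtain ⟨hvC, hvw⟩ := hv
  have hvw' : v ≠ w := fun h => hwC (h ▸ hvC)
  obtain ⟨l₁, l₂, hC12⟩ := List.append_of_mem hvC
  have hnd := hC.nd
  rw [hC12, List.nodup_append] at hnd
  obtain ⟨hnd1, hnd2, hdis⟩ := hnd
  have hvl1 : v ∉ l₁ := fun h => hdis v h v List.mem_cons_self rfl
  have hvl2 : v ∉ l₂ := (List.nodup_cons.1 hnd2).1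
  have hrot : (rotTo v C).tail = l₂ ++ l₁ := by
    rw [hC12, rotTo_eq v l₁ l₂ hvl1]
    rfl
  set r := l₂ ++ l₁ with hr
  have hrmem : ∀ x, x ∈ r ↔ x ∈ C ∧ x ≠ v := by
    intro x
    rw [hr, hC12, List.mem_append, List.mem_append, List.mem_cons]
    constructor
    · rintro (h | h)
      · exact ⟨Or.inr (Or.inr h), fun e => hvl2 (e ▸ h)⟩
      · exact ⟨Or.inl h, fun e => hvl1 (e ▸ h)⟩
    · rintro ⟨h | h | h, h'⟩
      · exact Or.inr h
      · exact absurd h h'
      · exact Or.inl h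
  have hrnd : r.Nodup := by
    rw [hr, List.nodup_append]
    refine ⟨(List.nodup_cons.1 hnd2).2, hnd1, ?_⟩
    intro a ha b hb hab
    exact hdis b hb a (List.mem_cons_of_mem _ ha) hab.symm
  have hrlen : r.length % 2 = 0 := by
    have h1 := hC.odd
    rw [hC12, List.length_append, List.length_cons] at h1
    rw [hr, List.length_append]
    omega
  have hrch : List.IsChain (fun u v => (u, v) ∈ E) r := by
    have h1 := hC.chain
    rw [hβ] at h1
    cases h2 : l₁ with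
    | nil =>
      rw [hC12, h2, List.nil_append] at h1
      rw [hr, h2, List.append_nil]
      exact (h1.left_of_append).tail
    | cons b l₁' =>
      have h3 : b = β := by
        have h4 := hC12
        rw [h2, hCC] at h4
        simp only [List.cons_append, List.cons.injEq] at h4
        exact h4.1.symm
      rw [hC12, h2, h3, List.append_assoc] at h1
      rw [hr, h2, h3]
      refine List.isChain_split.2 ⟨?_, h1.left_of_append⟩
      exact (h1.right_of_append).tail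
  -- membership in the lifted matching
  have hmem : ∀ x y, (x, y) ∈ liftN C E N ↔ (x, y) ∈ E ∧ ((x = v ∧ y = w) ∨ (x = w ∧ y = v) ∨
      ((x, y) ∈ N ∧ x ≠ β ∧ y ≠ β) ∨ (x, y) ∈ pairsR r) := by
    intro x y
    unfold liftN
    simp only [hmate, hvL, List.headD_cons, hrot]
    rw [List.mem_filter, memE_iff, List.mem_cons, List.mem_cons, List.mem_append, mem_pairs, List.mem_filter]
    simp only [Prod.mk.injEq, Bool.and_eq_true, Bool.not_eq_true', decide_eq_false_iff_not, hβ]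
  have hNoff : ∀ x y, (x, y) ∈ N → x ≠ β → y ≠ β → (x, y) ∈ E ∧ x ∉ C ∧ y ∉ C ∧ x ≠ w := by
    intro x y h hx hy
    obtain ⟨-, x', y', h1, h2, h3⟩ := G3_ctrE (hN.mt.sub _ _ h)
    obtain ⟨e1, e2⟩ := G3_off hβC h2 (by rw [hβ]; exact hx)
    obtain ⟨e3, e4⟩ := G3_off hβC h3 (by rw [hβ]; exact hy)
    rw [e1, e3] at h1
    refine ⟨h1, e2, e4, ?_⟩
    rintro rfl
    exact hy (hN.mt.func _ _ _ h (hN.mt.symm _ _ hw))
  have hPr : ∀ x y, (x, y) ∈ pairsR r → x ∈ C ∧ x ≠ v := fun x y h => (hrmem x).1 (pairsR_mem r x y h).1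
  refine ⟨⟨?_, ?_, ?_⟩, ?_⟩
  · intro x y h
    exact ((hmem x y).1 h).1
  · intro x y h
    rw [hmem] at h ⊢
    refine ⟨hG.symm _ _ h.1, ?_⟩
    rcases h.2 with h | h | h | h
    · exact Or.inr (Or.inl ⟨h.2, h.1⟩)
    · exact Or.inl ⟨h.2, h.1⟩
    · exact Or.inr (Or.inr (Or.inl ⟨hN.mt.symm _ _ h.1, h.2.2, h.2.1⟩))
    · exact Or.inr (Or.inr (Or.inr (pairsR_symm r x y h)))
  · intro x y z h h'
    have k1 := ((hmem x y).1 h).2
    have k2 := ((hmem x z).1 h').2
    rcases k1 with k1 | k1 | k1 | k1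
    · rcases k2 with k2 | k2 | k2 | k2
      · rw [k1.2, k2.2]
      · exact absurd (k1.1.symm.trans k2.1) hvw'
      · have h3 := (hNoff _ _ k2.1 k2.2.1 k2.2.2).2.1
        rw [k1.1] at h3
        exact absurd hvC h3
      · exact absurd k1.1 (hPr _ _ k2).2
    · rcases k2 with k2 | k2 | k2 | k2
      · exact absurd (k2.1.symm.trans k1.1) hvw'
      · rw [k1.2, k2.2]
      · exact absurd k1.1 (hNoff _ _ k2.1 k2.2.1 k2.2.2).2.2.2
      · have h3 := (hPr _ _ k2).1
        rw [k1.1] at h3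
        exact absurd h3 hwC
    · have h3 := hNoff _ _ k1.1 k1.2.1 k1.2.2
      rcases k2 with k2 | k2 | k2 | k2
      · rw [k2.1] at h3
        exact absurd hvC h3.2.1
      · exact absurd k2.1 h3.2.2.2
      · exact hN.mt.func _ _ _ k1.1 k2.1
      · exact absurd (hPr _ _ k2).1 h3.2.1
    · have h3 := hPr _ _ k1
      rcases k2 with k2 | k2 | k2 | k2
      · exact absurd k2.1 h3.2
      · have h4 := h3.1
        rw [k2.1] at h4
        exact absurd h4 hwC
      · exact absurd h3.1 (hNoff _ _ k2.1 k2.2.1 k2.2.2).2.1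
      · exact pairsR_func r hrnd _ _ _ k1 k2
  · intro x hx
    by_cases hxC : x ∈ C
    · by_cases hxv : x = v
      · exact ⟨w, (hmem _ _).2 ⟨hxv ▸ hvw, Or.inl ⟨hxv, rfl⟩⟩⟩
      · obtain ⟨y, hy⟩ := pairsR_cov r hrlen x ((hrmem x).2 ⟨hxC, hxv⟩)
        exact ⟨y, (hmem _ _).2 ⟨pairsR_sub hG.symm r hrch x y hy, Or.inr (Or.inr (Or.inr hy))⟩⟩
    · by_cases hxw : x = w
      · exact ⟨v, (hmem _ _).2 ⟨hxw ▸ hG.symm _ _ hvw, Or.inr (Or.inl ⟨hxw, rfl⟩)⟩⟩
      · have hxV : x ∈ ctrV C V := (G3_ctrV _ _ _).2 ⟨hx, fun h => hxC (List.mem_of_mem_tail h)⟩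
        obtain ⟨y, hy⟩ := hN.cov x hxV
        have hxβ : x ≠ β := fun e => hxC (e ▸ hβC')
        have hyβ : y ≠ β := by
          rintro rfl
          exact hxw (hN.mt.func _ _ _ (hN.mt.symm _ _ hy) hw)
        exact ⟨y, (hmem _ _).2 ⟨(hNoff x y hy hxβ hyβ).1, Or.inr (Or.inr (Or.inl ⟨hy, hxβ, hyβ⟩))⟩⟩

end Pool.Agent.EDM
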