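import Pool.Agent.EDM.G0

/-! **[EDM-G4]** If the graph has a perfect matching, then the contracted graph has one. -/

namespace Pool.Agent.EDM

/-- the general lemma: a perfect matching `N` of `S ∪ B` and a matching `M` of `S` exposing `a`
give a matching of `S` exposing a neighbour of `B` -/
theorem ctr_aux (A : ℕ → ℕ → Prop) (hs : ∀ u v, A u v → A v u) (hi : ∀ u, ¬ A u u)
    (B : Finset ℕ) (M N : ℕ → ℕ) : ∀ (n : ℕ) (S : Finset ℕ) (a : ℕ), S.card = n → Disjoint S B →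
    a ∈ S →
    (∀ x ∈ S, x ≠ a → M x ∈ S ∧ M x ≠ a ∧ M (M x) = x ∧ A x (M x)) →
    (∀ x, x ∈ S ∨ x ∈ B → (N x ∈ S ∨ N x ∈ B) ∧ N (N x) = x ∧ A x (N x)) →
    ∃ x₀ ∈ S, (∃ β ∈ B, A x₀ β) ∧ ∃ P : ℕ → ℕ,
      ∀ y ∈ S, y ≠ x₀ → P y ∈ S ∧ P y ≠ x₀ ∧ P (P y) = y ∧ A y (P y) := by
  intro n
  induction n using Nat.strong_induction_on with
  | _ n ih =>
    intro S a hn hd ha hM hN
    obtain ⟨hf1, hf2, hf3⟩ := hN a (Or.inl ha)
    by_cases hfB : N a ∈ B
    · exact ⟨a, ha, ⟨N a, hfB, hf3⟩, M, hM⟩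
    have hfS : N a ∈ S := hf1.resolve_right hfB
    have hfa : N a ≠ a := by
      intro h
      rw [h] at hf3
      exact hi a hf3
    have haB : a ∉ B := Finset.disjoint_left.mp hd ha
    obtain ⟨he1, he2, he3, he4⟩ := hM (N a) hfS hfa
    have hef : M (N a) ≠ N a := by
      intro h
      rw [h] at he4
      exact hi _ he4
    have hS' : ∀ x, x ∈ (S.erase a).erase (N a) ↔ x ∈ S ∧ x ≠ a ∧ x ≠ N a := by
      intro x
      simp only [Finset.mem_erase]
      tauto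
    have hcard : ((S.erase a).erase (N a)).card < n := by
      have h1 : ((S.erase a).erase (N a)).card ≤ (S.erase a).card := Finset.card_erase_le
      have h2 : (S.erase a).card < S.card := Finset.card_erase_lt_of_mem ha
      omega
    obtain ⟨x₀, hx₀, hβ, P, hP⟩ := ih _ hcard ((S.erase a).erase (N a)) (M (N a)) rfl
      (by
        rw [Finset.disjoint_left] at hd ⊢
        intro x hx
        exact hd ((hS' x).mp hx).1)
      ((hS' _).mpr ⟨he1, he2, hef⟩)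
      (by
        intro x hx hxe
        obtain ⟨hx1, hx2, hx3⟩ := (hS' x).mp hx
        obtain ⟨h1, h2, h3, h4⟩ := hM x hx1 hx2
        refine ⟨(hS' _).mpr ⟨h1, h2, ?_⟩, ?_, h3, h4⟩
        · intro h
          apply hxe
          rw [← h3, h]
        · intro h
          apply hx3
          rw [← h3, h, he3])
      (by
        intro x hx
        have hxx : x ∈ S ∨ x ∈ B := by
          rcases hx with hx | hx
          · exact Or.inl ((hS' x).mp hx).1
          · exact Or.inr hx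
        obtain ⟨h1, h2, h3⟩ := hN x hxx
        have hna : N x ≠ a := by
          intro h
          rw [h] at h2
          rcases hx with hx | hx
          · exact ((hS' x).mp hx).2.2 h2.symm
          · rw [h2] at hfB
            exact hfB hx
        have hnf : N x ≠ N a := by
          intro h
          rw [h, hf2] at h2
          rcases hx with hx | hx
          · exact ((hS' x).mp hx).2.1 h2.symm
          · rw [h2] at haB
            exact haB hx
        refine ⟨?_, h2, h3⟩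
        rcases h1 with h1 | h1
        · exact Or.inl ((hS' _).mpr ⟨h1, hna, hnf⟩)
        · exact Or.inr h1)
    obtain ⟨hx1, hx2, hx3⟩ := (hS' x₀).mp hx₀
    refine ⟨x₀, hx1, hβ, fun y => if y = a then N a else if y = N a then a else P y, ?_⟩
    intro y hy hyx
    by_cases hya : y = a
    · subst hya
      simp only [if_true, if_neg hfa]
      exact ⟨hfS, hx3.symm, trivial, hf3⟩
    by_cases hyf : y = N a
    · simp only [hyf, if_neg hfa, if_true]
      exact ⟨ha, hx2.symm, trivial, hs _ _ hf3⟩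
    · obtain ⟨h1, h2, h3, h4⟩ := hP y ((hS' y).mpr ⟨hy, hya, hyf⟩) hyx
      obtain ⟨k1, k2, k3⟩ := (hS' _).mp h1
      simp only [if_neg hya, if_neg hyf, if_neg k2, if_neg k3]
      exact ⟨k1, h2, h3, h4⟩

theorem ctr_pm {V : List ℕ} {E M : List Ed} {b : ℕ} {C : List ℕ} {N : List Ed} (hG : Gr V E)
    (hB : Bl V E M b C) (hN : PM V E N) : ∃ N', PM (ctrV C V) (ctrE C E) N' := by
  obtain ⟨β, C', rfl⟩ : ∃ β C', C = β :: C' := by
    cases C with
    | nil => exact absurd hB.cy.three (by simp)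
    | cons β C' => exact ⟨β, C', rfl⟩
  have hβC : β ∈ β :: C' := List.mem_cons_self
  have hmem2 : ∀ u v, (u, v) ∈ E → v ∈ V := fun u v h => hG.mem v u (hG.symm u v h)
  have hmemS : ∀ x, x ∈ V.toFinset.filter (fun v => v ∉ β :: C') ↔ x ∈ V ∧ x ∉ β :: C' := by
    intro x
    rw [Finset.mem_filter, List.mem_toFinset]
  have hmemB : ∀ x, x ∈ V.toFinset.filter (fun v => v ∈ β :: C') ↔ x ∈ V ∧ x ∈ β :: C' := by
    intro x
    rw [Finset.mem_filter, List.mem_toFinset]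
  obtain ⟨x₀, hx₀, ⟨β', hβ', hA⟩, P, hP⟩ := ctr_aux (fun u v => (u, v) ∈ E) hG.symm hG.irr
    (V.toFinset.filter (fun v => v ∈ β :: C')) (mate M) (mate N) _
    (V.toFinset.filter (fun v => v ∉ β :: C')) b rfl
    (by
      rw [Finset.disjoint_left]
      intro x hx hx'
      exact ((hmemS x).mp hx).2 ((hmemB x).mp hx').2)
    ((hmemS b).mpr ⟨hB.near.bv, hB.nb⟩)
    (by
      intro x hx hxb
      obtain ⟨hxV, hxC⟩ := (hmemS x).mp hx
      obtain ⟨w, hw⟩ := hB.near.cov x hxV (by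
        intro h
        apply hxC
        rw [h]
        exact hβC) hxb
      rw [mate_eq hB.near.mt hw]
      have hw' := hB.near.mt.symm _ _ hw
      refine ⟨(hmemS w).mpr ⟨hmem2 _ _ (hB.near.mt.sub _ _ hw), ?_⟩, ?_, mate_eq hB.near.mt hw',
        hB.near.mt.sub _ _ hw⟩
      · intro hwC
        exact hxC (hB.int _ _ hw' hwC)
      · intro h
        rw [h] at hw'
        exact hB.near.eb _ hw')
    (by
      intro x hx
      have hxV : x ∈ V := by
        rcases hx with hx | hx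
        · exact ((hmemS x).mp hx).1
        · exact ((hmemB x).mp hx).1
      obtain ⟨w, hw⟩ := hN.cov x hxV
      rw [mate_eq hN.mt hw]
      have hwE := hN.mt.sub _ _ hw
      refine ⟨?_, mate_eq hN.mt (hN.mt.symm _ _ hw), hwE⟩
      by_cases hwC : w ∈ β :: C'
      · exact Or.inr ((hmemB w).mpr ⟨hmem2 _ _ hwE, hwC⟩)
      · exact Or.inl ((hmemS w).mpr ⟨hmem2 _ _ hwE, hwC⟩))
  obtain ⟨hx₀V, hx₀C⟩ := (hmemS x₀).mp hx₀
  obtain ⟨hβ'V, hβ'C⟩ := (hmemB β').mp hβ'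
  have hP' : ∀ y, y ∈ V → y ∉ β :: C' → y ≠ x₀ → (P y ∈ V ∧ P y ∉ β :: C') ∧ P y ≠ x₀ ∧
      P (P y) = y ∧ (y, P y) ∈ E := by
    intro y h1 h2 h3
    obtain ⟨k1, k2, k3, k4⟩ := hP y ((hmemS y).mpr ⟨h1, h2⟩) h3
    exact ⟨(hmemS _).mp k1, k2, k3, k4⟩
  have hx₀β : x₀ ≠ β := by
    intro h
    apply hx₀C
    rw [h]
    exact hβC
  have hrel : ∀ v, v ∉ β :: C' → rel (β :: C') β v = v := by
    intro v hv
    rw [rel, (memN_false _ _).mpr hv]
    rfl
  have hrel' : ∀ v, v ∈ β :: C' → rel (β :: C') β v = β := by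
    intro v hv
    rw [rel, (memN_iff _ _).mpr hv]
    rfl
  have hctr : ∀ u v, (u, v) ∈ ctrE (β :: C') E ↔ ∃ u' v', (u', v') ∈ E ∧
      rel (β :: C') β u' = u ∧ rel (β :: C') β v' = v ∧ u ≠ v := by
    intro u v
    simp only [ctrE, List.headD_cons, List.mem_filter, List.mem_map, Prod.exists, Prod.mk.injEq,
      Bool.not_eq_true', decide_eq_false_iff_not]
    constructor
    · rintro ⟨⟨u', v', h1, h2, h3⟩, h4⟩
      exact ⟨u', v', h1, h2, h3, h4⟩
    · rintro ⟨u', v', h1, h2, h3, h4⟩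
      exact ⟨⟨u', v', h1, h2, h3⟩, h4⟩
  let L : List Ed := (x₀, β) :: (β, x₀) ::
    (V.filter fun v => !memN (β :: C') v && !decide (v = x₀)).map fun y => (y, P y)
  have hL : ∀ u v, (u, v) ∈ L ↔ (u = x₀ ∧ v = β) ∨ (u = β ∧ v = x₀) ∨
      (u ∈ V ∧ u ∉ β :: C' ∧ u ≠ x₀ ∧ v = P u) := by
    intro u v
    simp only [L, List.mem_cons, Prod.mk.injEq, List.mem_map, List.mem_filter,
      Bool.and_eq_true, Bool.not_eq_true', decide_eq_false_iff_not, memN_false]
    constructor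
    · rintro (h | h | ⟨y, ⟨h1, h2, h3⟩, h4, h5⟩)
      · exact Or.inl h
      · exact Or.inr (Or.inl h)
      · subst h4
        exact Or.inr (Or.inr ⟨h1, h2, h3, h5.symm⟩)
    · rintro (h | h | ⟨h1, h2, h3, h4⟩)
      · exact Or.inl h
      · exact Or.inr (Or.inl h)
      · exact Or.inr (Or.inr ⟨u, ⟨h1, h2, h3⟩, rfl, h4.symm⟩)
  refine ⟨L, ⟨⟨?_, ?_, ?_⟩, ?_⟩⟩
  · intro u v h
    rcases (hL u v).mp h with ⟨h1, h2⟩ | ⟨h1, h2⟩ | ⟨h1, h2, h3, h4⟩
    · subst h1 h2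
      exact (hctr _ _).mpr ⟨u, β', hA, hrel _ hx₀C, hrel' _ hβ'C, hx₀β⟩
    · subst h1 h2
      exact (hctr _ _).mpr ⟨β', v, hG.symm _ _ hA, hrel' _ hβ'C, hrel _ hx₀C, hx₀β.symm⟩
    · subst h4
      obtain ⟨⟨k1, k2⟩, k3, k4, k5⟩ := hP' u h1 h2 h3
      refine (hctr _ _).mpr ⟨u, P u, k5, hrel _ h2, hrel _ k2, ?_⟩
      intro h6
      rw [← h6] at k5
      exact hG.irr _ k5
  · intro u v h
    rcases (hL u v).mp h with ⟨h1, h2⟩ | ⟨h1, h2⟩ | ⟨h1, h2, h3, h4⟩
    · exact (hL v u).mpr (Or.inr (Or.inl ⟨h2, h1⟩))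
    · exact (hL v u).mpr (Or.inl ⟨h2, h1⟩)
    · subst h4
      obtain ⟨⟨k1, k2⟩, k3, k4, k5⟩ := hP' u h1 h2 h3
      exact (hL _ u).mpr (Or.inr (Or.inr ⟨k1, k2, k3, k4.symm⟩))
  · intro u v w h h'
    rcases (hL u v).mp h with ⟨h1, h2⟩ | ⟨h1, h2⟩ | ⟨h1, h2, h3, h4⟩ <;>
    rcases (hL u w).mp h' with ⟨g1, g2⟩ | ⟨g1, g2⟩ | ⟨g1, g2, g3, g4⟩
    · rw [h2, g2]
    · exact absurd (h1.symm.trans g1) hx₀β
    · exact absurd h1 g3
    · exact absurd (g1.symm.trans h1) hx₀β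
    · rw [h2, g2]
    · exact absurd (h1 ▸ hβC) g2
    · exact absurd g1 h3
    · exact absurd (g1 ▸ hβC) h2
    · rw [h4, g4]
  · intro v hv
    have hv' : v ∈ V ∧ v ∉ C' := by
      simp only [ctrV, List.tail_cons, List.mem_filter, Bool.not_eq_true', memN_false] at hv
      exact hv
    by_cases h1 : v = β
    · exact ⟨x₀, (hL _ _).mpr (Or.inr (Or.inl ⟨h1, rfl⟩))⟩
    by_cases h2 : v = x₀
    · exact ⟨β, (hL _ _).mpr (Or.inl ⟨h2, rfl⟩)⟩
    · refine ⟨P v, (hL _ _).mpr (Or.inr (Or.inr ⟨hv'.1, ?_, h2, rfl⟩))⟩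
      intro h3
      rcases List.mem_cons.mp h3 with h3 | h3
      · exact h1 h3
      · exact hv'.2 h3

end Pool.Agent.EDM
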