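import Pool.Agent.EDM.Defs
import Pool.Agent.Lib.helper60.PTLib

/-! **[EDM-P3]** Polynomial time: linear recursion. -/

namespace Pool.Agent.EDM

open Pool.Agent.Lib.helper60

variable {ι X R : Type} [DEnc ι] [DEnc X] [DEnc R]

/-- one step of the first phase -/
private def P3_step (c : X → Bool) (nx : X → X) (s : X × List X) : X × List X :=
  bif c s.1 then (nx s.1, s.1 :: s.2) else s

omit [DEnc ι] [DEnc X] [DEnc R] in
private theorem P3_inv (c : X → Bool) (nx : X → X) (x : X) (i : ℕ) :
    (∃ j, j ≤ i ∧ ((P3_step c nx)^[i] (x, [])).1 = nx^[j] x) ∧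
      ((P3_step c nx)^[i] (x, [])).2.length ≤ i ∧
      ∀ y ∈ ((P3_step c nx)^[i] (x, [])).2, ∃ j, j ≤ i ∧ y = nx^[j] x := by
  induction i with
  | zero => exact ⟨⟨0, le_rfl, rfl⟩, by simp, by simp⟩
  | succ i ih =>
    obtain ⟨⟨j, hj, h1⟩, h2, h3⟩ := ih
    rw [Function.iterate_succ_apply']
    generalize (P3_step c nx)^[i] (x, []) = s at h1 h2 h3
    cases hc : c s.1 with
    | false =>
      have e : P3_step c nx s = s := by simp [P3_step, hc]
      rw [e]
      refine ⟨⟨j, by omega, h1⟩, by omega, ?_⟩
      intro y hy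
      obtain ⟨j', hj', h⟩ := h3 y hy
      exact ⟨j', by omega, h⟩
    | true =>
      have e : P3_step c nx s = (nx s.1, s.1 :: s.2) := by simp [P3_step, hc]
      rw [e]
      refine ⟨⟨j + 1, by omega, ?_⟩, by simp only [List.length_cons]; omega, ?_⟩
      · rw [Function.iterate_succ_apply', ← h1]
      · intro y hy
        rcases List.mem_cons.1 hy with hy | hy
        · exact ⟨j, by omega, hy.trans h1⟩
        · obtain ⟨j', hj', h⟩ := h3 y hy
          exact ⟨j', by omega, h⟩

omit [DEnc ι] [DEnc X] [DEnc R] in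
private theorem P3_fix (c : X → Bool) (nx : X → X) (bs : X → R) (lf : X → R → R) (k : ℕ) (x : X)
    (h : c x = false) : lrec c nx bs lf k x = bs x := by
  cases k with
  | zero => rfl
  | succ k => simp [lrec, h]

omit [DEnc ι] [DEnc X] [DEnc R] in
private theorem P3_main (c : X → Bool) (nx : X → X) (bs : X → R) (lf : X → R → R) (k : ℕ) :
    ∀ (x : X) (st : List X),
      ((P3_step c nx)^[k] (x, st)).2.foldl (fun r y => lf y r)
        (bs ((P3_step c nx)^[k] (x, st)).1) =
      st.foldl (fun r y => lf y r) (lrec c nx bs lf k x) := by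
  induction k with
  | zero => intro x st; rfl
  | succ k ih =>
    intro x st
    rw [Function.iterate_succ_apply]
    cases hc : c x with
    | false =>
      have e : P3_step c nx (x, st) = (x, st) := by simp [P3_step, hc]
      rw [e, ih x st, P3_fix c nx bs lf k x hc, P3_fix c nx bs lf (k + 1) x hc]
    | true =>
      have e : P3_step c nx (x, st) = (nx x, x :: st) := by simp [P3_step, hc]
      rw [e, ih (nx x) (x :: st), List.foldl_cons]
      have e2 : lrec c nx bs lf (k + 1) x = lf x (lrec c nx bs lf k (nx x)) := by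
        simp [lrec, hc]
      rw [e2]

/-
PROOF. Phase 1: `PT.iterateNat` of the step `(x, st) ↦ bif c x then (nx x, x :: st) else (x, st)` on `X × List X` from
`(x0, [])`, `k` times; the `i`-th iterate is `(nx^[j] x0, [nx^[j-1] x0, ..., x0])` for some `j ≤ i`, so its size is
polynomially bounded (`hb`, `tsize_le_of_forall`). Phase 2: `PT.foldl` over the stack with `g (·, r, y) = lf y r` from
`bs` of the last state; every value after the first step is `lf y r` with `y` in the stack, so its size is at most
`tsize y + K` (`hlf'`), the first one is `bs ..` (`PT.size` of `bs`). The result is `lrec c nx bs lf k x0`: by induction on `k`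
for all `x` and stacks `st`: with `(x', st')` the `k`-th iterate from `(x, st)`,
`st'.foldl (fun r y => lf y r) (bs x') = st.foldl (fun r y => lf y r) (lrec c nx bs lf k x)`.
-/
theorem pt_lrec {c : X → Bool} {nx : X → X} {bs : X → R} {lf : X → R → R} {k : ι → ℕ} {x0 : ι → X}
    (hc : PT c) (hnx : PT nx) (hbs : PT bs) (hlf : PT (fun y : X × R => lf y.1 y.2)) (hk : PT k)
    (hx0 : PT x0)
    (hb : ∃ t : ι → ℕ, PB t ∧ ∀ i j, j ≤ k i → tsize (nx^[j] (x0 i)) ≤ t i)
    (K : ℕ) (hlf' : ∀ x r, tsize (lf x r) ≤ tsize x + K) :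
    PT (fun i => lrec c nx bs lf (k i) (x0 i)) := by
  obtain ⟨t, ht, hbt⟩ := hb
  have hkb : PB (fun i => k i) := hk.size.of_le fun i => by simp only [tsize_nat]; omega
  have hstep : PT (P3_step c nx) :=
    PT.cond (hc.comp PT.fst) (PT.pair (hnx.comp PT.fst) (PT.cons PT.fst PT.snd)) PT.id
  have hS : PT (fun i => (P3_step c nx)^[k i] (x0 i, ([] : List X))) := by
    refine PT.iterateNat (count := k) (init := fun i => (x0 i, ([] : List X))) hk
      (PT.pair hx0 (PT.const [])) hstep
      ⟨fun i => t i + (k i * (t i + 1) + 1) + 1,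
        ((ht.add ((hkb.mul (ht.add (PB.const 1))).add (PB.const 1))).add (PB.const 1)), ?_⟩
    intro i n hn
    obtain ⟨⟨j, hj, h1⟩, h2, h3⟩ := P3_inv c nx (x0 i) n
    generalize (P3_step c nx)^[n] (x0 i, []) = s at h1 h2 h3
    have h4 : tsize s.1 ≤ t i := by rw [h1]; exact hbt i j (by omega)
    have h5 : ∀ y ∈ s.2, tsize y ≤ t i := by
      intro y hy
      obtain ⟨j', hj', rfl⟩ := h3 y hy
      exact hbt i j' (by omega)
    have h6 := tsize_le_of_forall h5
    have h7 : s.2.length * (t i + 1) ≤ k i * (t i + 1) := Nat.mul_le_mul_right _ (by omega)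
    have h8 : tsize s = tsize s.1 + tsize s.2 + 1 := tsize_pair s.1 s.2
    beta_reduce
    omega
  have hF := PT.foldl (l := fun i => ((P3_step c nx)^[k i] (x0 i, ([] : List X))).2)
    (init := fun i => bs ((P3_step c nx)^[k i] (x0 i, ([] : List X))).1)
    (g := fun y : ι × R × X => lf y.2.2 y.2.1) (PT.p2 hS) (hbs.comp (PT.p1 hS))
    (hlf.comp (PT.pair (PT.snd.comp PT.snd) (PT.fst.comp PT.snd)))
    ⟨fun i => tsize (bs ((P3_step c nx)^[k i] (x0 i, ([] : List X))).1) +
        (tsize ((P3_step c nx)^[k i] (x0 i, ([] : List X))).2 + K),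
      (hbs.comp (PT.p1 hS)).size.add ((PT.p2 hS).size.add (PB.const K)), by
      intro i l₁ l₂ h
      beta_reduce
      rcases List.eq_nil_or_concat l₁ with rfl | ⟨u, b, rfl⟩
      · rw [List.foldl_nil]
        omega
      · rw [List.concat_eq_append, List.foldl_append, List.foldl_cons, List.foldl_nil]
        have hb : b ∈ ((P3_step c nx)^[k i] (x0 i, ([] : List X))).2 := by
          rw [← h]
          simp
        have h1 := tsize_mem_lt hb
        refine (hlf' b _).trans ?_
        omega⟩
  refine hF.congr fun i => ?_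
  exact P3_main c nx bs lf (k i) (x0 i) []

end Pool.Agent.EDM
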