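import Pool.Agent.EDM.P2
import Pool.Agent.EDM.P3

/-! **[EDM-P4]** Polynomial time: `aug` and `pm`. -/

namespace Pool.Agent.EDM

open Pool.Agent.Lib.helper60

private theorem P4_headD {β : Type} {P : β → Prop} {l : List β} {d : β} (hd : P d)
    (h : ∀ x ∈ l, P x) : P (l.headD d) := by
  cases l with
  | nil => exact hd
  | cons x l => exact h x List.mem_cons_self

private theorem P4_fst {m L : ℕ} {x : St} (h : Bd m L x) : ∀ p ∈ fst' x, ∀ v ∈ p, v ≤ m := by
  intro p hp
  exact ((bd_forest h x.1.length).2 p hp).2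

private theorem P4_hits {E : List Ed} {F : List (List ℕ)} {y : List ℕ × List ℕ}
    (h : y ∈ hits E F) : y.1 ∈ F ∧ y.2 ∈ F := by
  simp only [hits, List.mem_flatMap, List.mem_map, List.mem_filter] at h
  obtain ⟨p, hp, q, ⟨hq, _⟩, rfl⟩ := h
  exact ⟨hp, hq⟩

private theorem P4_hd {m L : ℕ} {x : St} (h : Bd m L x) :
    (∀ v ∈ ((hits x.2.1 (fst' x)).headD ([], [])).1, v ≤ m) ∧
      ∀ v ∈ ((hits x.2.1 (fst' x)).headD ([], [])).2, v ≤ m :=
  P4_headD (P := fun y : List ℕ × List ℕ => (∀ v ∈ y.1, v ≤ m) ∧ ∀ v ∈ y.2, v ≤ m)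
    ⟨by simp, by simp⟩
    (fun y hy => ⟨P4_fst h _ (P4_hits hy).1, P4_fst h _ (P4_hits hy).2⟩)

private theorem P4_cyc {m L : ℕ} {x : St} (h : Bd m L x) : (cycS x).headD 0 ≤ m := by
  have h1 := (P4_hd h).1
  change (stem _ _).headD 0 ≤ m
  exact P4_headD (P := fun v => v ≤ m) (Nat.zero_le _)
    (fun v hv => h1 v (List.mem_of_mem_filter hv))

private theorem P4_rel {m c v : ℕ} (C : List ℕ) (hc : c ≤ m) (hv : v ≤ m) : rel C c v ≤ m := by
  unfold rel
  cases memN C v with
  | false => exact hv
  | true => exact hc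

/- PROOF. `V`, `E`, `M` shrink in length (`ctrM` of `sw` is a part of `E`); the numbers in the new state are numbers of the
old one, or members of paths of the tree (`bd_forest`), or `0` (`headD`). The lists `p, q` of `hits` are members of the tree
(or `[]`). -/
theorem bd_next {m L : ℕ} {x : St} (h : Bd m L x) : Bd m L (next x) := by
  have hc := P4_cyc h
  constructor
  · intro v hv
    exact h.v v (List.mem_of_mem_filter hv)
  · intro e he
    obtain ⟨e', he', rfl⟩ := List.mem_map.1 (List.mem_of_mem_filter he)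
    have h2 := h.e e' he'
    exact ⟨P4_rel _ hc h2.1, P4_rel _ hc h2.2⟩
  · intro e he
    exact h.e e (List.mem_of_mem_filter (List.mem_of_mem_filter he))
  · exact hc
  · exact h.b
  · exact (List.length_filter_le _ _).trans h.lv
  · refine (List.length_filter_le _ _).trans ?_
    rw [List.length_map]
    exact h.le
  · exact (List.length_filter_le _ _).trans ((List.length_filter_le _ _).trans h.le)

private theorem P4_iter {m L : ℕ} {x : St} (h : Bd m L x) (j : ℕ) : Bd m L (next^[j] x) := by
  induction j with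
  | zero => exact h
  | succ j ih =>
    rw [Function.iterate_succ_apply']
    exact bd_next ih

private theorem P4_tsize_filter {β : Type} [DEnc β] (p : β → Bool) (l : List β) :
    tsize (l.filter p) ≤ tsize l := by
  induction l with
  | nil => exact le_rfl
  | cons x l ih =>
    rw [List.filter_cons]
    split
    · simp only [tsize_cons]
      omega
    · simp only [tsize_cons]
      omega

private theorem P4_lift (x : St) (r : Bool × List Ed) : tsize (liftS x r) ≤ tsize x + 5 := by
  obtain ⟨V, E, M, a, b⟩ := x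
  obtain ⟨r1, r2⟩ := r
  have h0 := tsize_pos V
  cases r1 with
  | false =>
    change tsize (false, ([] : List Ed)) ≤ _
    have h1 := tsize_bool_le false
    simp only [tsize_pair, tsize_nil]
    omega
  | true =>
    change tsize (true, liftN (cycS (V, E, M, a, b)) E r2) ≤ _
    have h1 := tsize_bool_le true
    have h2 : tsize (liftN (cycS (V, E, M, a, b)) E r2) ≤ tsize E := P4_tsize_filter _ _
    simp only [tsize_pair]
    omega

/- PROOF. `pt_lrec` with `k x = x.1.length`, bound `bd_self`, `bd_next`, `bd_size`; `liftS` returns a part of `E` or `[]`. -/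
theorem pt_aug : PT aug := by
  refine pt_lrec (ι := St) (k := fun x => x.1.length) (x0 := fun x => x) pt_isRec pt_next pt_base
    pt_liftS (PT.length PT.fst) PT.id
    ⟨fun x => 3 * (tsize x * (4 * tsize x + 4) + 1) + 4 * tsize x + 6, ?_, ?_⟩ 5 P4_lift
  · exact (((PB.const 3).mul ((PB.tsize.mul (((PB.const 4).mul PB.tsize).add (PB.const 4))).add
      (PB.const 1))).add ((PB.const 4).mul PB.tsize)).add (PB.const 6)
  · intro x j _
    exact bd_size (P4_iter (bd_self x) j)

private theorem P4_base {m L : ℕ} {x : St} (h : Bd m L x) :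
    (base x).2.length ≤ L + 2 ∧ ∀ e ∈ (base x).2, e.1 ≤ m ∧ e.2 ≤ m := by
  unfold base
  split
  · exact ⟨by simp, by simp⟩
  · rename_i p l hp
    have hp1 : p ∈ fst' x := by
      have : p ∈ good x.2.1 x.2.2.2.2 (fst' x) := by rw [hp]; exact List.mem_cons_self
      exact List.mem_of_mem_filter this
    have hp2 : p.headD 0 ≤ m := P4_headD (P := fun v => v ≤ m) (Nat.zero_le _) (P4_fst h p hp1)
    have h1 : (sw x.2.1 x.2.2.1 p).length ≤ L := (List.length_filter_le _ _).trans h.le
    constructor
    · simp only [List.length_cons]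
      omega
    · intro e he
      rcases List.mem_cons.1 he with rfl | he
      · exact ⟨hp2, h.b⟩
      · rcases List.mem_cons.1 he with rfl | he
        · exact ⟨h.b, hp2⟩
        · exact h.e e (List.mem_of_mem_filter he)

private theorem P4_lrec {m L : ℕ} (k : ℕ) : ∀ {x : St}, Bd m L x →
    (lrec isRec next base liftS k x).2.length ≤ L + 2 ∧
      ∀ e ∈ (lrec isRec next base liftS k x).2, e.1 ≤ m ∧ e.2 ≤ m := by
  cases k with
  | zero => intro x h; exact P4_base h
  | succ k =>
    intro x h
    cases hc : isRec x with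
    | false =>
      have e : lrec isRec next base liftS (k + 1) x = base x := by simp [lrec, hc]
      rw [e]
      exact P4_base h
    | true =>
      have e : lrec isRec next base liftS (k + 1) x =
          liftS x (lrec isRec next base liftS k (next x)) := by simp [lrec, hc]
      rw [e]
      generalize lrec isRec next base liftS k (next x) = r
      obtain ⟨r1, r2⟩ := r
      cases r1 with
      | false => exact ⟨by simp [liftS], by simp [liftS]⟩
      | true =>
        constructor
        · exact (List.length_filter_le _ _).trans (h.le.trans (by omega))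
        · intro e he
          exact h.e e (List.mem_of_mem_filter he)

/- PROOF. `aug` returns `(false, [])`, or `liftN ..`, a part of `E`, or `base`. For the bound: the second component of
`base x` has at most `x.2.1.length + 2` pairs of numbers `≤ m`. -/
theorem bd_aug {m L : ℕ} {x : St} (h : Bd m L x) :
    (aug x).2.length ≤ L + 2 ∧ ∀ e ∈ (aug x).2, e.1 ≤ m ∧ e.2 ≤ m :=
  P4_lrec _ h

/-! ### halving -/

private def P4_half (s : ℕ × Bool) : ℕ × Bool := bif s.2 then (s.1 + 1, false) else (s.1, true)

private theorem P4_half_it (i : ℕ) : P4_half^[i] (0, false) = (i / 2, decide (i % 2 = 1)) := by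
  induction i with
  | zero => rfl
  | succ i ih =>
    rw [Function.iterate_succ_apply', ih]
    rcases Nat.mod_two_eq_zero_or_one i with h | h
    · have h1 : (i + 1) / 2 = i / 2 := by omega
      have h2 : (i + 1) % 2 = 1 := by omega
      simp [P4_half, h, h1, h2]
    · have h1 : (i + 1) / 2 = i / 2 + 1 := by omega
      have h2 : (i + 1) % 2 = 0 := by omega
      simp [P4_half, h, h1, h2]

private theorem P4_pt_half {ι : Type} [DEnc ι] {n : ι → ℕ} (hn : PT n) :
    PT (fun x => (n x / 2, decide (n x % 2 = 1))) := by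
  have hs : PT P4_half :=
    PT.cond PT.snd (PT.pair (PT.nsucc PT.fst) (PT.const false)) (PT.pair PT.fst (PT.const true))
  have h := PT.iterateNat (count := n) (init := fun _ => ((0 : ℕ), false)) hn (PT.const _) hs
    ⟨fun x => tsize (n x) + 3 + 1, (hn.size.add (PB.const 3)).add (PB.const 1), by
      intro x i hi
      rw [P4_half_it]
      have h1 := tsize_bool_le (decide (i % 2 = 1))
      simp only [tsize_pair, tsize_nat]
      omega⟩
  exact h.congr fun x => P4_half_it (n x)

private theorem P4_pt_div {ι : Type} [DEnc ι] {n : ι → ℕ} (hn : PT n) :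
    PT (fun x => n x / 2) := PT.p1 (P4_pt_half hn)

private theorem P4_pt_even {ι : Type} [DEnc ι] {n : ι → ℕ} (hn : PT n) :
    PT (fun x => decide (n x % 2 = 0)) := by
  refine (PT.bnot (PT.p2 (P4_pt_half hn))).congr fun x => ?_
  rcases Nat.mod_two_eq_zero_or_one (n x) with h | h
  · simp [h]
  · simp [h]

private theorem P4_pt_dbl {ι : Type} [DEnc ι] {n : ι → ℕ} (hn : PT n) :
    PT (fun x => 2 * n x) := PT.nmul (PT.const 2) hn

/-! ### the pieces of `pm` -/

private theorem P4_pt_full : PT (fun x : ℕ × List Ed => full x.1 x.2) := by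
  have hr : PT (fun x : (ℕ × List Ed) × ℕ => List.range (2 * x.1.1)) :=
    PT.range (P4_pt_dbl (PT.fst.comp PT.fst))
  -- `((n, E), u), v`
  have hp : PT (fun y : ((ℕ × List Ed) × ℕ) × ℕ => !decide (y.1.2 = y.2) &&
      ((decide (y.1.1.1 ≤ y.1.2) || decide (y.1.1.1 ≤ y.2)) ||
        (memE y.1.1.2 (y.1.2, y.2) || memE y.1.1.2 (y.2, y.1.2)))) := by
    have hu : PT (fun y : ((ℕ × List Ed) × ℕ) × ℕ => y.1.2) := PT.p2 PT.fst
    have hv : PT (fun y : ((ℕ × List Ed) × ℕ) × ℕ => y.2) := PT.snd
    have hn : PT (fun y : ((ℕ × List Ed) × ℕ) × ℕ => y.1.1.1) := PT.p1 (PT.p1 PT.fst)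
    have hE : PT (fun y : ((ℕ × List Ed) × ℕ) × ℕ => y.1.1.2) := PT.p2 (PT.p1 PT.fst)
    exact PT.band (PT.bnot (PT.neq hu hv)) (PT.bor (PT.bor (PT.nle hn hu) (PT.nle hn hv))
      (PT.bor (pt_memE hE (PT.pair hu hv)) (pt_memE hE (PT.pair hv hu))))
  have hm : PT (fun y : ((ℕ × List Ed) × ℕ) × ℕ => (y.1.2, y.2)) :=
    PT.pair (PT.p2 PT.fst) PT.snd
  exact PT.flatMap (l := fun x : ℕ × List Ed => List.range (2 * x.1))
    (PT.range (P4_pt_dbl PT.fst)) (PT.map (PT.filter hr hp) hm)

private theorem P4_pt_triv : PT triv := by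
  have hg : PT (fun y : ℕ × ℕ => [(y.2, y.1 + y.2), (y.1 + y.2, y.2)]) :=
    PT.cons (PT.pair PT.snd (PT.nadd PT.fst PT.snd))
      (PT.cons (PT.pair (PT.nadd PT.fst PT.snd) PT.snd) (PT.const []))
  exact PT.flatMap (l := fun n : ℕ => List.range n) (PT.range PT.id) hg

private theorem P4_pt_hE {ι : Type} [DEnc ι] {m : ι → ℕ} {E : ι → List Ed} (hm : PT m)
    (h : PT E) : PT (fun x => hE (m x) (E x)) := by
  have hp : PT (fun y : ι × Ed => decide (y.2.1 < m y.1) && decide (y.2.2 < m y.1)) :=
    PT.band (PT.nlt (PT.p1 PT.snd) (hm.comp PT.fst)) (PT.nlt (PT.p2 PT.snd) (hm.comp PT.fst))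
  exact PT.filter h hp

private theorem P4_pt_hstep :
    PT (fun y : List Ed × Bool × ℕ × List Ed => hstep y.1 y.2) := by
  have hEE : PT (fun y : List Ed × Bool × ℕ × List Ed => y.1) := PT.fst
  have hs : PT (fun y : List Ed × Bool × ℕ × List Ed => y.2) := PT.snd
  have hb : PT (fun y : List Ed × Bool × ℕ × List Ed => y.2.1) := PT.p1 PT.snd
  have hm : PT (fun y : List Ed × Bool × ℕ × List Ed => y.2.2.1) := PT.p1 (PT.p2 PT.snd)
  have hM : PT (fun y : List Ed × Bool × ℕ × List Ed => y.2.2.2) := PT.p2 (PT.p2 PT.snd)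
  have hm2 : PT (fun y : List Ed × Bool × ℕ × List Ed => y.2.2.1 - 2) :=
    PT.nsub hm (PT.const 2)
  have hr : PT (fun y : List Ed × Bool × ℕ × List Ed =>
      aug (hV y.2.2.1, hE y.2.2.1 y.1, hE y.2.2.1 y.2.2.2, mate y.2.2.2 (y.2.2.1 + 1),
        mate y.2.2.2 y.2.2.1)) :=
    pt_aug.comp (PT.pair (PT.range hm) (PT.pair (P4_pt_hE hm hEE) (PT.pair (P4_pt_hE hm hM)
      (PT.pair (pt_mate hM (PT.nsucc hm)) (pt_mate hM hm)))))
  exact PT.cond hb (PT.cond (pt_memE hM (PT.pair (PT.nsucc hm) hm))
    (PT.pair (PT.const true) (PT.pair hm2 (P4_pt_hE hm hM)))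
    (PT.pair (PT.p1 hr) (PT.pair hm2 (PT.p2 hr)))) hs

private theorem P4_mate {M : List Ed} {v m : ℕ} (h : ∀ e ∈ M, e.1 ≤ m ∧ e.2 ≤ m) :
    mate M v ≤ m := by
  unfold mate
  refine P4_headD (P := fun v => v ≤ m) (Nat.zero_le _) ?_
  intro w hw
  obtain ⟨e, he, rfl⟩ := List.mem_map.1 hw
  exact (h e (List.mem_of_mem_filter he)).2

/-- bounds for the state of `pm` -/
private def P4_Inv (n L : ℕ) (s : Bool × ℕ × List Ed) : Prop :=
  s.2.1 ≤ 2 * n ∧ s.2.2.length ≤ L ∧ ∀ e ∈ s.2.2, e.1 ≤ 2 * n ∧ e.2 ≤ 2 * n

private theorem P4_inv_step {n L : ℕ} {EE : List Ed} {s : Bool × ℕ × List Ed}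
    (hEE : EE.length ≤ L) (hn : 2 * n ≤ L) (h : P4_Inv n L s) : P4_Inv n (L + 2) (hstep EE s) := by
  obtain ⟨s1, m, M⟩ := s
  obtain ⟨h1, h2, h3⟩ := h
  dsimp only at h1 h2 h3
  cases s1 with
  | false => exact ⟨h1, h2.trans (by omega), h3⟩
  | true =>
    cases hc : memE M (m + 1, m) with
    | true =>
      have e : hstep EE (true, m, M) = (true, m - 2, hE m M) := by simp [hstep, hc]
      rw [e]
      refine ⟨by dsimp only; omega, ?_, ?_⟩
      · exact (List.length_filter_le _ _).trans (h2.trans (by omega))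
      · intro e he
        exact h3 e (List.mem_of_mem_filter he)
    | false =>
      have e : hstep EE (true, m, M) =
          ((aug (hV m, hE m EE, hE m M, mate M (m + 1), mate M m)).1, m - 2,
            (aug (hV m, hE m EE, hE m M, mate M (m + 1), mate M m)).2) := by
        simp [hstep, hc]
      rw [e]
      have hB : Bd (2 * n) L (hV m, hE m EE, hE m M, mate M (m + 1), mate M m) := by
        constructor
        · intro v hv
          have := List.mem_range.1 hv
          omega
        · intro e he
          have he := (List.mem_filter.1 he).2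
          simp only [Bool.and_eq_true, decide_eq_true_eq] at he
          omega
        · intro e he
          exact h3 e (List.mem_of_mem_filter he)
        · exact P4_mate h3
        · exact P4_mate h3
        · change (List.range m).length ≤ L
          rw [List.length_range]
          omega
        · exact (List.length_filter_le _ _).trans hEE
        · exact (List.length_filter_le _ _).trans h2
      have hA := bd_aug hB
      exact ⟨by dsimp only; omega, hA.1, hA.2⟩

private theorem P4_inv_iter {n L : ℕ} {EE : List Ed} (s : Bool × ℕ × List Ed)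
    (hEE : EE.length ≤ L) (hn : 2 * n ≤ L) (h : P4_Inv n L s) (i : ℕ) :
    P4_Inv n (L + 2 * i) ((hstep EE)^[i] s) := by
  induction i with
  | zero => exact h
  | succ i ih =>
    rw [Function.iterate_succ_apply']
    have := P4_inv_step (EE := EE) (by omega) (by omega) ih
    have e : L + 2 * i + 2 = L + 2 * (i + 1) := by ring
    rwa [e] at this

private theorem P4_triv_length (n : ℕ) : (triv n).length = 2 * n := by
  unfold triv
  rw [List.length_flatMap]
  simp
  omega

private theorem P4_pair_it (EE : List Ed) (s : Bool × ℕ × List Ed) (i : ℕ) :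
    (fun y : List Ed × Bool × ℕ × List Ed => (y.1, hstep y.1 y.2))^[i] (EE, s) =
      (EE, (hstep EE)^[i] s) := by
  induction i with
  | zero => rfl
  | succ i ih => rw [Function.iterate_succ_apply', Function.iterate_succ_apply', ih]

/- PROOF. `PT.iterateNat` for the state `(full n E, s)`; bound: `s.2.1 ≤ 2 * n`, the third component has at most
`4 * n ^ 2 + 2 * n + 2` pairs of numbers `< 2 * n + 1` (`bd_aug`; `hE` shrinks; `(full n E).length ≤ (2 * n) ^ 2`). -/
theorem pt_pm : PT (fun x : ℕ × List Ed => pm x.1 x.2) := by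
  have hn : PT (fun x : ℕ × List Ed => x.1) := PT.fst
  have hnb : PB (fun x : ℕ × List Ed => x.1) := hn.size.of_le fun i => by
    simp only [tsize_nat]; omega
  have hfull := P4_pt_full
  have hF : PB (fun x : ℕ × List Ed => tsize (full x.1 x.2)) := hfull.size
  -- bound for the length of the third component
  have hL : PB (fun x : ℕ × List Ed => tsize (full x.1 x.2) + 2 * x.1 + 2 * x.1) :=
    (hF.add ((PB.const 2).mul hnb)).add ((PB.const 2).mul hnb)
  have hinit : PT (fun x : ℕ × List Ed => (full x.1 x.2, true, 2 * x.1 - 2, triv x.1)) :=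
    PT.pair hfull (PT.pair (PT.const true) (PT.pair (PT.nsub (P4_pt_dbl hn) (PT.const 2))
      (P4_pt_triv.comp hn)))
  have hstp : PT (fun y : List Ed × Bool × ℕ × List Ed => (y.1, hstep y.1 y.2)) :=
    PT.pair PT.fst P4_pt_hstep
  have hit := PT.iterateNat (count := fun x : ℕ × List Ed => x.1 / 2)
    (init := fun x : ℕ × List Ed => (full x.1 x.2, true, 2 * x.1 - 2, triv x.1))
    (step := fun y : List Ed × Bool × ℕ × List Ed => (y.1, hstep y.1 y.2))
    (P4_pt_div hn) hinit hstp
    ⟨fun x => tsize (full x.1 x.2) + (3 + ((4 * x.1 + 1) +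
        ((tsize (full x.1 x.2) + 2 * x.1 + 2 * x.1) * (8 * x.1 + 3 + 1) + 1) + 1) + 1) + 1,
      (hF.add (((PB.const 3).add (((((PB.const 4).mul hnb).add (PB.const 1)).add
        ((hL.mul ((((PB.const 8).mul hnb).add (PB.const 3)).add (PB.const 1))).add
          (PB.const 1))).add (PB.const 1))).add (PB.const 1))).add (PB.const 1), by
      intro x i hi
      obtain ⟨n, E⟩ := x
      dsimp only at hi ⊢
      rw [P4_pair_it]
      have hlen : (full n E).length ≤ tsize (full n E) := (length_lt_tsize _).le
      have h0 : P4_Inv n (tsize (full n E) + 2 * n) (true, 2 * n - 2, triv n) := by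
        refine ⟨by dsimp only; omega, ?_, ?_⟩
        · dsimp only
          rw [P4_triv_length]
          omega
        · intro e he
          simp only [triv, List.mem_flatMap, List.mem_range] at he
          obtain ⟨a, ha, he⟩ := he
          simp only [List.mem_cons, List.not_mem_nil, or_false] at he
          rcases he with rfl | rfl
          · dsimp only; omega
          · dsimp only; omega
      have h1 := P4_inv_iter (EE := full n E) _ (by omega) (by omega) h0 i
      generalize (hstep (full n E))^[i] (true, 2 * n - 2, triv n) = s at h1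
      obtain ⟨b, m, M⟩ := s
      obtain ⟨h2, h3, h4⟩ := h1
      dsimp only at h2 h3 h4
      have h5 : ∀ e ∈ M, tsize e ≤ 8 * n + 3 := by
        intro e he
        obtain ⟨e1, e2⟩ := e
        have := h4 _ he
        simp only [tsize_pair, tsize_nat]
        dsimp only at this
        omega
      have h6 := tsize_le_of_forall h5
      have h7 : M.length ≤ tsize (full n E) + 2 * n + 2 * n := by omega
      have h8 : M.length * (8 * n + 3 + 1) ≤
          (tsize (full n E) + 2 * n + 2 * n) * (8 * n + 3 + 1) := Nat.mul_le_mul_right _ h7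
      have h9 := tsize_bool_le b
      simp only [tsize_pair, tsize_nat]
      omega⟩
  have hs : PT (fun x : ℕ × List Ed =>
      (hstep (full x.1 x.2))^[x.1 / 2] (true, 2 * x.1 - 2, triv x.1)) := by
    refine (PT.p2 hit).congr fun x => ?_
    rw [P4_pair_it]
  exact PT.cond (P4_pt_even hn) (PT.pair (PT.p1 hs) (PT.p2 (PT.p2 hs))) (PT.const (false, []))

end Pool.Agent.EDM
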