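import Pool.Agent.EDM.M2
import Pool.Agent.EDM.P4

/-!
# Perfect matchings in polynomial time: the interface for simple graphs

`pt_pm : PT (fun x : ℕ × List Ed => pm x.1 x.2)` (file `P4`) and `pm_graph`: if `φ` is a bijection of the vertices of `G`
onto `0, ..., n - 1` and `E` is a list of the edges, `(pm n E).1` decides whether `G` has a perfect matching, and then
`(pm n E).2` is the list of its edges (in both directions).
-/

set_option autoImplicit false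

namespace Pool.Agent.EDM

theorem gra_mem (n : ℕ) (E : List Ed) (u v : ℕ) :
    (u, v) ∈ hE n (full n E) ↔ u < n ∧ v < n ∧ u ≠ v ∧ ((u, v) ∈ E ∨ (v, u) ∈ E) := by
  simp only [hE, full, List.mem_filter, List.mem_flatMap, List.mem_range, List.mem_map, Bool.and_eq_true,
    Bool.or_eq_true, Bool.not_eq_true', decide_eq_true_eq, decide_eq_false_iff_not, memE_iff, Prod.mk.injEq]
  constructor
  · rintro ⟨⟨a, _, b, ⟨_, h3, h4⟩, rfl, rfl⟩, h1, h2⟩
    refine ⟨h1, h2, h3, ?_⟩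
    rcases h4 with (h4 | h4) | h4
    · omega
    · omega
    · exact h4
  · rintro ⟨h1, h2, h3, h4⟩
    exact ⟨⟨u, by omega, v, ⟨by omega, h3, Or.inr h4⟩, rfl, rfl⟩, h1, h2⟩

theorem pm_iff (n : ℕ) (E : List Ed) :
    (pm n E).1 = true ↔ ∃ N, PM (hV n) (hE n (full n E)) N := by
  constructor
  · intro h
    exact ⟨_, (pm_spec n E).1 h⟩
  · intro h
    by_contra h1
    exact (pm_spec n E).2 (by simpa using h1) h

section
variable {W : Type*} (G : SimpleGraph W) (n : ℕ) (φ : W → ℕ) (E : List Ed)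

/-- the list of pairs `N` is a perfect matching of `G` (via `φ`) -/
structure IsPMof (N : List Ed) : Prop where
  sub : ∀ u v : W, (φ u, φ v) ∈ N → G.Adj u v
  rng : ∀ i j : ℕ, (i, j) ∈ N → ∃ u v : W, φ u = i ∧ φ v = j
  symm : ∀ i j : ℕ, (i, j) ∈ N → (j, i) ∈ N
  ex : ∀ u : W, ∃! v : W, (φ u, φ v) ∈ N

variable {G n φ E}

theorem gra_pm (hφ : Function.Injective φ) (hr : ∀ w, φ w < n) (hs : ∀ i < n, ∃ w, φ w = i)
    (hE' : ∀ u v : W, G.Adj u v ↔ u ≠ v ∧ ((φ u, φ v) ∈ E ∨ (φ v, φ u) ∈ E)) (N : List Ed) :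
    PM (hV n) (hE n (full n E)) N ↔ IsPMof G φ N := by
  have hadj : ∀ u v : W, (φ u, φ v) ∈ hE n (full n E) ↔ G.Adj u v := by
    intro u v
    rw [gra_mem, hE']
    constructor
    · rintro ⟨_, _, h3, h4⟩
      exact ⟨fun h => h3 (by rw [h]), h4⟩
    · rintro ⟨h3, h4⟩
      exact ⟨hr u, hr v, fun h => h3 (hφ h), h4⟩
  constructor
  · intro h
    refine ⟨?_, ?_, h.mt.symm, ?_⟩
    · intro u v huv
      exact (hadj u v).1 (h.mt.sub _ _ huv)
    · intro i j hij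
      have h1 := (gra_mem n E i j).1 (h.mt.sub _ _ hij)
      obtain ⟨u, hu⟩ := hs i h1.1
      obtain ⟨v, hv⟩ := hs j h1.2.1
      exact ⟨u, v, hu, hv⟩
    · intro u
      obtain ⟨w, hw⟩ := h.cov (φ u) (List.mem_range.2 (hr u))
      have h1 := (gra_mem n E _ _).1 (h.mt.sub _ _ hw)
      obtain ⟨v, rfl⟩ := hs w h1.2.1
      refine ⟨v, hw, ?_⟩
      intro v' hv'
      exact hφ (h.mt.func _ _ _ hv' hw)
  · intro h
    refine ⟨⟨?_, h.symm, ?_⟩, ?_⟩
    · intro i j hij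
      obtain ⟨u, v, rfl, rfl⟩ := h.rng i j hij
      exact (hadj u v).2 (h.sub u v hij)
    · intro i j k hij hik
      obtain ⟨u, v, rfl, rfl⟩ := h.rng i j hij
      obtain ⟨u', v', h1, rfl⟩ := h.rng _ k hik
      obtain rfl := hφ h1
      rw [(h.ex u').unique hij hik]
    · intro i hi
      obtain ⟨u, rfl⟩ := hs i (List.mem_range.1 hi)
      obtain ⟨v, hv, _⟩ := h.ex u
      exact ⟨φ v, hv⟩

theorem isPMof_sub {N : List Ed} (h : IsPMof G φ N) : ∃ M : G.Subgraph, M.IsPerfectMatching ∧ ∀ u v, M.Adj u v ↔ (φ u, φ v) ∈ N := by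
  refine ⟨⟨Set.univ, fun u v => (φ u, φ v) ∈ N, fun {u v} huv => h.sub u v huv, fun _ => Set.mem_univ _,
    ⟨fun u v huv => h.symm _ _ huv⟩⟩, ?_, fun u v => Iff.rfl⟩
  rw [SimpleGraph.Subgraph.isPerfectMatching_iff]
  exact h.ex

theorem sub_isPMof [Finite W] (hφ : Function.Injective φ) {M : G.Subgraph} (hM : M.IsPerfectMatching) : ∃ N, IsPMof G φ N := by
  classical
  have := Fintype.ofFinite W
  rw [SimpleGraph.Subgraph.isPerfectMatching_iff] at hM
  obtain ⟨l, hl⟩ : ∃ l : List (W × W), ∀ u v, (u, v) ∈ l ↔ M.Adj u v :=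
    ⟨((Finset.univ : Finset (W × W)).filter fun p => M.Adj p.1 p.2).toList, fun u v => by simp⟩
  have key : ∀ u v : W, (φ u, φ v) ∈ l.map (fun p => (φ p.1, φ p.2)) ↔ M.Adj u v := by
    intro u v
    rw [List.mem_map]
    constructor
    · rintro ⟨p, hp, h⟩
      rw [Prod.mk.injEq] at h
      rw [← hφ h.1, ← hφ h.2]
      exact (hl _ _).1 hp
    · intro h
      exact ⟨(u, v), (hl _ _).2 h, rfl⟩
  refine ⟨l.map (fun p => (φ p.1, φ p.2)), ?_, ?_, ?_, ?_⟩
  · intro u v h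
    exact ((key u v).1 h).adj_sub
  · intro i j h
    rw [List.mem_map] at h
    obtain ⟨p, _, h⟩ := h
    rw [Prod.mk.injEq] at h
    exact ⟨p.1, p.2, h.1, h.2⟩
  · intro i j h
    have h' := h
    rw [List.mem_map] at h
    obtain ⟨p, _, h⟩ := h
    rw [Prod.mk.injEq] at h
    rw [← h.1, ← h.2] at h' ⊢
    rw [key] at h' ⊢
    exact h'.symm
  · intro u
    obtain ⟨v, hv, hv'⟩ := hM u
    exact ⟨v, (key u v).2 hv, fun w hw => hv' w ((key u w).1 hw)⟩

/-- `pm` decides whether `G` has a perfect matching -/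
theorem pm_graph (hφ : Function.Injective φ) (hr : ∀ w, φ w < n) (hs : ∀ i < n, ∃ w, φ w = i)
    (hE' : ∀ u v : W, G.Adj u v ↔ u ≠ v ∧ ((φ u, φ v) ∈ E ∨ (φ v, φ u) ∈ E)) :
    (pm n E).1 = true ↔ ∃ M : G.Subgraph, M.IsPerfectMatching := by
  have hfin : Finite W := Finite.of_injective (fun w => (⟨φ w, hr w⟩ : Fin n)) (fun a b h => hφ (congrArg Fin.val h))
  rw [pm_iff]
  constructor
  · rintro ⟨N, hN⟩
    obtain ⟨M, hM, _⟩ := isPMof_sub ((gra_pm hφ hr hs hE' N).1 hN)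
    exact ⟨M, hM⟩
  · rintro ⟨M, hM⟩
    obtain ⟨N, hN⟩ := sub_isPMof hφ hM
    exact ⟨N, (gra_pm hφ hr hs hE' N).2 hN⟩

/-- and computes one -/
theorem pm_graph_out (hφ : Function.Injective φ) (hr : ∀ w, φ w < n) (hs : ∀ i < n, ∃ w, φ w = i)
    (hE' : ∀ u v : W, G.Adj u v ↔ u ≠ v ∧ ((φ u, φ v) ∈ E ∨ (φ v, φ u) ∈ E)) (h : (pm n E).1 = true) :
    IsPMof G φ (pm n E).2 :=
  (gra_pm hφ hr hs hE' _).1 ((pm_spec n E).1 h)
end

end Pool.Agent.EDM
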