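import Pool.Agent.EDM.F2
import Pool.Agent.EDM.G1
import Pool.Agent.EDM.G2
import Pool.Agent.EDM.G3
import Pool.Agent.EDM.G4

/-! **[EDM-M1]** Correctness of the search from a matching which exposes two vertices. -/

namespace Pool.Agent.EDM

private theorem M1_aux (k : ℕ) : ∀ (V : List ℕ) (E M : List Ed) (a b : ℕ), Gr V E → Near V E M a b →
    V.length ≤ k →
    ((lrec isRec next base liftS k (V, E, M, a, b)).1 = true →
      PM V E (lrec isRec next base liftS k (V, E, M, a, b)).2) ∧
    ((lrec isRec next base liftS k (V, E, M, a, b)).1 = false → ¬ ∃ N, PM V E N) := by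
  induction k with
  | zero =>
    intro V E M a b _ hN hk
    have : V = [] := List.length_eq_zero_iff.1 (by omega)
    have h := hN.av
    rw [this] at h
    simp at h
  | succ k ih =>
    intro V E M a b hG hN hk
    obtain ⟨hF, hg⟩ := forest_ok hG hN
    have hfst : fst' (V, E, M, a, b) = forest V E M a b := rfl
    generalize hFF : forest V E M a b = F at hF hg hfst
    by_cases h1 : good E b F = []
    · by_cases h2 : hits E F = []
      · have h3 : isRec (V, E, M, a, b) = false := by
          simp only [isRec, hfst, h1, h2]
          rfl
        have h4 : base (V, E, M, a, b) = (false, []) := by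
          simp only [base, hfst, h1]
        have h5 : lrec isRec next base liftS (k + 1) (V, E, M, a, b) = (false, []) := by
          rw [lrec, h3, cond_false, h4]
        rw [h5]
        exact ⟨fun h => by simp at h, fun _ => no_pm hG hN hF hg h1 h2⟩
      · obtain ⟨⟨p, q⟩, l, hl⟩ := List.exists_cons_of_ne_nil h2
        have h3 : isRec (V, E, M, a, b) = true := by
          simp only [isRec, hfst, h1, hl]
          rfl
        have hmem : (p, q) ∈ hits E F := by rw [hl]; simp
        simp only [hits, List.mem_flatMap, List.mem_map, List.mem_filter, Prod.mk.injEq] at hmem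
        obtain ⟨p', hp, q', ⟨hq, he⟩, rfl, rfl⟩ := hmem
        rw [memE_iff] at he
        have hB := blossom hG hN hF hp hq he
        have hcyc : cycS (V, E, M, a, b) = cyc p' q' := by
          simp only [cycS, hfst, hl, List.headD_cons]
        have hstem : stemS (V, E, M, a, b) = stem p' q' := by
          simp only [stemS, hfst, hl, List.headD_cons]
        have hnext : next (V, E, M, a, b) = (ctrV (cyc p' q') V, ctrE (cyc p' q') E,
            ctrM (cyc p' q') (sw E M (stem p' q')), (cyc p' q').headD 0, b) := by
          simp only [next, hcyc, hstem]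
        have hlen := ctr_len hB.cy
        obtain ⟨i1, i2⟩ := ih _ _ _ _ _ (ctr_gr hG hB.cy) (ctr_near hG hB) (by omega)
        have h5 : lrec isRec next base liftS (k + 1) (V, E, M, a, b) =
            liftS (V, E, M, a, b) (lrec isRec next base liftS k (ctrV (cyc p' q') V,
              ctrE (cyc p' q') E, ctrM (cyc p' q') (sw E M (stem p' q')), (cyc p' q').headD 0, b)) := by
          rw [lrec, h3, cond_true, hnext]
        rw [h5]
        generalize lrec isRec next base liftS k (ctrV (cyc p' q') V, ctrE (cyc p' q') E,
          ctrM (cyc p' q') (sw E M (stem p' q')), (cyc p' q').headD 0, b) = r at i1 i2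
        obtain ⟨r1, r2⟩ := r
        cases r1 with
        | true =>
          have h6 : liftS (V, E, M, a, b) (true, r2) = (true, liftN (cyc p' q') E r2) := by
            simp only [liftS, hcyc, cond_true]
          rw [h6]
          exact ⟨fun _ => lift_ok hG hB.cy (i1 rfl), fun h => by simp at h⟩
        | false =>
          have h6 : liftS (V, E, M, a, b) (false, r2) = (false, []) := by
            simp only [liftS, cond_false]
          rw [h6]
          refine ⟨fun h => by simp at h, fun _ => ?_⟩
          rintro ⟨N, hNN⟩
          exact i2 rfl (ctr_pm hG hB hNN)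
    · obtain ⟨p, l, hl⟩ := List.exists_cons_of_ne_nil h1
      have h3 : isRec (V, E, M, a, b) = false := by
        simp only [isRec, hfst, hl]
        rfl
      have h4 : base (V, E, M, a, b) = (true, (p.headD 0, b) :: (b, p.headD 0) :: sw E M p) := by
        simp only [base, hfst, hl]
      have h5 : lrec isRec next base liftS (k + 1) (V, E, M, a, b) =
          (true, (p.headD 0, b) :: (b, p.headD 0) :: sw E M p) := by
        rw [lrec, h3, cond_false, h4]
      rw [h5]
      refine ⟨fun _ => ?_, fun h => by simp at h⟩
      have hmem : p ∈ good E b F := by rw [hl]; simp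
      simp only [good, List.mem_filter] at hmem
      obtain ⟨hp, he⟩ := hmem
      rw [memE_iff] at he
      have hap := hF.ap p hp
      have hb := hF.nb p hp
      cases p with
      | nil => cases hap
      | cons s p =>
        simp only [List.headD_cons] at he ⊢
        have hs := sw_near hG hN hap hb
        have hsb : s ≠ b := hs.ne
        refine ⟨⟨?_, ?_, ?_⟩, ?_⟩
        · intro u v h
          simp only [List.mem_cons, Prod.mk.injEq] at h
          rcases h with ⟨rfl, rfl⟩ | ⟨rfl, rfl⟩ | h
          · exact he
          · exact hG.symm _ _ he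
          · exact hs.mt.sub _ _ h
        · intro u v h
          simp only [List.mem_cons, Prod.mk.injEq] at h ⊢
          rcases h with ⟨rfl, rfl⟩ | ⟨rfl, rfl⟩ | h
          · exact Or.inr (Or.inl ⟨rfl, rfl⟩)
          · exact Or.inl ⟨rfl, rfl⟩
          · exact Or.inr (Or.inr (hs.mt.symm _ _ h))
        · intro u v w h h'
          simp only [List.mem_cons, Prod.mk.injEq] at h h'
          rcases h with ⟨rfl, rfl⟩ | ⟨rfl, rfl⟩ | h <;> rcases h' with ⟨h6, h7⟩ | ⟨h6, h7⟩ | h'
          · exact h7.symm
          · exact absurd h6 hsb
          · exact absurd h' (hs.ea _)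
          · exact absurd h6.symm hsb
          · exact h7.symm
          · exact absurd h' (hs.eb _)
          · rw [h6] at h
            exact absurd h (hs.ea _)
          · rw [h6] at h
            exact absurd h (hs.eb _)
          · exact hs.mt.func _ _ _ h h'
        · intro v hv
          by_cases h6 : v = s
          · exact ⟨b, by simp [h6]⟩
          · by_cases h7 : v = b
            · exact ⟨s, by simp [h7]⟩
            · obtain ⟨w, hw⟩ := hs.cov v hv h6 h7
              exact ⟨w, by simp [hw]⟩

/-
PROOF. For all `k` and all states `x = (V, E, M, a, b)` with `Gr V E`, `Near V E M a b`, `V.length ≤ k`, the statement holds for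
`lrec isRec next base liftS k x`: induction on `k`. With `F = fst' x`, `forest_ok`. If `good E b F = p :: _`: `base` returns
`(true, (s, b) :: (b, s) :: sw E M p)`, `s = p.headD 0`, `p = s :: _` is an `AP`, `b ∉ p`, `(s, b) ∈ E`: `sw_near` gives
`Near V E (sw E M p) s b`, adding the edge `s b` gives a `PM`. If `good = []` and `hits = []`: `no_pm`. If `good = []` and
`hits = (p, q) :: _`: `p, q ∈ F`, heads adjacent, `blossom`, `ctr_gr`, `ctr_near`, `ctr_len` (so `k ≠ 0` and the induction
hypothesis applies to `next x`, with `k - 1`), `lift_ok`, `ctr_pm`. (For `k = 0`: `V` is empty, but `a ∈ V`.)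
-/
theorem aug_ok {V : List ℕ} {E M : List Ed} {a b : ℕ} (hG : Gr V E) (hN : Near V E M a b) :
    ((aug (V, E, M, a, b)).1 = true → PM V E (aug (V, E, M, a, b)).2) ∧
      ((aug (V, E, M, a, b)).1 = false → ¬ ∃ N, PM V E N) :=
  M1_aux V.length V E M a b hG hN le_rfl

end Pool.Agent.EDM
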