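import Pool.Agent.EDM.M1

/-! **[EDM-M2]** Correctness of `pm`. -/

namespace Pool.Agent.EDM

theorem M2_mem_full (n : ℕ) (E : List Ed) (u v : ℕ) :
    (u, v) ∈ full n E ↔
      u < 2 * n ∧ v < 2 * n ∧ u ≠ v ∧ (n ≤ u ∨ n ≤ v ∨ (u, v) ∈ E ∨ (v, u) ∈ E) := by
  unfold full
  simp only [List.mem_flatMap, List.mem_range, List.mem_map, List.mem_filter, Bool.and_eq_true,
    Bool.or_eq_true, Bool.not_eq_true', decide_eq_false_iff_not, decide_eq_true_eq, memE_iff]
  constructor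
  · rintro ⟨u', hu, v', ⟨hv, hne, h⟩, he⟩
    obtain ⟨rfl, rfl⟩ := Prod.mk.inj he
    exact ⟨hu, hv, hne, by tauto⟩
  · rintro ⟨hu, hv, hne, h⟩
    exact ⟨u, hu, v, ⟨hv, hne, by tauto⟩, rfl⟩

theorem M2_mem_hE (m : ℕ) (E : List Ed) (u v : ℕ) :
    (u, v) ∈ hE m E ↔ (u, v) ∈ E ∧ u < m ∧ v < m := by
  simp [hE, List.mem_filter]

theorem M2_mem_hV (m v : ℕ) : v ∈ hV m ↔ v < m := by simp [hV]

theorem M2_gr (n m : ℕ) (E : List Ed) : Gr (hV m) (hE m (full n E)) := by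
  refine ⟨fun u v h => ?_, fun u h => ?_, fun u v h => ?_⟩
  · rw [M2_mem_hE, M2_mem_full] at h ⊢
    obtain ⟨⟨h1, h2, h3, h4⟩, h5, h6⟩ := h
    exact ⟨⟨h2, h1, fun h => h3 h.symm, by tauto⟩, h6, h5⟩
  · rw [M2_mem_hE, M2_mem_full] at h
    exact h.1.2.2.1 rfl
  · rw [M2_mem_hE] at h
    rw [M2_mem_hV]
    exact h.2.1

theorem M2_mem_triv (n u v : ℕ) :
    (u, v) ∈ triv n ↔ ∃ i < n, (u = i ∧ v = n + i) ∨ (u = n + i ∧ v = i) := by
  simp [triv, List.mem_flatMap]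

theorem M2_triv (n : ℕ) (E : List Ed) :
    PM (hV (2 * n)) (hE (2 * n) (full n E)) (triv n) := by
  refine ⟨⟨fun u v h => ?_, fun u v h => ?_, fun u v w h h' => ?_⟩, fun v hv => ?_⟩
  · rw [M2_mem_triv] at h
    rw [M2_mem_hE, M2_mem_full]
    rcases h with ⟨i, hi, ⟨rfl, rfl⟩ | ⟨rfl, rfl⟩⟩
    · exact ⟨⟨by omega, by omega, by omega, Or.inr (Or.inl (by omega))⟩, by omega, by omega⟩
    · exact ⟨⟨by omega, by omega, by omega, Or.inl (by omega)⟩, by omega, by omega⟩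
  · rw [M2_mem_triv] at h ⊢
    rcases h with ⟨i, hi, ⟨rfl, rfl⟩ | ⟨rfl, rfl⟩⟩
    · exact ⟨_, hi, Or.inr ⟨rfl, rfl⟩⟩
    · exact ⟨_, hi, Or.inl ⟨rfl, rfl⟩⟩
  · rw [M2_mem_triv] at h h'
    rcases h with ⟨i, hi, ⟨h1, h2⟩ | ⟨h1, h2⟩⟩ <;>
      rcases h' with ⟨j, hj, ⟨h3, h4⟩ | ⟨h3, h4⟩⟩ <;> omega
  · rw [M2_mem_hV] at hv
    by_cases h : v < n
    · exact ⟨n + v, (M2_mem_triv _ _ _).2 ⟨v, h, Or.inl ⟨rfl, rfl⟩⟩⟩
    · exact ⟨v - n, (M2_mem_triv _ _ _).2 ⟨v - n, by omega, Or.inr ⟨by omega, rfl⟩⟩⟩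

theorem M2_mt {n m : ℕ} {E M : List Ed} (h : PM (hV (m + 2)) (hE (m + 2) (full n E)) M) :
    Mt (hE m (full n E)) (hE m M) := by
  refine ⟨fun u v h' => ?_, fun u v h' => ?_, fun u v w h' h'' => ?_⟩
  · rw [M2_mem_hE] at h' ⊢
    have := h.mt.sub u v h'.1
    rw [M2_mem_hE] at this
    exact ⟨this.1, h'.2⟩
  · rw [M2_mem_hE] at h' ⊢
    exact ⟨h.mt.symm _ _ h'.1, h'.2.2, h'.2.1⟩
  · rw [M2_mem_hE] at h' h''
    exact h.mt.func u v w h'.1 h''.1

theorem M2_lt {n m : ℕ} {E M : List Ed} (h : PM (hV (m + 2)) (hE (m + 2) (full n E)) M)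
    {u v : ℕ} (h' : (u, v) ∈ M) : v < m + 2 ∧ u ≠ v := by
  have := h.mt.sub u v h'
  rw [M2_mem_hE, M2_mem_full] at this
  exact ⟨this.2.2, this.1.2.2.1⟩

theorem M2_del {n m : ℕ} {E M : List Ed} (h : PM (hV (m + 2)) (hE (m + 2) (full n E)) M)
    (h1 : (m + 1, m) ∈ M) : PM (hV m) (hE m (full n E)) (hE m M) := by
  refine ⟨M2_mt h, fun v hv => ?_⟩
  rw [M2_mem_hV] at hv
  obtain ⟨w, hw⟩ := h.cov v ((M2_mem_hV _ _).2 (by omega))
  have h2 := M2_lt h hw
  refine ⟨w, (M2_mem_hE _ _ _ _).2 ⟨hw, hv, ?_⟩⟩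
  by_contra hc
  have h3 : w = m ∨ w = m + 1 := by omega
  rcases h3 with rfl | rfl
  · have := h.mt.func _ _ _ (h.mt.symm _ _ hw) (h.mt.symm _ _ h1)
    omega
  · have := h.mt.func _ _ _ (h.mt.symm _ _ hw) h1
    omega

theorem M2_near {n m : ℕ} {E M : List Ed} (h : PM (hV (m + 2)) (hE (m + 2) (full n E)) M)
    (h1 : (m + 1, m) ∉ M) :
    Near (hV m) (hE m (full n E)) (hE m M) (mate M (m + 1)) (mate M m) := by
  obtain ⟨a, ha⟩ := h.cov (m + 1) ((M2_mem_hV _ _).2 (by omega))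
  obtain ⟨b, hb⟩ := h.cov m ((M2_mem_hV _ _).2 (by omega))
  rw [mate_eq h.mt ha, mate_eq h.mt hb]
  have ha1 := M2_lt h ha
  have hb1 := M2_lt h hb
  have ha2 : a ≠ m := by rintro rfl; exact h1 ha
  have hb2 : b ≠ m + 1 := by rintro rfl; exact h1 (h.mt.symm _ _ hb)
  have ha3 := h.mt.symm _ _ ha
  have hb3 := h.mt.symm _ _ hb
  refine ⟨M2_mt h, (M2_mem_hV _ _).2 (by omega), (M2_mem_hV _ _).2 (by omega), ?_, ?_, ?_, ?_⟩
  · rintro rfl
    have := h.mt.func _ _ _ ha3 hb3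
    omega
  · intro w hw
    rw [M2_mem_hE] at hw
    have := h.mt.func _ _ _ ha3 hw.1
    omega
  · intro w hw
    rw [M2_mem_hE] at hw
    have := h.mt.func _ _ _ hb3 hw.1
    omega
  · intro v hv hva hvb
    rw [M2_mem_hV] at hv
    obtain ⟨w, hw⟩ := h.cov v ((M2_mem_hV _ _).2 (by omega))
    have h2 := M2_lt h hw
    refine ⟨w, (M2_mem_hE _ _ _ _).2 ⟨hw, hv, ?_⟩⟩
    by_contra hc
    have h3 : w = m ∨ w = m + 1 := by omega
    rcases h3 with rfl | rfl
    · exact hvb (h.mt.func _ _ _ (h.mt.symm _ _ hw) hb)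
    · exact hva (h.mt.func _ _ _ (h.mt.symm _ _ hw) ha)

theorem M2_ext1 {n m : ℕ} {E : List Ed} (h1 : n ≤ m) (h2 : m + 2 ≤ 2 * n)
    (h : ∃ N, PM (hV m) (hE m (full n E)) N) : ∃ N, PM (hV (m + 2)) (hE (m + 2) (full n E)) N := by
  obtain ⟨N, hN⟩ := h
  have hlt : ∀ {u v : ℕ}, (u, v) ∈ N → u < m ∧ v < m := by
    intro u v h
    have := hN.mt.sub u v h
    rw [M2_mem_hE] at this
    exact this.2
  refine ⟨(m, m + 1) :: (m + 1, m) :: N, ⟨⟨fun u v h => ?_, fun u v h => ?_, fun u v w h h' => ?_⟩,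
    fun v hv => ?_⟩⟩
  · simp only [List.mem_cons, Prod.mk.injEq] at h
    rcases h with ⟨rfl, rfl⟩ | ⟨rfl, rfl⟩ | h
    · rw [M2_mem_hE, M2_mem_full]
      exact ⟨⟨by omega, by omega, by omega, Or.inl (by omega)⟩, by omega, by omega⟩
    · rw [M2_mem_hE, M2_mem_full]
      exact ⟨⟨by omega, by omega, by omega, Or.inl (by omega)⟩, by omega, by omega⟩
    · have h3 := hN.mt.sub u v h
      rw [M2_mem_hE] at h3 ⊢
      exact ⟨h3.1, by omega, by omega⟩
  · simp only [List.mem_cons, Prod.mk.injEq] at h ⊢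
    rcases h with ⟨rfl, rfl⟩ | ⟨rfl, rfl⟩ | h
    · exact Or.inr (Or.inl ⟨rfl, rfl⟩)
    · exact Or.inl ⟨rfl, rfl⟩
    · exact Or.inr (Or.inr (hN.mt.symm _ _ h))
  · simp only [List.mem_cons, Prod.mk.injEq] at h h'
    rcases h with ⟨h3, h4⟩ | ⟨h3, h4⟩ | h <;> rcases h' with ⟨h5, h6⟩ | ⟨h5, h6⟩ | h'
    · omega
    · omega
    · have := hlt h'
      omega
    · omega
    · omega
    · have := hlt h'
      omega
    · have := hlt h
      omega
    · have := hlt h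
      omega
    · exact hN.mt.func _ _ _ h h'
  · rw [M2_mem_hV] at hv
    have h3 : v < m ∨ v = m ∨ v = m + 1 := by omega
    rcases h3 with h3 | rfl | rfl
    · obtain ⟨w, hw⟩ := hN.cov v ((M2_mem_hV _ _).2 h3)
      exact ⟨w, by simp [hw]⟩
    · exact ⟨v + 1, by simp⟩
    · exact ⟨m, by simp⟩

theorem M2_ext {n : ℕ} {E : List Ed} (h : ∃ N, PM (hV n) (hE n (full n E)) N) (k : ℕ)
    (hk : n + 2 * k ≤ 2 * n) :
    ∃ N, PM (hV (n + 2 * k)) (hE (n + 2 * k) (full n E)) N := by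
  induction k with
  | zero => simpa using h
  | succ k ih =>
    have h1 := M2_ext1 (n := n) (m := n + 2 * k) (E := E) (by omega) (by omega) (ih (by omega))
    have h2 : n + 2 * (k + 1) = n + 2 * k + 2 := by ring
    rw [h2]
    exact h1

theorem M2_inv {n : ℕ} (hn : n % 2 = 0) (E : List Ed) (i : ℕ) (hi : i ≤ n / 2) :
    ((((hstep (full n E))^[i] (true, 2 * n - 2, triv n)).1 = true ∧
      ((hstep (full n E))^[i] (true, 2 * n - 2, triv n)).2.1 = 2 * n - 2 - 2 * i ∧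
      PM (hV (2 * n - 2 * i)) (hE (2 * n - 2 * i) (full n E))
        ((hstep (full n E))^[i] (true, 2 * n - 2, triv n)).2.2) ∨
    (((hstep (full n E))^[i] (true, 2 * n - 2, triv n)).1 = false ∧
      ¬ ∃ N, PM (hV n) (hE n (full n E)) N)) := by
  induction i with
  | zero =>
    left
    exact ⟨rfl, rfl, M2_triv n E⟩
  | succ i ih =>
    rw [Function.iterate_succ_apply']
    generalize (hstep (full n E))^[i] (true, 2 * n - 2, triv n) = s at ih ⊢
    obtain ⟨s1, m, M⟩ := s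
    rcases ih (by omega) with ⟨h1, h2, h3⟩ | ⟨h1, h2⟩
    · simp only at h1 h2 h3
      subst h1
      have hm : 2 * n - 2 * i = m + 2 := by omega
      have hm' : 2 * n - 2 * (i + 1) = m := by omega
      have hm'' : 2 * n - 2 - 2 * (i + 1) = m - 2 := by omega
      rw [hm] at h3
      rw [hm', hm'']
      unfold hstep
      simp only [cond_true]
      cases hb : memE M (m + 1, m) with
      | true =>
        rw [cond_true]
        left
        rw [memE_iff] at hb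
        exact ⟨rfl, rfl, M2_del h3 hb⟩
      | false =>
        rw [cond_false]
        rw [memE_false] at hb
        have h4 := aug_ok (M2_gr n m E) (M2_near h3 hb)
        simp only
        cases hr : (aug (hV m, hE m (full n E), hE m M, mate M (m + 1), mate M m)).1 with
        | true =>
          left
          exact ⟨by trivial, by trivial, h4.1 hr⟩
        | false =>
          right
          refine ⟨by trivial, fun h5 => h4.2 hr ?_⟩
          have h6 := M2_ext h5 ((m - n) / 2) (by omega)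
          have h7 : n + 2 * ((m - n) / 2) = m := by omega
          rw [h7] at h6
          exact h6
    · right
      simp only at h1
      subst h1
      refine ⟨?_, h2⟩
      unfold hstep
      simp only [cond_false]

theorem M2_odd {n : ℕ} (hn : n % 2 ≠ 0) (E : List Ed) :
    ¬ ∃ N, PM (hV n) (hE n (full n E)) N := by
  rintro ⟨N, hN⟩
  have hm : ∀ v ∈ Finset.range n, (v, mate N v) ∈ N := by
    intro v hv
    obtain ⟨w, hw⟩ := hN.cov v ((M2_mem_hV _ _).2 (Finset.mem_range.1 hv))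
    rw [mate_eq hN.mt hw]
    exact hw
  have hs := Finset.sum_involution (s := Finset.range n) (f := fun _ => (1 : ZMod 2))
    (fun v _ => mate N v) (fun _ _ => by decide)
    (fun v hv _ => by
      have := hN.mt.sub _ _ (hm v hv)
      rw [M2_mem_hE, M2_mem_full] at this
      exact fun h => this.1.2.2.1 h.symm)
    (fun v hv => by
      have := hN.mt.sub _ _ (hm v hv)
      rw [M2_mem_hE] at this
      exact Finset.mem_range.2 this.2.2)
    (fun v hv => mate_eq hN.mt (hN.mt.symm _ _ (hm v hv)))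
  simp only [Finset.sum_const, Finset.card_range, nsmul_eq_mul, mul_one] at hs
  rw [ZMod.natCast_eq_zero_iff] at hs
  omega

theorem pm_spec (n : ℕ) (E : List Ed) :
    ((pm n E).1 = true → PM (hV n) (hE n (full n E)) (pm n E).2) ∧
      ((pm n E).1 = false → ¬ ∃ N, PM (hV n) (hE n (full n E)) N) := by
  by_cases hn : n % 2 = 0
  · have h := M2_inv hn E (n / 2) le_rfl
    have h1 : pm n E = (((hstep (full n E))^[n / 2] (true, 2 * n - 2, triv n)).1,
        ((hstep (full n E))^[n / 2] (true, 2 * n - 2, triv n)).2.2) := by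
      unfold pm
      simp only [hn, decide_true, cond_true]
    rw [h1]
    have h2 : 2 * n - 2 * (n / 2) = n := by omega
    rw [h2] at h
    generalize (hstep (full n E))^[n / 2] (true, 2 * n - 2, triv n) = s at h ⊢
    rcases h with ⟨h3, -, h4⟩ | ⟨h3, h4⟩
    · exact ⟨fun _ => h4, fun h5 => absurd (h3.symm.trans h5) (by decide)⟩
    · exact ⟨fun h5 => absurd (h3.symm.trans h5) (by decide), fun _ => h4⟩
  · have h1 : pm n E = (false, []) := by
      unfold pm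
      simp only [hn, decide_false, cond_false]
    rw [h1]
    exact ⟨fun h => by simp at h, fun _ => M2_odd hn E⟩

end Pool.Agent.EDM
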