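import Pool.Agent.EDM.Defs
import Pool.Agent.Lib.helper60.PTLib

/-! **[EDM-P1]** Polynomial time: the elementary functions. -/

namespace Pool.Agent.EDM

open Pool.Agent.Lib.helper60

variable {ι : Type} [DEnc ι]

/- PROOF. `PT.any`, `PT.neq`, `PT.band`, `PT.p1`, `PT.p2`. -/
theorem pt_memN {l : ι → List ℕ} {v : ι → ℕ} (hl : PT l) (hv : PT v) :
    PT (fun x => memN (l x) (v x)) :=
  PT.any hl (p := fun y : ι × ℕ => decide (y.2 = v y.1)) (PT.neq PT.snd (hv.comp PT.fst))

theorem pt_memE {l : ι → List Ed} {e : ι → Ed} (hl : PT l) (he : PT e) :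
    PT (fun x => memE (l x) (e x)) :=
  PT.any hl (p := fun y : ι × Ed => decide (y.2.1 = (e y.1).1) && decide (y.2.2 = (e y.1).2))
    (PT.band (PT.neq (PT.p1 PT.snd) (PT.p1 (he.comp PT.fst)))
      (PT.neq (PT.p2 PT.snd) (PT.p2 (he.comp PT.fst))))

theorem pt_mate {M : ι → List Ed} {v : ι → ℕ} (hM : PT M) (hv : PT v) :
    PT (fun x => mate (M x) (v x)) :=
  PT.headD (PT.map (g := fun y : ι × Ed => y.2.2)
    (PT.filter hM (p := fun y : ι × Ed => decide (y.2.1 = v y.1))
      (PT.neq (PT.p1 PT.snd) (hv.comp PT.fst))) (PT.p2 PT.snd)) (PT.const 0)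

private theorem P1_fold (B : ℕ) : ∀ (l : List ℕ) (s : ℕ × List Ed), tsize s.1 ≤ B →
    (∀ y ∈ l, tsize y ≤ B) →
    tsize (l.foldl (fun s y => (y, (s.1, y) :: (y, s.1) :: s.2)) s).1 ≤ B ∧
    tsize (l.foldl (fun s y => (y, (s.1, y) :: (y, s.1) :: s.2)) s).2 ≤
      tsize s.2 + l.length * (4 * B + 4) := by
  intro l
  induction l with
  | nil => intro s h _; exact ⟨h, by simp⟩
  | cons y l ih =>
    intro s h1 h2
    have hy : tsize y ≤ B := h2 y List.mem_cons_self
    have h3 := ih (y, (s.1, y) :: (y, s.1) :: s.2) hy (fun z hz => h2 z (List.mem_cons_of_mem _ hz))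
    rw [List.foldl_cons]
    refine ⟨h3.1, h3.2.trans ?_⟩
    simp only [tsize_cons, tsize_pair, List.length_cons]
    have : (l.length + 1) * (4 * B + 4) = l.length * (4 * B + 4) + (4 * B + 4) := by ring
    omega

private theorem P1_mem {l : List ℕ} {y : ℕ} (h : y ∈ l) : tsize y ≤ tsize l := (tsize_mem_lt h).le

/- PROOF. `PT.foldl` (the state after the fold over `l₁` consists of a member of the list or the head and
`2 * l₁.length` pairs of such numbers: polynomial bound). -/
theorem pt_steps {p : ι → List ℕ} (hp : PT p) : PT (fun x => steps (p x)) := by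
  have hB : PB (fun x : ι => tsize (p x)) := hp.size
  refine PT.p2 (PT.foldl (init := fun x => ((p x).headD 0, ([] : List Ed)))
    (g := fun y : ι × (ℕ × List Ed) × ℕ =>
      (y.2.2, (y.2.1.1, y.2.2) :: (y.2.2, y.2.1.1) :: y.2.1.2))
    (PT.tail hp) (PT.pair (PT.headD hp (PT.const 0)) (PT.const [])) ?_ ?_)
  · have h1 : PT (fun y : ι × (ℕ × List Ed) × ℕ => y.2.2) := PT.p2 PT.snd
    have h2 : PT (fun y : ι × (ℕ × List Ed) × ℕ => y.2.1.1) := PT.p1 (PT.p1 PT.snd)
    have h3 : PT (fun y : ι × (ℕ × List Ed) × ℕ => y.2.1.2) := PT.p2 (PT.p1 PT.snd)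
    exact PT.pair h1 (PT.cons (PT.pair h2 h1) (PT.cons (PT.pair h1 h2) h3))
  · refine ⟨fun x => tsize (p x) + (1 + tsize (p x) * (4 * tsize (p x) + 4)) + 1,
      (hB.add ((PB.const 1).add (hB.mul (((PB.const 4).mul hB).add (PB.const 4))))).add
        (PB.const 1), ?_⟩
    intro x l₁ l₂ h
    have hsub : ∀ y ∈ (p x).tail, tsize y ≤ tsize (p x) := fun y hy =>
      P1_mem (List.mem_of_mem_tail hy)
    have h0 : tsize ((p x).headD 0) ≤ tsize (p x) := by
      cases hpx : p x with
      | nil => simp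
      | cons a u =>
        simp only [List.headD_cons, tsize_cons]
        omega
    have h1 := P1_fold (tsize (p x)) l₁ ((p x).headD 0, ([] : List Ed)) h0
      (fun y hy => hsub y (by rw [← h]; exact List.mem_append_left _ hy))
    have h2 : l₁.length ≤ tsize (p x) := by
      have h4 := length_lt_tsize (p x)
      have h5 : l₁.length ≤ (p x).tail.length := by
        rw [← h, List.length_append]
        omega
      rw [List.length_tail] at h5
      omega
    have h3 : l₁.length * (4 * tsize (p x) + 4) ≤ tsize (p x) * (4 * tsize (p x) + 4) :=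
      Nat.mul_le_mul_right _ h2
    have h6 := h1.2
    have e0 : tsize ((((p x).headD 0, ([] : List Ed)) : ℕ × List Ed).2) = 1 := rfl
    rw [e0] at h6
    have h7 : ∀ s : ℕ × List Ed, tsize s = tsize s.1 + tsize s.2 + 1 :=
      fun s => tsize_pair s.1 s.2
    show tsize (l₁.foldl (fun s y => (y, (s.1, y) :: (y, s.1) :: s.2))
      ((p x).headD 0, ([] : List Ed))) ≤
        tsize (p x) + (1 + tsize (p x) * (4 * tsize (p x) + 4)) + 1
    rw [h7]
    have h8 := h1.1
    omega

theorem pt_sw {E M : ι → List Ed} {p : ι → List ℕ} (hE : PT E) (hM : PT M) (hp : PT p) :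
    PT (fun x => sw (E x) (M x) (p x)) := by
  have h1 : PT (fun y : ι × Ed => memE (M y.1) y.2) := pt_memE (hM.comp PT.fst) PT.snd
  have h2 : PT (fun y : ι × Ed => memE (steps (p y.1)) y.2) :=
    pt_memE ((pt_steps hp).comp PT.fst) PT.snd
  refine PT.filter hE (p := fun y : ι × Ed => xor (memE (M y.1) y.2) (memE (steps (p y.1)) y.2)) ?_
  refine (PT.cond h1 (PT.bnot h2) h2).congr fun y => ?_
  cases memE (M y.1) y.2 <;> cases memE (steps (p y.1)) y.2 <;> rfl

private theorem P1_fold2 (B : ℕ) : ∀ (l : List ℕ) (s : Bool × ℕ × List Ed), tsize s.2.1 ≤ B →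
    1 ≤ B → (∀ y ∈ l, tsize y ≤ B) →
    tsize (l.foldl (fun s y => bif s.1 then (false, 0, (s.2.1, y) :: (y, s.2.1) :: s.2.2)
      else (true, y, s.2.2)) s).2.1 ≤ B ∧
    tsize (l.foldl (fun s y => bif s.1 then (false, 0, (s.2.1, y) :: (y, s.2.1) :: s.2.2)
      else (true, y, s.2.2)) s).2.2 ≤ tsize s.2.2 + l.length * (4 * B + 4) := by
  intro l
  induction l with
  | nil => intro s h _ _; exact ⟨h, by simp⟩
  | cons y l ih =>
    intro s h1 hB h2
    have hy : tsize y ≤ B := h2 y List.mem_cons_self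
    have hl : ∀ z ∈ l, tsize z ≤ B := fun z hz => h2 z (List.mem_cons_of_mem _ hz)
    rw [List.foldl_cons]
    have e : (l.length + 1) * (4 * B + 4) = l.length * (4 * B + 4) + (4 * B + 4) := by ring
    obtain ⟨b, v, w⟩ := s
    cases b with
    | false =>
      have h3 := ih (true, y, w) hy hB hl
      refine ⟨h3.1, h3.2.trans ?_⟩
      simp only [List.length_cons]
      omega
    | true =>
      have h3 := ih (false, 0, (v, y) :: (y, v) :: w) (by simpa using hB) hB hl
      refine ⟨h3.1, h3.2.trans ?_⟩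
      simp only [tsize_cons, tsize_pair, List.length_cons]
      simp only at h1
      omega

theorem pt_pairs {l : ι → List ℕ} (hl : PT l) : PT (fun x => pairs (l x)) := by
  have hB : PB (fun x : ι => tsize (l x)) := hl.size
  refine PT.p2 (PT.p2 (PT.foldl (init := fun _ => (false, 0, ([] : List Ed)))
    (g := fun y : ι × (Bool × ℕ × List Ed) × ℕ =>
      bif y.2.1.1 then (false, 0, (y.2.1.2.1, y.2.2) :: (y.2.2, y.2.1.2.1) :: y.2.1.2.2)
      else (true, y.2.2, y.2.1.2.2))
    hl (PT.const _) ?_ ?_))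
  · have h1 : PT (fun y : ι × (Bool × ℕ × List Ed) × ℕ => y.2.2) := PT.p2 PT.snd
    have h2 : PT (fun y : ι × (Bool × ℕ × List Ed) × ℕ => y.2.1.2.1) :=
      PT.p1 (PT.p2 (PT.p1 PT.snd))
    have h3 : PT (fun y : ι × (Bool × ℕ × List Ed) × ℕ => y.2.1.2.2) :=
      PT.p2 (PT.p2 (PT.p1 PT.snd))
    have h4 : PT (fun y : ι × (Bool × ℕ × List Ed) × ℕ => y.2.1.1) := PT.p1 (PT.p1 PT.snd)
    exact PT.cond h4 (PT.pair (PT.const false) (PT.pair (PT.const 0)
      (PT.cons (PT.pair h2 h1) (PT.cons (PT.pair h1 h2) h3))))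
      (PT.pair (PT.const true) (PT.pair h1 h3))
  · refine ⟨fun x => 3 + (tsize (l x) + (1 + tsize (l x) * (4 * tsize (l x) + 4)) + 1) + 1,
      ((PB.const 3).add ((hB.add ((PB.const 1).add
        (hB.mul (((PB.const 4).mul hB).add (PB.const 4))))).add (PB.const 1))).add
        (PB.const 1), ?_⟩
    intro x l₁ l₂ h
    have h1 := P1_fold2 (tsize (l x)) l₁ (false, 0, ([] : List Ed))
      (by simp only [tsize_nat]; exact tsize_pos (l x)) (tsize_pos (l x))
      (fun y hy => P1_mem (by rw [← h]; exact List.mem_append_left _ hy))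
    have h2 : l₁.length ≤ tsize (l x) := by
      have h4 := length_lt_tsize (l x)
      rw [← h, List.length_append] at h4
      rw [h] at h4
      omega
    have h3 : l₁.length * (4 * tsize (l x) + 4) ≤ tsize (l x) * (4 * tsize (l x) + 4) :=
      Nat.mul_le_mul_right _ h2
    have h6 := h1.2
    have e0 : tsize (((false, 0, ([] : List Ed)) : Bool × ℕ × List Ed).2.2) = 1 := rfl
    rw [e0] at h6
    have h7 : ∀ s : Bool × ℕ × List Ed,
        tsize s = tsize s.1 + (tsize s.2.1 + tsize s.2.2 + 1) + 1 := by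
      rintro ⟨a, b, c⟩
      rw [tsize_pair, tsize_pair]
    show tsize (l₁.foldl (fun s y => bif s.1 then
      (false, 0, (s.2.1, y) :: (y, s.2.1) :: s.2.2) else (true, y, s.2.2))
      (false, 0, ([] : List Ed))) ≤
        3 + (tsize (l x) + (1 + tsize (l x) * (4 * tsize (l x) + 4)) + 1) + 1
    rw [h7]
    have h8 := h1.1
    have h9 := tsize_bool_le (l₁.foldl (fun s y => bif s.1 then
      (false, 0, (s.2.1, y) :: (y, s.2.1) :: s.2.2) else (true, y, s.2.2))
      (false, 0, ([] : List Ed))).1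
    omega

private theorem P1_rot (v : ℕ) (l : List ℕ) (hl : l ≠ []) :
    tsize (bif decide (l.headD 0 = v) then l else l.tail ++ [l.headD 0]) = tsize l ∧
    (bif decide (l.headD 0 = v) then l else l.tail ++ [l.headD 0]) ≠ [] := by
  cases l with
  | nil => exact (hl rfl).elim
  | cons a u =>
    cases hd : decide ((a :: u).headD 0 = v) with
    | true => exact ⟨rfl, by simp⟩
    | false =>
      have h1 := tsize_append u [a]
      simp only [List.headD_cons, List.tail_cons, tsize_cons, tsize_nil, cond_false] at h1 ⊢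
      exact ⟨by omega, by simp⟩

/- PROOF. `PT.iterateList` (pair `v` with the list); all iterates are rotations of `l` (or `[]` / `[0]` for `l = []`:
`l.length = 0`, no iteration), so their size is `tsize l` (`tsize_append`). -/
theorem pt_rotTo {v : ι → ℕ} {l : ι → List ℕ} (hv : PT v) (hl : PT l) :
    PT (fun x => rotTo (v x) (l x)) := by
  have hit : ∀ (i : ℕ) (v : ℕ) (l : List ℕ),
      (fun s : ℕ × List ℕ => (s.1, bif decide (s.2.headD 0 = s.1) then s.2
        else s.2.tail ++ [s.2.headD 0]))^[i] (v, l) =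
      (v, (fun l : List ℕ => bif decide (l.headD 0 = v) then l
        else l.tail ++ [l.headD 0])^[i] l) := by
    intro i
    induction i with
    | zero => intro v l; rfl
    | succ i ih => intro v l; rw [Function.iterate_succ_apply, ih, Function.iterate_succ_apply]
  have hsz : ∀ (i : ℕ) (v : ℕ) (l : List ℕ), l ≠ [] →
      tsize ((fun l : List ℕ => bif decide (l.headD 0 = v) then l
        else l.tail ++ [l.headD 0])^[i] l) = tsize l := by
    intro i
    induction i with
    | zero => intro v l _; rfl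
    | succ i ih =>
      intro v l h
      obtain ⟨h1, h2⟩ := P1_rot v l h
      rw [Function.iterate_succ_apply, ih v _ h2, h1]
  have h1 : PT (fun s : ℕ × List ℕ => s.1) := PT.fst
  have h2 : PT (fun s : ℕ × List ℕ => s.2) := PT.snd
  have h3 : PT (fun s : ℕ × List ℕ => s.2.headD 0) := PT.headD h2 (PT.const 0)
  have hstep : PT (fun s : ℕ × List ℕ => (s.1, bif decide (s.2.headD 0 = s.1) then s.2
      else s.2.tail ++ [s.2.headD 0])) :=
    PT.pair h1 (PT.cond (PT.neq h3 h1) h2 (PT.append (PT.tail h2) (PT.cons h3 (PT.const []))))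
  have h := PT.iterateList (count := l) (init := fun x => (v x, l x)) hl (PT.pair hv hl) hstep
    ⟨fun x => tsize (v x) + tsize (l x) + 1, (hv.size.add hl.size).add (PB.const 1), by
      intro x i hi
      rw [hit, tsize_pair]
      by_cases hx : l x = []
      · have hi0 : i = 0 := by
          rw [hx] at hi
          simpa using hi
        subst hi0
        rw [Function.iterate_zero, id]
      · rw [hsz i _ _ hx]⟩
  refine (PT.p2 h).congr fun x => ?_
  rw [hit]
  rfl

theorem pt_stem {p q : ι → List ℕ} (hp : PT p) (hq : PT q) : PT (fun x => stem (p x) (q x)) :=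
  PT.filter hp (p := fun y : ι × ℕ => memN (q y.1) y.2) (pt_memN (hq.comp PT.fst) PT.snd)

private theorem P1_dif {p q : ι → List ℕ} (hp : PT p) (hq : PT q) :
    PT (fun x => dif (p x) (q x)) :=
  PT.filter hp (p := fun y : ι × ℕ => !memN (q y.1) y.2)
    (PT.bnot (pt_memN (hq.comp PT.fst) PT.snd))

theorem pt_cyc {p q : ι → List ℕ} (hp : PT p) (hq : PT q) : PT (fun x => cyc (p x) (q x)) :=
  PT.cons (PT.headD (pt_stem hp hq) (PT.const 0))
    (PT.append (PT.reverse (P1_dif hp hq)) (P1_dif hq hp))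

theorem pt_ctrV {C : ι → List ℕ} {V : ι → List ℕ} (hC : PT C) (hV : PT V) :
    PT (fun x => ctrV (C x) (V x)) :=
  PT.filter hV (p := fun y : ι × ℕ => !memN (C y.1).tail y.2)
    (PT.bnot (pt_memN ((PT.tail hC).comp PT.fst) PT.snd))

theorem pt_ctrE {C : ι → List ℕ} {E : ι → List Ed} (hC : PT C) (hE : PT E) :
    PT (fun x => ctrE (C x) (E x)) := by
  have hC' : PT (fun y : ι × Ed => C y.1) := hC.comp PT.fst
  have hh : PT (fun y : ι × Ed => (C y.1).headD 0) := PT.headD hC' (PT.const 0)
  have h1 : PT (fun y : ι × Ed => y.2.1) := PT.p1 PT.snd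
  have h2 : PT (fun y : ι × Ed => y.2.2) := PT.p2 PT.snd
  have hm := PT.map hE (g := fun y : ι × Ed =>
    (rel (C y.1) ((C y.1).headD 0) y.2.1, rel (C y.1) ((C y.1).headD 0) y.2.2))
    (PT.pair (PT.cond (pt_memN hC' h1) hh h1) (PT.cond (pt_memN hC' h2) hh h2))
  exact PT.filter hm (p := fun y : ι × Ed => !decide (y.2.1 = y.2.2)) (PT.bnot (PT.neq h1 h2))

theorem pt_ctrM {C : ι → List ℕ} {M : ι → List Ed} (hC : PT C) (hM : PT M) :
    PT (fun x => ctrM (C x) (M x)) :=
  PT.filter hM (p := fun y : ι × Ed => !memN (C y.1) y.2.1)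
    (PT.bnot (pt_memN (hC.comp PT.fst) (PT.p1 PT.snd)))

theorem pt_liftN {C : ι → List ℕ} {E N : ι → List Ed} (hC : PT C) (hE : PT E) (hN : PT N) :
    PT (fun x => liftN (C x) (E x) (N x)) := by
  have hh : PT (fun x => (C x).headD 0) := PT.headD hC (PT.const 0)
  have hw : PT (fun x => mate (N x) ((C x).headD 0)) := pt_mate hN hh
  have hv : PT (fun x => ((C x).filter fun v => memE (E x)
      (v, mate (N x) ((C x).headD 0))).headD 0) :=
    PT.headD (PT.filter hC (p := fun y : ι × ℕ => memE (E y.1)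
      (y.2, mate (N y.1) ((C y.1).headD 0)))
      (pt_memE (hE.comp PT.fst) (PT.pair PT.snd (hw.comp PT.fst)))) (PT.const 0)
  have hf : PT (fun x => (N x).filter fun e => !decide (e.1 = (C x).headD 0) &&
      !decide (e.2 = (C x).headD 0)) :=
    PT.filter hN (p := fun y : ι × Ed => !decide (y.2.1 = (C y.1).headD 0) &&
      !decide (y.2.2 = (C y.1).headD 0))
      (PT.band (PT.bnot (PT.neq (PT.p1 PT.snd) (hh.comp PT.fst)))
        (PT.bnot (PT.neq (PT.p2 PT.snd) (hh.comp PT.fst))))
  have hp : PT (fun x => pairs (rotTo (((C x).filter fun v => memE (E x)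
      (v, mate (N x) ((C x).headD 0))).headD 0) (C x)).tail) :=
    pt_pairs (PT.tail (pt_rotTo hv hC))
  have hL := PT.cons (PT.pair hv hw) (PT.cons (PT.pair hw hv) (PT.append hf hp))
  exact PT.filter hE (p := fun y : ι × Ed => memE
    (((((C y.1).filter fun v => memE (E y.1) (v, mate (N y.1) ((C y.1).headD 0))).headD 0),
      mate (N y.1) ((C y.1).headD 0)) :: (mate (N y.1) ((C y.1).headD 0),
      (((C y.1).filter fun v => memE (E y.1) (v, mate (N y.1) ((C y.1).headD 0))).headD 0)) ::
      (((N y.1).filter fun e => !decide (e.1 = (C y.1).headD 0) &&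
        !decide (e.2 = (C y.1).headD 0)) ++ pairs (rotTo (((C y.1).filter fun v =>
        memE (E y.1) (v, mate (N y.1) ((C y.1).headD 0))).headD 0) (C y.1)).tail)) y.2)
    (pt_memE (hL.comp PT.fst) PT.snd)

end Pool.Agent.EDM
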