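import Pool.Agent.EDM.P1

/-! **[EDM-P2]** Polynomial time: the alternating tree and the functions of the recursion. -/

namespace Pool.Agent.EDM

open Pool.Agent.Lib.helper60

/-- all numbers in the state are `≤ m`, all lists have length `≤ L` -/
structure Bd (m L : ℕ) (x : St) : Prop where
  v : ∀ v ∈ x.1, v ≤ m
  e : ∀ e ∈ x.2.1, e.1 ≤ m ∧ e.2 ≤ m
  mt : ∀ e ∈ x.2.2.1, e.1 ≤ m ∧ e.2 ≤ m
  a : x.2.2.2.1 ≤ m
  b : x.2.2.2.2 ≤ m
  lv : x.1.length ≤ L
  le : x.2.1.length ≤ L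
  lm : x.2.2.1.length ≤ L

theorem bd_self (x : St) : Bd (tsize x) (tsize x) x := by
  obtain ⟨V, E, M, a, b⟩ := x
  have hx : tsize ((V, E, M, a, b) : St) =
      tsize V + (tsize E + (tsize M + (tsize a + tsize b + 1) + 1) + 1) + 1 := by
    simp only [tsize_pair]
  have ha : tsize a = 2 * a + 1 := tsize_nat a
  have hb : tsize b = 2 * b + 1 := tsize_nat b
  rw [hx]
  refine ⟨fun v hv => ?_, fun e he => ?_, fun e he => ?_, ?_, ?_, ?_, ?_, ?_⟩
  · have h := tsize_mem_lt hv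
    simp only [tsize_nat] at h
    omega
  · have h := tsize_mem_lt he
    obtain ⟨e1, e2⟩ := e
    simp only [tsize_pair, tsize_nat] at h
    simp only
    omega
  · have h := tsize_mem_lt he
    obtain ⟨e1, e2⟩ := e
    simp only [tsize_pair, tsize_nat] at h
    simp only
    omega
  · simp only
    omega
  · simp only
    omega
  · have h := length_lt_tsize V
    simp only
    omega
  · have h := length_lt_tsize E
    simp only
    omega
  · have h := length_lt_tsize M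
    simp only
    omega

theorem P2_listN {l : List ℕ} {m : ℕ} (h : ∀ v ∈ l, v ≤ m) :
    tsize l ≤ l.length * (2 * m + 2) + 1 := by
  refine tsize_le_of_forall fun x hx => ?_
  have := h x hx
  rw [tsize_nat]
  omega

theorem P2_listE {l : List Ed} {m : ℕ} (h : ∀ e ∈ l, e.1 ≤ m ∧ e.2 ≤ m) :
    tsize l ≤ l.length * (4 * m + 4) + 1 := by
  refine tsize_le_of_forall (B := 4 * m + 3) fun x hx => ?_
  have := h x hx
  obtain ⟨x1, x2⟩ := x
  rw [tsize_pair, tsize_nat, tsize_nat]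
  simp only at this
  omega

theorem bd_size {m L : ℕ} {x : St} (h : Bd m L x) :
    tsize x ≤ 3 * (L * (4 * m + 4) + 1) + 4 * m + 6 := by
  obtain ⟨V, E, M, a, b⟩ := x
  obtain ⟨h1, h2, h3, h4, h5, h6, h7, h8⟩ := h
  simp only at h1 h2 h3 h4 h5 h6 h7 h8
  have hx : tsize ((V, E, M, a, b) : St) =
      tsize V + (tsize E + (tsize M + (tsize a + tsize b + 1) + 1) + 1) + 1 := by
    simp only [tsize_pair]
  have ha : tsize a = 2 * a + 1 := tsize_nat a
  have hb : tsize b = 2 * b + 1 := tsize_nat b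
  have h9 := P2_listN h1
  have h10 := P2_listE h2
  have h11 := P2_listE h3
  have h12 : V.length * (2 * m + 2) ≤ L * (4 * m + 4) := Nat.mul_le_mul h6 (by omega)
  have h13 : E.length * (4 * m + 4) ≤ L * (4 * m + 4) := Nat.mul_le_mul_right _ h7
  have h14 : M.length * (4 * m + 4) ≤ L * (4 * m + 4) := Nat.mul_le_mul_right _ h8
  rw [hx]
  omega

theorem P2_headD {l : List ℕ} {m : ℕ} (h : ∀ x ∈ l, x ≤ m) : l.headD 0 ≤ m := by
  cases l with
  | nil => simp
  | cons a l => exact h a (by simp)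

theorem P2_mate {M : List Ed} {m : ℕ} (h : ∀ e ∈ M, e.1 ≤ m ∧ e.2 ≤ m) (v : ℕ) :
    mate M v ≤ m := by
  unfold mate
  apply P2_headD
  intro x hx
  obtain ⟨e, he, rfl⟩ := List.mem_map.1 hx
  exact (h e (List.mem_filter.1 he).1).2

theorem P2_grows {m k : ℕ} {E M : List Ed} {b : ℕ} {F : List (List ℕ)}
    (hE : ∀ e ∈ E, e.1 ≤ m ∧ e.2 ≤ m) (hM : ∀ e ∈ M, e.1 ≤ m ∧ e.2 ≤ m)
    (hF : ∀ p ∈ F, p.length ≤ k ∧ ∀ v ∈ p, v ≤ m) {r : List ℕ} (hr : r ∈ grows E M b F) :
    r.length ≤ k + 2 ∧ ∀ v ∈ r, v ≤ m := by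
  unfold grows at hr
  rw [List.mem_flatMap] at hr
  obtain ⟨p, hp, hr⟩ := hr
  obtain ⟨e, he, rfl⟩ := List.mem_map.1 hr
  have he' := hE e (List.mem_filter.1 he).1
  obtain ⟨h1, h2⟩ := hF p hp
  refine ⟨by simp only [List.length_cons]; omega, fun v hv => ?_⟩
  rw [List.mem_cons, List.mem_cons] at hv
  rcases hv with rfl | rfl | hv
  · exact P2_mate hM _
  · exact he'.2
  · exact h2 v hv

theorem bd_forest {m L : ℕ} {x : St} (h : Bd m L x) (i : ℕ) :
    ((fstep x.2.1 x.2.2.1 x.2.2.2.2)^[i] [[x.2.2.2.1]]).length ≤ i + 1 ∧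
      ∀ p ∈ (fstep x.2.1 x.2.2.1 x.2.2.2.2)^[i] [[x.2.2.2.1]], p.length ≤ 2 * i + 1 ∧
        ∀ v ∈ p, v ≤ m := by
  induction i with
  | zero =>
    refine ⟨le_rfl, fun p hp => ?_⟩
    rw [Function.iterate_zero, id, List.mem_singleton] at hp
    subst hp
    refine ⟨le_rfl, fun v hv => ?_⟩
    rw [List.mem_singleton] at hv
    subst hv
    exact h.a
  | succ i ih =>
    rw [Function.iterate_succ_apply']
    generalize (fstep x.2.1 x.2.2.1 x.2.2.2.2)^[i] [[x.2.2.2.1]] = F at ih ⊢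
    obtain ⟨h1, h2⟩ := ih
    have h3 := fun (r : List ℕ) (hr : r ∈ grows x.2.1 x.2.2.1 x.2.2.2.2 F) =>
      P2_grows h.e h.mt h2 hr
    unfold fstep
    cases hg : grows x.2.1 x.2.2.1 x.2.2.2.2 F with
    | nil =>
      refine ⟨by simp only; omega, fun p hp => ?_⟩
      obtain ⟨h4, h5⟩ := h2 p hp
      exact ⟨by omega, h5⟩
    | cons r l =>
      refine ⟨by simp only [List.length_cons]; omega, fun p hp => ?_⟩
      simp only [List.mem_cons] at hp
      rcases hp with rfl | hp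
      · obtain ⟨h4, h5⟩ := h3 p (by rw [hg]; simp)
        exact ⟨by omega, h5⟩
      · obtain ⟨h4, h5⟩ := h2 p hp
        exact ⟨by omega, h5⟩

section

variable {ι : Type} [DEnc ι]

theorem P2_isEmpty {β : Type} [DEnc β] {l : ι → List β} (hl : PT l) :
    PT (fun x => (l x).isEmpty) :=
  (PT.listCases hl (f := fun _ => true) (g := fun _ : ι × β × List β => false) (PT.const true)
    (PT.const false)).congr fun x => by cases l x <;> rfl

theorem P2_pt_grows {E M : ι → List Ed} {b : ι → ℕ} {F : ι → List (List ℕ)} (hE : PT E)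
    (hM : PT M) (hb : PT b) (hF : PT F) : PT (fun x => grows (E x) (M x) (b x) (F x)) := by
  have h1 : PT (fun w : (ι × List ℕ) × Ed => decide (w.2.1 = w.1.2.headD 0) &&
      (!(memN (F w.1.1).flatten w.2.2) && !decide (w.2.2 = b w.1.1))) :=
    PT.band (PT.neq (PT.p1 PT.snd) (PT.headD (PT.p2 PT.fst) (PT.const 0)))
      (PT.band (PT.bnot (pt_memN (PT.flatten (hF.comp (PT.p1 PT.fst))) (PT.p2 PT.snd)))
        (PT.bnot (PT.neq (PT.p2 PT.snd) (hb.comp (PT.p1 PT.fst)))))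
  have h2 : PT (fun w : (ι × List ℕ) × Ed => mate (M w.1.1) w.2.2 :: w.2.2 :: w.1.2) :=
    PT.cons (pt_mate (hM.comp (PT.p1 PT.fst)) (PT.p2 PT.snd))
      (PT.cons (PT.p2 PT.snd) (PT.p2 PT.fst))
  have h3 : PT (fun z : ι × List ℕ => ((E z.1).filter fun e => decide (e.1 = z.2.headD 0) &&
      (!(memN (F z.1).flatten e.2) && !decide (e.2 = b z.1))).map
        fun e => mate (M z.1) e.2 :: e.2 :: z.2) :=
    PT.map (PT.filter (hE.comp PT.fst) h1) h2
  exact PT.flatMap hF h3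

theorem P2_pt_fstep {E M : ι → List Ed} {b : ι → ℕ} {F : ι → List (List ℕ)} (hE : PT E)
    (hM : PT M) (hb : PT b) (hF : PT F) : PT (fun x => fstep (E x) (M x) (b x) (F x)) := by
  have h := PT.listCases (P2_pt_grows hE hM hb hF) (f := F)
    (g := fun y : ι × List ℕ × List (List ℕ) => y.2.1 :: F y.1) hF
    (PT.cons (PT.p1 PT.snd) (hF.comp PT.fst))
  refine h.congr fun x => ?_
  unfold fstep
  cases grows (E x) (M x) (b x) (F x) <;> rfl

end

theorem P2_iter (x : St) (i : ℕ) (F : List (List ℕ)) :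
    (fun y : St × List (List ℕ) =>
      (y.1, fstep y.1.2.1 y.1.2.2.1 y.1.2.2.2.2 y.2))^[i] (x, F) =
      (x, (fstep x.2.1 x.2.2.1 x.2.2.2.2)^[i] F) := by
  induction i with
  | zero => rfl
  | succ i ih => rw [Function.iterate_succ_apply', ih, Function.iterate_succ_apply']

theorem pt_fst : PT fst' := by
  have hstep : PT (fun y : St × List (List ℕ) =>
      (y.1, fstep y.1.2.1 y.1.2.2.1 y.1.2.2.2.2 y.2)) :=
    PT.pair PT.fst (P2_pt_fstep (PT.p1 (PT.p2 PT.fst)) (PT.p1 (PT.p2 (PT.p2 PT.fst)))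
      (PT.p2 (PT.p2 (PT.p2 (PT.p2 PT.fst)))) PT.snd)
  have hinit : PT (fun x : St => (x, [[x.2.2.2.1]])) :=
    PT.pair PT.id (PT.cons (PT.cons (PT.p1 (PT.p2 (PT.p2 PT.snd))) (PT.const []))
      (PT.const []))
  have h := PT.iterateList (count := fun x : St => x.1) PT.fst hinit hstep
    ⟨fun x => tsize x + ((tsize x + 1) *
      (((2 * tsize x + 1) * (2 * tsize x + 2) + 1) + 1) + 1) + 1, ?_, fun x i hi => ?_⟩
  · refine (PT.p2 h).congr fun x => ?_
    rw [P2_iter]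
    rfl
  · have hT : PB (fun x : St => tsize x) := PB.tsize
    exact (hT.add (((hT.add (PB.const 1)).mul ((((((PB.const 2).mul hT).add (PB.const 1)).mul
      (((PB.const 2).mul hT).add (PB.const 2))).add (PB.const 1)).add (PB.const 1))).add
      (PB.const 1))).add (PB.const 1)
  · rw [P2_iter]
    have h0 := bd_self x
    obtain ⟨h1, h2⟩ := bd_forest h0 i
    generalize (fstep x.2.1 x.2.2.1 x.2.2.2.2)^[i] [[x.2.2.2.1]] = F at h1 h2 ⊢
    have hi' : i ≤ tsize x := hi.trans h0.lv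
    have h3 : ∀ p ∈ F, tsize p ≤ (2 * tsize x + 1) * (2 * tsize x + 2) + 1 := by
      intro p hp
      obtain ⟨h4, h5⟩ := h2 p hp
      have h6 := P2_listN h5
      have h7 : p.length * (2 * tsize x + 2) ≤ (2 * tsize x + 1) * (2 * tsize x + 2) :=
        Nat.mul_le_mul_right _ (by omega)
      omega
    have h4 := tsize_le_of_forall h3
    have h5 : F.length * ((2 * tsize x + 1) * (2 * tsize x + 2) + 1 + 1) ≤
        (tsize x + 1) * ((2 * tsize x + 1) * (2 * tsize x + 2) + 1 + 1) :=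
      Nat.mul_le_mul_right _ (by omega)
    rw [tsize_pair]
    beta_reduce
    omega

theorem P2_good : PT (fun x : St => good x.2.1 x.2.2.2.2 (fst' x)) := by
  have h : PT (fun y : St × List ℕ => memE y.1.2.1 (y.2.headD 0, y.1.2.2.2.2)) :=
    pt_memE (PT.p1 (PT.p2 PT.fst)) (PT.pair (PT.headD PT.snd (PT.const 0))
      (PT.p2 (PT.p2 (PT.p2 (PT.p2 PT.fst)))))
  exact PT.filter pt_fst h

theorem P2_hits : PT (fun x : St => hits x.2.1 (fst' x)) := by
  have h1 : PT (fun w : (St × List ℕ) × List ℕ =>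
      memE w.1.1.2.1 (w.1.2.headD 0, w.2.headD 0)) :=
    pt_memE (PT.p1 (PT.p2 (PT.p1 PT.fst))) (PT.pair (PT.headD (PT.p2 PT.fst) (PT.const 0))
      (PT.headD PT.snd (PT.const 0)))
  have h2 : PT (fun w : (St × List ℕ) × List ℕ => (w.1.2, w.2)) :=
    PT.pair (PT.p2 PT.fst) PT.snd
  have h3 : PT (fun y : St × List ℕ => ((fst' y.1).filter fun q =>
      memE y.1.2.1 (y.2.headD 0, q.headD 0)).map fun q => (y.2, q)) :=
    PT.map (PT.filter (pt_fst.comp PT.fst) h1) h2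
  exact PT.flatMap pt_fst h3

theorem P2_hd : PT (fun x : St => (hits x.2.1 (fst' x)).headD ([], [])) :=
  PT.headD P2_hits (PT.const ([], []))

theorem pt_isRec : PT isRec :=
  PT.band (P2_isEmpty P2_good) (PT.bnot (P2_isEmpty P2_hits))

theorem pt_cycS : PT cycS := pt_cyc (PT.p1 P2_hd) (PT.p2 P2_hd)

theorem P2_stemS : PT stemS := pt_stem (PT.p1 P2_hd) (PT.p2 P2_hd)

theorem pt_next : PT next :=
  PT.pair (pt_ctrV pt_cycS PT.fst) (PT.pair (pt_ctrE pt_cycS (PT.p1 PT.snd))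
    (PT.pair (pt_ctrM pt_cycS (pt_sw (PT.p1 PT.snd) (PT.p1 (PT.p2 PT.snd)) P2_stemS))
      (PT.pair (PT.headD pt_cycS (PT.const 0)) (PT.p2 (PT.p2 (PT.p2 PT.snd))))))

theorem pt_base : PT base := by
  have hb : PT (fun y : St × List ℕ × List (List ℕ) => y.1.2.2.2.2) :=
    PT.p2 (PT.p2 (PT.p2 (PT.p2 PT.fst)))
  have hs : PT (fun y : St × List ℕ × List (List ℕ) => y.2.1.headD 0) :=
    PT.headD (PT.p1 PT.snd) (PT.const 0)
  have h1 : PT (fun y : St × List ℕ × List (List ℕ) =>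
      (true, (y.2.1.headD 0, y.1.2.2.2.2) :: (y.1.2.2.2.2, y.2.1.headD 0) ::
        sw y.1.2.1 y.1.2.2.1 y.2.1)) :=
    PT.pair (PT.const true) (PT.cons (PT.pair hs hb) (PT.cons (PT.pair hb hs)
      (pt_sw (PT.p1 (PT.p2 PT.fst)) (PT.p1 (PT.p2 (PT.p2 PT.fst))) (PT.p1 PT.snd))))
  have h := PT.listCases P2_good (f := fun _ => ((false, []) : Bool × List Ed)) (PT.const _) h1
  refine h.congr fun x => ?_
  unfold base
  cases good x.2.1 x.2.2.2.2 (fst' x) <;> rfl

theorem pt_liftS : PT (fun y : St × Bool × List Ed => liftS y.1 y.2) :=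
  PT.cond (PT.p1 PT.snd)
    (PT.pair (PT.const true) (pt_liftN (pt_cycS.comp PT.fst) (PT.p1 (PT.p2 PT.fst))
      (PT.p2 PT.snd)))
    (PT.const (false, []))

end Pool.Agent.EDM
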