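import Pool.Agent.EDM.Defs

/-! **[EDM-S0]** Basic facts about the list functions. -/

namespace Pool.Agent.EDM

private theorem S0_fold (l : List ℕ) : ∀ (x : ℕ) (acc : List Ed) (e : Ed),
    e ∈ (l.foldl (fun s y => (y, (s.1, y) :: (y, s.1) :: s.2)) (x, acc)).2 ↔
      e ∈ acc ∨ e ∈ chainE x l := by
  induction l with
  | nil => intro x acc e; simp [chainE]
  | cons y l ih =>
    intro x acc e
    rw [List.foldl_cons, ih]
    simp only [chainE, List.mem_cons]
    tauto

/- PROOF. `steps (x :: l)` is the fold over `l` from `(x, [])`; by induction on `l`, for all `x`, `acc`: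
`e ∈ (l.foldl .. (x, acc)).2 ↔ e ∈ acc ∨ e ∈ chainE x l`. -/
theorem mem_steps (x : ℕ) (l : List ℕ) (e : Ed) : e ∈ steps (x :: l) ↔ e ∈ chainE x l := by
  have h := S0_fold l x [] e
  simp only [List.not_mem_nil, false_or] at h
  exact h

private theorem S0_chain (l : List ℕ) : ∀ (x u v : ℕ), (u, v) ∈ chainE x l →
    (v, u) ∈ chainE x l ∧ u ∈ x :: l ∧ v ∈ x :: l := by
  induction l with
  | nil => intro x u v h; simp [chainE] at h
  | cons y l ih =>
    intro x u v h
    simp only [chainE, List.mem_cons, Prod.mk.injEq] at h ⊢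
    rcases h with ⟨rfl, rfl⟩ | ⟨rfl, rfl⟩ | h
    · simp
    · simp
    · have := ih y u v h
      simp only [List.mem_cons] at this
      refine ⟨Or.inr (Or.inr this.1), Or.inr this.2.1, Or.inr this.2.2⟩

private theorem S0_nil : steps [] = [] := rfl

/- PROOF. `chainE x l` contains only pairs of members of `x :: l`, and with `e` the reversed pair. -/
theorem steps_symm (p : List ℕ) (u v : ℕ) (h : (u, v) ∈ steps p) : (v, u) ∈ steps p := by
  cases p with
  | nil => rw [S0_nil] at h; simp at h
  | cons x l =>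
    rw [mem_steps] at h ⊢
    exact (S0_chain l x u v h).1

theorem steps_mem (p : List ℕ) (u v : ℕ) (h : (u, v) ∈ steps p) : u ∈ p ∧ v ∈ p := by
  cases p with
  | nil => rw [S0_nil] at h; simp at h
  | cons x l =>
    rw [mem_steps] at h
    exact (S0_chain l x u v h).2

/- PROOF. membership in a filtered list; `mem_steps`, `chainE`. -/
theorem mem_sw (E M : List Ed) (p : List ℕ) (e : Ed) :
    e ∈ sw E M p ↔ e ∈ E ∧ ((e ∈ M ∧ e ∉ steps p) ∨ (e ∉ M ∧ e ∈ steps p)) := by
  rw [sw, List.mem_filter]
  refine and_congr_right fun _ => ?_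
  by_cases h1 : e ∈ M <;> by_cases h2 : e ∈ steps p
  · simp [(memE_iff M e).2 h1, (memE_iff _ e).2 h2, h1, h2]
  · simp [(memE_iff M e).2 h1, (memE_false _ e).2 h2, h1, h2]
  · simp [(memE_false M e).2 h1, (memE_iff _ e).2 h2, h1, h2]
  · simp [(memE_false M e).2 h1, (memE_false _ e).2 h2, h1, h2]

/- PROOF. the filtered list is not empty and all its members are `(v, w)`. -/
theorem mate_eq {E M : List Ed} (hM : Mt E M) {v w : ℕ} (h : (v, w) ∈ M) : mate M v = w := by
  have h1 : (v, w) ∈ M.filter fun e => decide (e.1 = v) := by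
    rw [List.mem_filter]
    exact ⟨h, by simp⟩
  have h2 : ∀ e ∈ M.filter fun e => decide (e.1 = v), e.2 = w := by
    intro e he
    rw [List.mem_filter] at he
    have h3 : e.1 = v := by simpa using he.2
    have h4 : (v, e.2) ∈ M := by
      have := he.1
      rw [← h3]
      exact this
    exact hM.func _ _ _ h4 h
  rw [mate]
  generalize (M.filter fun e => decide (e.1 = v)) = l at h1 h2
  cases l with
  | nil => simp at h1
  | cons x l => simpa using h2 x (by simp)

private theorem S0_pairs : ∀ (n : ℕ) (l : List ℕ), l.length ≤ n → ∀ (acc : List Ed) (e : Ed),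
    e ∈ (l.foldl (fun s y => bif s.1 then (false, 0, (s.2.1, y) :: (y, s.2.1) :: s.2.2)
      else (true, y, s.2.2)) (false, 0, acc)).2.2 ↔ e ∈ acc ∨ e ∈ pairsR l := by
  intro n
  induction n with
  | zero =>
    intro l hl acc e
    have : l = [] := List.length_eq_zero_iff.1 (by omega)
    subst this
    simp [pairsR]
  | succ n ih =>
    intro l hl acc e
    match l, hl with
    | [], _ => simp [pairsR]
    | [x], _ => simp [pairsR]
    | x :: y :: l, hl =>
      rw [List.foldl_cons, List.foldl_cons]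
      have h1 := ih l (by simp at hl; omega) ((x, y) :: (y, x) :: acc) e
      simp only [cond_false, cond_true]
      rw [h1]
      simp only [pairsR, List.mem_cons]
      tauto

/- PROOF. By strong induction on the length, for the fold from `(false, 0, acc)`:
`e ∈ result ↔ e ∈ acc ∨ e ∈ pairsR l`. -/
theorem mem_pairs (l : List ℕ) (e : Ed) : e ∈ pairs l ↔ e ∈ pairsR l := by
  have h := S0_pairs l.length l le_rfl [] e
  simp only [List.not_mem_nil, false_or] at h
  exact h

private theorem S0_rot (v : ℕ) (l₁ : List ℕ) : ∀ (l₂ : List ℕ) (k : ℕ), v ∉ l₁ → l₁.length ≤ k →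
    (fun l : List ℕ => bif decide (l.headD 0 = v) then l else l.tail ++ [l.headD 0])^[k]
      (l₁ ++ v :: l₂) = v :: l₂ ++ l₁ := by
  have hfix : ∀ (l : List ℕ) (k : ℕ),
      (fun l : List ℕ => bif decide (l.headD 0 = v) then l else l.tail ++ [l.headD 0])^[k]
        (v :: l) = v :: l := by
    intro l k
    induction k with
    | zero => rfl
    | succ k ih => rw [Function.iterate_succ_apply]; simpa using ih
  induction l₁ with
  | nil =>
    intro l₂ k _ _
    rw [List.nil_append, hfix, List.append_nil]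
  | cons x l₁ ih =>
    intro l₂ k h hk
    cases k with
    | zero => simp at hk
    | succ k =>
      have hx : x ≠ v := fun e => h (by simp [e])
      rw [Function.iterate_succ_apply]
      have h1 : (bif decide (((x :: l₁) ++ v :: l₂).headD 0 = v) then (x :: l₁) ++ v :: l₂
          else ((x :: l₁) ++ v :: l₂).tail ++ [((x :: l₁) ++ v :: l₂).headD 0]) =
          l₁ ++ v :: (l₂ ++ [x]) := by
        simp [hx]
      rw [h1, ih (l₂ ++ [x]) k (fun e => h (by simp [e])) (by simpa using hk)]
      simp

/- PROOF. By induction on `l₁`, the `l₁.length`-th iterate of the step at `l₁ ++ v :: l₂` is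
`v :: l₂ ++ l₁`, which is fixed by the step. -/
theorem rotTo_eq (v : ℕ) (l₁ l₂ : List ℕ) (h : v ∉ l₁) :
    rotTo v (l₁ ++ v :: l₂) = v :: l₂ ++ l₁ :=
  S0_rot v l₁ l₂ _ h (by simp)

/- PROOF. two-step induction (`pairsR`). -/
theorem pairsR_mem (l : List ℕ) (u v : ℕ) (h : (u, v) ∈ pairsR l) : u ∈ l ∧ v ∈ l := by
  induction l using pairsR.induct with
  | case1 => simp [pairsR] at h
  | case2 => simp [pairsR] at h
  | case3 x y l ih =>
    simp only [pairsR, List.mem_cons, Prod.mk.injEq] at h ⊢
    rcases h with ⟨rfl, rfl⟩ | ⟨rfl, rfl⟩ | h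
    · simp
    · simp
    · have := ih h
      exact ⟨Or.inr (Or.inr this.1), Or.inr (Or.inr this.2)⟩

theorem pairsR_symm (l : List ℕ) (u v : ℕ) (h : (u, v) ∈ pairsR l) : (v, u) ∈ pairsR l := by
  induction l using pairsR.induct with
  | case1 => simp [pairsR] at h
  | case2 => simp [pairsR] at h
  | case3 x y l ih =>
    simp only [pairsR, List.mem_cons, Prod.mk.injEq] at h ⊢
    rcases h with ⟨rfl, rfl⟩ | ⟨rfl, rfl⟩ | h
    · simp
    · simp
    · exact Or.inr (Or.inr (ih h))

theorem pairsR_func (l : List ℕ) (hl : l.Nodup) (u v w : ℕ) (h : (u, v) ∈ pairsR l)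
    (h' : (u, w) ∈ pairsR l) : v = w := by
  induction l using pairsR.induct with
  | case1 => simp [pairsR] at h
  | case2 => simp [pairsR] at h
  | case3 x y l ih =>
    have hx : x ≠ y ∧ x ∉ l := by
      have := (List.nodup_cons.1 hl).1
      simp only [List.mem_cons, not_or] at this
      exact this
    have hy : y ∉ l := (List.nodup_cons.1 (List.nodup_cons.1 hl).2).1
    have hl' : l.Nodup := (List.nodup_cons.1 (List.nodup_cons.1 hl).2).2
    simp only [pairsR, List.mem_cons, Prod.mk.injEq] at h h'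
    rcases h with ⟨rfl, rfl⟩ | ⟨rfl, rfl⟩ | h <;> rcases h' with ⟨h1, h2⟩ | ⟨h1, h2⟩ | h'
    · exact h2.symm
    · exact absurd h1 hx.1
    · exact absurd (pairsR_mem _ _ _ h').1 hx.2
    · exact absurd h1.symm hx.1
    · exact h2.symm
    · exact absurd (pairsR_mem _ _ _ h').1 hy
    · rw [h1] at h
      exact absurd (pairsR_mem _ _ _ h).1 hx.2
    · rw [h1] at h
      exact absurd (pairsR_mem _ _ _ h).1 hy
    · exact ih hl' h h'

theorem pairsR_cov (l : List ℕ) (hl : l.length % 2 = 0) (u : ℕ) (hu : u ∈ l) :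
    ∃ v, (u, v) ∈ pairsR l := by
  induction l using pairsR.induct with
  | case1 => simp at hu
  | case2 => simp at hl
  | case3 x y l ih =>
    simp only [pairsR, List.mem_cons, Prod.mk.injEq] at hu ⊢
    rcases hu with rfl | rfl | hu
    · exact ⟨y, Or.inl ⟨rfl, rfl⟩⟩
    · exact ⟨x, Or.inr (Or.inl ⟨rfl, rfl⟩)⟩
    · obtain ⟨v, hv⟩ := ih (by simp only [List.length_cons] at hl; omega) hu
      exact ⟨v, Or.inr (Or.inr hv)⟩

theorem pairsR_sub {E : List Ed} (hE : ∀ u v, (u, v) ∈ E → (v, u) ∈ E) (l : List ℕ)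
    (hl : List.IsChain (fun u v => (u, v) ∈ E) l) (u v : ℕ) (h : (u, v) ∈ pairsR l) :
    (u, v) ∈ E := by
  induction l using pairsR.induct with
  | case1 => simp [pairsR] at h
  | case2 => simp [pairsR] at h
  | case3 x y l ih =>
    rw [List.isChain_cons_cons] at hl
    have hl' : List.IsChain (fun u v => (u, v) ∈ E) l := by
      have := hl.2
      cases l with
      | nil => exact List.IsChain.nil
      | cons z l => exact (List.isChain_cons_cons.1 this).2
    simp only [pairsR, List.mem_cons, Prod.mk.injEq] at h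
    rcases h with ⟨rfl, rfl⟩ | ⟨rfl, rfl⟩ | h
    · exact hl.1
    · exact hE _ _ hl.1
    · exact ih hl' h

end Pool.Agent.EDM
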