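import Pool.Agent.EDM.S0

/-! **[EDM-S1]** Switching along an alternating path. -/

namespace Pool.Agent.EDM

/-- alternating paths from a vertex (the first element of the list) to the exposed vertex `a` -/
inductive AP (E M : List Ed) (a : ℕ) : List ℕ → Prop
  | root : AP E M a [a]
  | step {u t s : ℕ} {p : List ℕ} : AP E M a (s :: p) → (s, t) ∈ E → (t, u) ∈ M → t ∉ s :: p →
      u ∉ s :: p → AP E M a (u :: t :: s :: p)

/-- the properties proved by induction -/
structure S1_R (E M : List Ed) (l : List ℕ) : Prop where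
  mt : Mt E (sw E M l)
  hd : ∀ w, (l.headD 0, w) ∉ sw E M l
  off : ∀ x, x ∉ l → ∀ y, (x, y) ∈ sw E M l ↔ (x, y) ∈ M
  cov : ∀ x ∈ l, x ≠ l.headD 0 → ∃ y, (x, y) ∈ sw E M l
  int : ∀ x y, (x, y) ∈ sw E M l → x ∈ l → y ∈ l

theorem S1_main {E M : List Ed} {a : ℕ} (hs : ∀ u v, (u, v) ∈ E → (v, u) ∈ E) (hi : ∀ u, (u, u) ∉ E)
    (hM : Mt E M) (ha : ∀ w, (a, w) ∉ M) {l : List ℕ} (hl : AP E M a l) : S1_R E M l := by
  induction hl with
  | root =>
    have h1 : ∀ e : Ed, e ∈ sw E M [a] ↔ e ∈ M := by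
      intro e
      rw [mem_sw, mem_steps]
      constructor
      · rintro ⟨-, ⟨h, -⟩ | ⟨-, h⟩⟩
        · exact h
        · exact absurd h (by simp [chainE])
      · intro h
        exact ⟨hM.sub e.1 e.2 h, Or.inl ⟨h, by simp [chainE]⟩⟩
    refine ⟨⟨?_, ?_, ?_⟩, ?_, ?_, ?_, ?_⟩
    · intro u v h
      exact hM.sub _ _ ((h1 _).1 h)
    · intro u v h
      exact (h1 _).2 (hM.symm _ _ ((h1 _).1 h))
    · intro u v w h h'
      exact hM.func _ _ _ ((h1 _).1 h) ((h1 _).1 h')
    · intro w h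
      exact ha w ((h1 _).1 h)
    · intro x _ y
      exact h1 _
    · intro x hx hx'
      exact absurd (List.mem_singleton.1 hx) hx'
    · intro x y h hx
      rw [List.mem_singleton.1 hx] at h
      exact absurd ((h1 _).1 h) (ha y)
  | @step u t s p hp hst htu ht hu ih =>
    obtain ⟨i1, i2, i3, i4, i5⟩ := ih
    have i2' : ∀ w, (s, w) ∉ sw E M (s :: p) := i2
    have hut : (u, t) ∈ M := hM.symm _ _ htu
    have hne : u ≠ t := by
      rintro rfl
      exact hi _ (hM.sub _ _ htu)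
    have hus : u ≠ s := fun h => hu (h ▸ List.mem_cons_self)
    have hts : t ≠ s := fun h => ht (h ▸ List.mem_cons_self)
    have hMts : (t, s) ∉ M := fun h => hus (hM.func _ _ _ htu h)
    have hMst : (s, t) ∉ M := fun h => hMts (hM.symm _ _ h)
    have hA : ∀ x y, (x, y) ∈ steps (s :: p) → x ≠ t ∧ x ≠ u ∧ y ≠ t ∧ y ≠ u := by
      intro x y h
      obtain ⟨h1, h2⟩ := steps_mem _ _ _ h
      exact ⟨fun h => ht (h ▸ h1), fun h => hu (h ▸ h1), fun h => ht (h ▸ h2), fun h => hu (h ▸ h2)⟩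
    have hsteps : ∀ x y, (x, y) ∈ steps (u :: t :: s :: p) ↔ (x = u ∧ y = t) ∨ (x = t ∧ y = u) ∨
        (x = t ∧ y = s) ∨ (x = s ∧ y = t) ∨ (x, y) ∈ steps (s :: p) := by
      intro x y
      rw [mem_steps, mem_steps]
      simp only [chainE, List.mem_cons, Prod.mk.injEq]
    have key : ∀ x y, (x, y) ∈ sw E M (u :: t :: s :: p) ↔
        ((x, y) ∈ sw E M (s :: p) ∧ ¬ (x = t ∧ y = u) ∧ ¬ (x = u ∧ y = t)) ∨ (x = s ∧ y = t) ∨ (x = t ∧ y = s) := by
      intro x y
      rw [mem_sw, mem_sw, hsteps]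
      by_cases c1 : x = t ∧ y = u
      · obtain ⟨rfl, rfl⟩ := c1
        constructor
        · rintro ⟨-, ⟨-, h⟩ | ⟨h, -⟩⟩
          · exact absurd (Or.inr (Or.inl ⟨rfl, rfl⟩)) h
          · exact absurd htu h
        · rintro (⟨-, h, -⟩ | ⟨h, -⟩ | ⟨-, h⟩)
          · exact absurd ⟨rfl, rfl⟩ h
          · exact absurd h hts
          · exact absurd h hus
      by_cases c2 : x = u ∧ y = t
      · obtain ⟨rfl, rfl⟩ := c2
        constructor
        · rintro ⟨-, ⟨-, h⟩ | ⟨h, -⟩⟩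
          · exact absurd (Or.inl ⟨rfl, rfl⟩) h
          · exact absurd hut h
        · rintro (⟨-, -, h⟩ | ⟨h, -⟩ | ⟨h, -⟩)
          · exact absurd ⟨rfl, rfl⟩ h
          · exact absurd h hus
          · exact absurd h hne
      by_cases c3 : x = s ∧ y = t
      · obtain ⟨rfl, rfl⟩ := c3
        constructor
        · intro _
          exact Or.inr (Or.inl ⟨rfl, rfl⟩)
        · intro _
          exact ⟨hst, Or.inr ⟨hMst, Or.inr (Or.inr (Or.inr (Or.inl ⟨rfl, rfl⟩)))⟩⟩
      by_cases c4 : x = t ∧ y = s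
      · obtain ⟨rfl, rfl⟩ := c4
        constructor
        · intro _
          exact Or.inr (Or.inr ⟨rfl, rfl⟩)
        · intro _
          exact ⟨hs _ _ hst, Or.inr ⟨hMts, Or.inr (Or.inr (Or.inl ⟨rfl, rfl⟩))⟩⟩
      · constructor
        · rintro ⟨h, h2⟩
          left
          refine ⟨⟨h, ?_⟩, c1, c2⟩
          rcases h2 with ⟨h3, h4⟩ | ⟨h3, h4⟩
          · exact Or.inl ⟨h3, fun h5 => h4 (Or.inr (Or.inr (Or.inr (Or.inr h5))))⟩
          · right
            refine ⟨h3, ?_⟩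
            rcases h4 with h5 | h5 | h5 | h5 | h5
            · exact absurd h5 c2
            · exact absurd h5 c1
            · exact absurd h5 c4
            · exact absurd h5 c3
            · exact h5
        · rintro (⟨⟨h, h2⟩, -, -⟩ | h | h)
          · refine ⟨h, ?_⟩
            rcases h2 with ⟨h3, h4⟩ | ⟨h3, h4⟩
            · left
              refine ⟨h3, ?_⟩
              rintro (h5 | h5 | h5 | h5 | h5)
              · exact absurd h5 c2
              · exact absurd h5 c1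
              · exact absurd h5 c4
              · exact absurd h5 c3
              · exact h4 h5
            · exact Or.inr ⟨h3, Or.inr (Or.inr (Or.inr (Or.inr h4)))⟩
          · exact absurd h c3
          · exact absurd h c4
    have kt : ∀ y, (t, y) ∈ sw E M (s :: p) → y = u := fun y h =>
      hM.func _ _ _ ((i3 t ht y).1 h) htu
    have ku : ∀ y, (u, y) ∈ sw E M (s :: p) → y = t := fun y h =>
      hM.func _ _ _ ((i3 u hu y).1 h) hut
    refine ⟨⟨?_, ?_, ?_⟩, ?_, ?_, ?_, ?_⟩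
    · intro x y h
      exact ((mem_sw _ _ _ _).1 h).1
    · intro x y h
      rw [key] at h ⊢
      rcases h with ⟨h1, h2, h3⟩ | ⟨h1, h2⟩ | ⟨h1, h2⟩
      · exact Or.inl ⟨i1.symm _ _ h1, fun h4 => h3 ⟨h4.2, h4.1⟩, fun h4 => h2 ⟨h4.2, h4.1⟩⟩
      · exact Or.inr (Or.inr ⟨h2, h1⟩)
      · exact Or.inr (Or.inl ⟨h2, h1⟩)
    · intro x y z h h'
      rw [key] at h h'
      rcases h with ⟨h1, h2, h3⟩ | ⟨h1, h2⟩ | ⟨h1, h2⟩
      · rcases h' with ⟨h1', h2', h3'⟩ | ⟨h1', h2'⟩ | ⟨h1', h2'⟩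
        · exact i1.func _ _ _ h1 h1'
        · rw [h1'] at h1
          exact absurd h1 (i2' _)
        · rw [h1'] at h1
          exact absurd ⟨h1', kt _ h1⟩ h2
      · rcases h' with ⟨h1', h2', h3'⟩ | ⟨h1', h2'⟩ | ⟨h1', h2'⟩
        · rw [h1] at h1'
          exact absurd h1' (i2' _)
        · rw [h2, h2']
        · exact absurd (h1'.symm.trans h1) hts
      · rcases h' with ⟨h1', h2', h3'⟩ | ⟨h1', h2'⟩ | ⟨h1', h2'⟩
        · rw [h1] at h1'
          exact absurd ⟨h1, kt _ h1'⟩ h2'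
        · exact absurd (h1.symm.trans h1') hts
        · rw [h2, h2']
    · intro w h
      have h' : (u, w) ∈ sw E M (u :: t :: s :: p) := h
      rw [key] at h'
      rcases h' with ⟨h1, h2, h3⟩ | ⟨h1, h2⟩ | ⟨h1, h2⟩
      · exact h3 ⟨rfl, ku _ h1⟩
      · exact hus h1
      · exact hne h1
    · intro x hx y
      have hx1 : x ≠ u := fun h => hx (h ▸ List.mem_cons_self)
      have hx2 : x ≠ t := fun h => hx (h ▸ List.mem_cons_of_mem _ List.mem_cons_self)
      have hx3 : x ∉ s :: p := fun h => hx (List.mem_cons_of_mem _ (List.mem_cons_of_mem _ h))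
      have hx4 : x ≠ s := fun h => hx3 (h ▸ List.mem_cons_self)
      rw [key, ← i3 x hx3 y]
      constructor
      · rintro (⟨h1, -, -⟩ | ⟨h1, -⟩ | ⟨h1, -⟩)
        · exact h1
        · exact absurd h1 hx4
        · exact absurd h1 hx2
      · intro h
        exact Or.inl ⟨h, fun h1 => hx2 h1.1, fun h1 => hx1 h1.1⟩
    · intro x hx hxu
      have hxu' : x ≠ u := hxu
      rcases List.mem_cons.1 hx with h | h
      · exact absurd h hxu'
      rcases List.mem_cons.1 h with h1 | h1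
      · exact ⟨s, (key _ _).2 (Or.inr (Or.inr ⟨h1, rfl⟩))⟩
      · by_cases hxs : x = s
        · exact ⟨t, (key _ _).2 (Or.inr (Or.inl ⟨hxs, rfl⟩))⟩
        · obtain ⟨y, hy⟩ := i4 x h1 hxs
          refine ⟨y, (key _ _).2 (Or.inl ⟨hy, ?_, ?_⟩)⟩
          · rintro ⟨h2, -⟩
            exact ht (h2 ▸ h1)
          · rintro ⟨h2, -⟩
            exact hxu' h2
    · intro x y h hx
      rw [key] at h
      rcases h with ⟨h1, h2, h3⟩ | ⟨h1, h4⟩ | ⟨h1, h4⟩
      · rcases List.mem_cons.1 hx with h5 | h5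
        · rw [h5] at h1
          exact absurd ⟨h5, ku _ h1⟩ h3
        rcases List.mem_cons.1 h5 with h6 | h6
        · rw [h6] at h1
          exact absurd ⟨h6, kt _ h1⟩ h2
        · exact List.mem_cons_of_mem _ (List.mem_cons_of_mem _ (i5 x y h1 h6))
      · rw [h4]
        exact List.mem_cons_of_mem _ List.mem_cons_self
      · rw [h4]
        exact List.mem_cons_of_mem _ (List.mem_cons_of_mem _ List.mem_cons_self)

theorem S1_root {E M : List Ed} {a : ℕ} {l : List ℕ} (hl : AP E M a l) : a ∈ l := by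
  induction hl with
  | root => exact List.mem_singleton.2 rfl
  | step _ _ _ _ _ ih => exact List.mem_cons_of_mem _ (List.mem_cons_of_mem _ ih)

/-
PROOF of the three theorems: first prove by induction on `AP E M a (v :: p)` (for all `v`, `p`), with
`sw` described by `mem_sw`, `mem_steps`, `chainE`, the conjunction of
(1) `Mt E (sw E M (v :: p))`, (2) no pair `(v, w)` is in `sw E M (v :: p)`,
(3) for `x ∉ v :: p`: `(x, y) ∈ sw E M (v :: p) ↔ (x, y) ∈ M`,
(4) for `x ∈ v :: p`, `x ≠ v` there is `y` with `(x, y) ∈ sw E M (v :: p)`, and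
(5) `(x, y) ∈ sw E M (v :: p)`, `x ∈ v :: p` imply `y ∈ v :: p`.
For `[a]`: `chainE a [] = []`, `sw` is `E.filter (· ∈ M)`, i.e. `M` (as a set), and `a` is exposed.
Step: `chainE u (t :: s :: p)` has the four pairs `(u, t), (t, u), (t, s), (s, t)` and `chainE s p`. The latter
only has pairs of members of `s :: p` (`steps_mem`), so `t`, `u` do not occur in it; `(t, u), (u, t) ∈ M`;
`(s, t), (t, s) ∉ M` (`M` is functional, `u ≠ s`). So as a set `sw E M (u :: t :: s :: p)` is
`sw E M (s :: p)` minus `(t, u), (u, t)` plus `(s, t), (t, s)`; `(t, u)` is in `sw E M (s :: p)` by (3) for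
`s :: p`; `s` is exposed in `sw E M (s :: p)` by (2). `u ≠ t` since `(t, t) ∉ E`.
-/
theorem sw_near {V : List ℕ} {E M : List Ed} {a b v : ℕ} {p : List ℕ} (hG : Gr V E)
    (hN : Near V E M a b) (hp : AP E M a (v :: p)) (hb : b ∉ v :: p) :
    Near V E (sw E M (v :: p)) v b := by
  have h := S1_main hG.symm hG.irr hN.mt hN.ea hp
  refine ⟨h.mt, ?_, hN.bv, fun e => hb (e ▸ List.mem_cons_self), h.hd, ?_, ?_⟩
  · cases hp with
    | root => exact hN.av
    | step _ _ htu _ _ => exact hG.mem _ _ (hG.symm _ _ (hN.mt.sub _ _ htu))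
  · intro w hw
    exact hN.eb w ((h.off b hb w).1 hw)
  · intro x hx hxv hxb
    by_cases hxl : x ∈ v :: p
    · exact h.cov x hxl hxv
    · have hxa : x ≠ a := fun e => hxl (e ▸ S1_root hp)
      obtain ⟨w, hw⟩ := hN.cov x hx hxa hxb
      exact ⟨w, (h.off x hxl w).2 hw⟩

theorem sw_off {V : List ℕ} {E M : List Ed} {a b v : ℕ} {p : List ℕ} (hG : Gr V E)
    (hN : Near V E M a b) (hp : AP E M a (v :: p)) {x y : ℕ} (hx : x ∉ v :: p) :
    (x, y) ∈ sw E M (v :: p) ↔ (x, y) ∈ M :=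
  (S1_main hG.symm hG.irr hN.mt hN.ea hp).off x hx y

theorem sw_int {V : List ℕ} {E M : List Ed} {a b v : ℕ} {p : List ℕ} (hG : Gr V E)
    (hN : Near V E M a b) (hp : AP E M a (v :: p)) {x y : ℕ} (hx : x ∈ v :: p)
    (h : (x, y) ∈ sw E M (v :: p)) : y ∈ v :: p :=
  (S1_main hG.symm hG.irr hN.mt hN.ea hp).int x y h hx

end Pool.Agent.EDM
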